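import Mathlib

/-!
Real reductive groups (textbook definition: Zariski closed, trivial unipotent radical): cocompact
lattices are uniformly discrete in `GL_n(ℝ)`. Definitions. Proof text: REALRED.md in the store.
-/

set_option autoImplicit false

namespace Pool.Agent.Lib.MP_fee02f_an.RL

open Matrix

/-- the variables of the polynomials: the entries of an `n × n` matrix -/
abbrev Ix (n : ℕ) : Type := Fin n × Fin n

/-- real `n × n` matrices -/
abbrev Mat (n : ℕ) : Type := Matrix (Fin n) (Fin n) ℝ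

/-- the value of a polynomial in the entries at a matrix -/
noncomputable def ev {n : ℕ} {K : Type} [CommRing K] (f : MvPolynomial (Ix n) K)
    (A : Matrix (Fin n) (Fin n) K) : K :=
  MvPolynomial.eval (fun p => A p.1 p.2) f

/-- `G` is Zariski closed in `GL_n(ℝ)`: the set of the invertible matrices at which the members of a
set of polynomials in the entries vanish. -/
def ZClosed {n : ℕ} (G : Subgroup (GL (Fin n) ℝ)) : Prop :=
  ∃ S : Set (MvPolynomial (Ix n) ℝ), ∀ g : GL (Fin n) ℝ, g ∈ G ↔ ∀ f ∈ S, ev f (g : Mat n) = 0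

/-- `G` has no normal subgroup `U ≠ 1` consisting of unipotent matrices. -/
def NoUnip {n : ℕ} (G : Subgroup (GL (Fin n) ℝ)) : Prop :=
  ∀ U : Subgroup (GL (Fin n) ℝ), U ≤ G → (∀ g ∈ G, ∀ u ∈ U, g * u * g⁻¹ ∈ U) →
    (∀ u ∈ U, IsNilpotent ((u : Mat n) - 1)) → U = ⊥

/-- all entries of `A` have absolute value `< ε` -/
def Small {n : ℕ} (ε : ℝ) (A : Mat n) : Prop := ∀ i j, |A i j| < ε

/-- the derivation of the polynomial ring with `(D X f)(y) = d/dt f (y exp (t X))` at `t = 0` -/
noncomputable def D {n : ℕ} {K : Type} [CommRing K] (X : Matrix (Fin n) (Fin n) K) :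
    Derivation K (MvPolynomial (Ix n) K) (MvPolynomial (Ix n) K) :=
  MvPolynomial.mkDerivation K (fun p => ∑ k, X k p.2 • MvPolynomial.X (p.1, k))

/-- substitution `y ↦ y h` in a polynomial -/
noncomputable def rt {n : ℕ} (h : Mat n) : MvPolynomial (Ix n) ℝ →ₐ[ℝ] MvPolynomial (Ix n) ℝ :=
  MvPolynomial.aeval (fun p => ∑ k, h k p.2 • MvPolynomial.X (p.1, k))

/-- the ideal of the polynomials vanishing on `G` -/
noncomputable def I {n : ℕ} (G : Subgroup (GL (Fin n) ℝ)) : Ideal (MvPolynomial (Ix n) ℝ) where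
  carrier := {f | ∀ g ∈ G, ev f (g : Mat n) = 0}
  add_mem' := by
    intro a b ha hb g hg
    have h1 := ha g hg
    have h2 := hb g hg
    unfold ev at *
    rw [map_add, h1, h2, add_zero]
  zero_mem' := by
    intro g _
    simp [ev]
  smul_mem' := by
    intro c f hf g hg
    have h1 := hf g hg
    unfold ev at *
    rw [smul_eq_mul, map_mul, h1, mul_zero]

lemma mem_I {n : ℕ} (G : Subgroup (GL (Fin n) ℝ)) (f : MvPolynomial (Ix n) ℝ) :
    f ∈ I G ↔ ∀ g ∈ G, ev f (g : Mat n) = 0 := Iff.rfl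

/-- the Lie algebra of `G`: the matrices `X` whose derivation preserves the vanishing ideal -/
def InLie {n : ℕ} (G : Subgroup (GL (Fin n) ℝ)) (X : Mat n) : Prop :=
  ∀ f ∈ I G, D X f ∈ I G

/-- `B` acts as the scalar `conj μ` on the generalised `μ`-eigenspace of `A`, for every `μ` -/
def ConjRel {V : Type} [AddCommGroup V] [Module ℂ V] (A B : Module.End ℂ V) : Prop :=
  ∀ (μ : ℂ) (v : V), v ∈ A.maxGenEigenspace μ → B v = (starRingEnd ℂ μ) • v

/-- complexification of a real matrix -/
noncomputable def cx {n : ℕ} (X : Mat n) : Matrix (Fin n) (Fin n) ℂ := X.map (fun t : ℝ => (t : ℂ))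

/-- squared Hilbert-Schmidt norm -/
noncomputable def hs {n : ℕ} (X : Mat n) : ℝ := ∑ i, ∑ j, X i j ^ 2

/-- Hilbert-Schmidt inner product -/
noncomputable def ip {n : ℕ} (X Y : Mat n) : ℝ := ∑ i, ∑ j, X i j * Y i j

end Pool.Agent.Lib.MP_fee02f_an.RL
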