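import Mathlib
import Pool.Agent.Lib.MP_fee02f_an.RL.Defs

/-!
A1 (about 45 min). The logarithm of `exp A` for small `A`, in the form of linear functionals.
PROOF. Use the norm `Matrix.linftyOpNormedRing` / `linftyOpNormedAlgebra` as local instances (the entries are
bounded by the norm and the norm by card * max of the entries, so choose delta with card * delta <= 1/2).
Let ‖A‖ <= 1/2, Delta(t) = exp(tA) - 1, 0 <= t <= 1: ‖Delta(t)‖ <= exp(1/2) - 1 < 0.65.
g(t) = sum_(k>=0) (-1)^k Delta(t)^(k+1)/(k+1) (absolutely convergent). Termwise derivative (all matrices commute,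
d/dt Delta = A exp(tA)): g'(t) = sum (-1)^k Delta^k A exp(tA) = (1 + Delta)^(-1) A exp(tA) = A (geometric series,
1 + Delta = exp(tA)). g(0) = 0, hence g(1) = A. (hasDerivAt_tsum or a direct argument.)
Alternative without differentiation under the sum: any proof that A is in the closure of the span of the powers
of exp A. phi is continuous (finite dimension) and kills every power of exp A, so every Delta(1)^(k+1)
(binomial formula), so phi A = 0.
-/

set_option autoImplicit false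

namespace Pool.Agent.Lib.MP_fee02f_an.RL

open Matrix

/-- near zero the exponential is close to `1 + x` -/
theorem A1_near (𝔸 : Type) [NormedRing 𝔸] [NormedAlgebra ℝ 𝔸] [CompleteSpace 𝔸] :
    ∃ δ > (0 : ℝ), ∀ x : 𝔸, ‖x‖ < δ → ‖NormedSpace.exp x - 1 - x‖ ≤ ‖x‖ / 2 := by
  have h1 : HasFDerivAt (NormedSpace.exp : 𝔸 → 𝔸) (1 : 𝔸 →L[ℝ] 𝔸) 0 := hasFDerivAt_exp_zero
  rw [hasFDerivAt_iff_isLittleO_nhds_zero] at h1
  have h2 := h1.def (show (0 : ℝ) < 1 / 2 by norm_num)
  obtain ⟨δ, hδ, h3⟩ := Metric.eventually_nhds_iff.1 h2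
  refine ⟨δ, hδ, fun x hx => ?_⟩
  have h4 := h3 (show dist x 0 < δ by rwa [dist_zero_right])
  rw [zero_add, NormedSpace.exp_zero] at h4
  have h5 : (1 : 𝔸 →L[ℝ] 𝔸) x = x := rfl
  rw [h5] at h4
  linarith

/-- a small element is a limit of polynomials in its exponential -/
theorem A1_gen (𝔸 : Type) [NormedRing 𝔸] [NormedAlgebra ℝ 𝔸] [FiniteDimensional ℝ 𝔸] :
    ∃ δ > (0 : ℝ), ∀ A : 𝔸, ‖A‖ < δ → ∀ φ : 𝔸 →ₗ[ℝ] ℝ,
      (∀ k : ℕ, φ ((NormedSpace.exp A) ^ k) = 0) → φ A = 0 := by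
  have : CompleteSpace 𝔸 := FiniteDimensional.complete ℝ 𝔸
  let _ : NormedAlgebra ℚ 𝔸 := NormedAlgebra.restrictScalars ℚ ℝ 𝔸
  obtain ⟨δ', hδ', hnear⟩ := A1_near 𝔸
  refine ⟨δ', hδ', ?_⟩
  intro A hnorm φ hφ
  let B : Subalgebra ℝ 𝔸 := Algebra.adjoin ℝ {NormedSpace.exp A}
  have hclosed : IsClosed (B : Set 𝔸) :=
    Submodule.closed_of_finiteDimensional (Subalgebra.toSubmodule B)
  have hexpB : ∀ b ∈ B, NormedSpace.exp b ∈ B := by
    intro b hb
    exact NormedSpace.exp_mem (R := ℝ) hclosed hb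
  have hcomm : ∀ b ∈ B, Commute A b := by
    intro b hb
    have h1 : B ≤ Subalgebra.centralizer ℝ {A} := by
      refine Algebra.adjoin_le ?_
      rintro _ rfl
      rw [SetLike.mem_coe, Subalgebra.mem_centralizer_iff]
      rintro _ rfl
      exact (Commute.exp_right (Commute.refl _)).eq
    exact (Subalgebra.mem_centralizer_iff ℝ).1 (h1 hb) A rfl
  have hexpA : NormedSpace.exp A ∈ B := Algebra.subset_adjoin rfl
  have hstep : ∀ j : ℕ, ∃ b ∈ B, ‖A - b‖ ≤ ‖A‖ / 2 ^ j := by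
    intro j
    induction j with
    | zero => exact ⟨0, B.zero_mem, by simp⟩
    | succ j ih =>
      obtain ⟨b, hb, hb'⟩ := ih
      have h1 : ‖A - b‖ < δ' := by
        refine lt_of_le_of_lt (le_trans hb' ?_) hnorm
        exact div_le_self (norm_nonneg _) (one_le_pow₀ (by norm_num))
      have h2 : NormedSpace.exp (A - b) = NormedSpace.exp (-b) * NormedSpace.exp A := by
        rw [← NormedSpace.exp_add_of_commute (hcomm b hb).symm.neg_left]
        congr 1
        abel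
      have h3 : NormedSpace.exp (A - b) ∈ B := by
        rw [h2]
        exact B.mul_mem (hexpB _ (B.neg_mem hb)) hexpA
      refine ⟨b + (NormedSpace.exp (A - b) - 1), B.add_mem hb (B.sub_mem h3 B.one_mem), ?_⟩
      have h4 := hnear _ h1
      have h5 : A - (b + (NormedSpace.exp (A - b) - 1)) =
          -(NormedSpace.exp (A - b) - 1 - (A - b)) := by abel
      rw [h5, norm_neg]
      refine le_trans h4 ?_
      rw [pow_succ, ← div_div]
      exact div_le_div_of_nonneg_right hb' (by norm_num)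
  have hAB : A ∈ B := by
    have h1 : A ∈ closure (B : Set 𝔸) := by
      rw [Metric.mem_closure_iff]
      intro ε hε
      obtain ⟨j, hj⟩ := pow_unbounded_of_one_lt (‖A‖ / ε) (by norm_num : (1 : ℝ) < 2)
      obtain ⟨b, hb, hb'⟩ := hstep j
      refine ⟨b, hb, ?_⟩
      rw [dist_eq_norm]
      refine lt_of_le_of_lt hb' ?_
      rw [div_lt_iff₀ (by positivity)]
      rw [div_lt_iff₀ hε] at hj
      linarith [mul_comm ((2 : ℝ) ^ j) ε]
    rwa [hclosed.closure_eq] at h1
  have hspan : A ∈ Submodule.span ℝ (Submonoid.closure {NormedSpace.exp A} : Set 𝔸) := by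
    rw [← Algebra.adjoin_eq_span]
    exact hAB
  have hle : Submodule.span ℝ (Submonoid.closure {NormedSpace.exp A} : Set 𝔸) ≤
      LinearMap.ker φ := by
    refine Submodule.span_le.2 ?_
    intro x hx
    obtain ⟨k, rfl⟩ := Submonoid.mem_closure_singleton.1 hx
    exact hφ k
  exact hle hspan

section

attribute [local instance] Matrix.linftyOpNormedRing Matrix.linftyOpNormedAlgebra

theorem A1_norm {ι : Type} [Fintype ι] [DecidableEq ι] (A : Matrix ι ι ℝ) {c : ℝ} (hc : 0 ≤ c)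
    (h : ∀ i j, |A i j| ≤ c) : ‖A‖ ≤ Fintype.card ι * c := by
  rw [Matrix.linfty_opNorm_def]
  have h1 : (Finset.univ.sup fun i => ∑ j, ‖A i j‖₊ : NNReal) ≤
      Fintype.card ι * Real.toNNReal c := by
    refine Finset.sup_le fun i _ => ?_
    refine le_trans (Finset.sum_le_sum fun j _ => (show ‖A i j‖₊ ≤ Real.toNNReal c from ?_)) ?_
    · rw [← NNReal.coe_le_coe, Real.coe_toNNReal c hc]
      show ‖A i j‖ ≤ c
      rw [Real.norm_eq_abs]
      exact h i j
    · rw [Finset.sum_const, Finset.card_univ, nsmul_eq_mul]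
  have h2 := NNReal.coe_le_coe.2 h1
  rw [NNReal.coe_mul, Real.coe_toNNReal c hc] at h2
  exact h2

theorem A1_mat (ι : Type) [Fintype ι] [DecidableEq ι] :
    ∃ δ > (0 : ℝ), ∀ A : Matrix ι ι ℝ, (∀ i j, |A i j| < δ) → ∀ φ : Matrix ι ι ℝ →ₗ[ℝ] ℝ,
      (∀ k : ℕ, φ ((NormedSpace.exp A) ^ k) = 0) → φ A = 0 := by
  obtain ⟨δ', hδ', h⟩ := A1_gen (Matrix ι ι ℝ)
  refine ⟨δ' / (Fintype.card ι + 1), by positivity, ?_⟩
  intro A hA φ hφ
  refine h A ?_ φ hφ
  refine lt_of_le_of_lt (A1_norm A (by positivity : (0 : ℝ) ≤ δ' / (Fintype.card ι + 1))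
    fun i j => (hA i j).le) ?_
  rw [mul_div_assoc', div_lt_iff₀ (by positivity)]
  nlinarith

end

theorem log_functional (ι : Type) [Fintype ι] [DecidableEq ι] :
    ∃ δ > (0 : ℝ), ∀ A : Matrix ι ι ℝ, (∀ i j, |A i j| < δ) → ∀ φ : Matrix ι ι ℝ →ₗ[ℝ] ℝ,
      (∀ k : ℕ, φ ((NormedSpace.exp A) ^ k) = 0) → φ A = 0 := by
  exact A1_mat ι

end Pool.Agent.Lib.MP_fee02f_an.RL
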