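import Mathlib
import Pool.Agent.Lib.MP_fee02f_an.RL.Defs

/-!
A2 (about 30 min). Local inverse of the matrix exponential at 0, and continuity.
PROOF. `hasStrictFDerivAt_exp_zero` (derivative the identity) with a local norm instance on matrices, then
`HasStrictFDerivAt.map_nhds_eq_of_equiv` (or `map_nhds_eq_of_surj`): exp maps neighbourhoods of 0 onto neighbourhoods
of exp 0 = 1. The sets `{X | Small δ X}` are neighbourhoods of 0 (finitely many continuous entries).
`exp_small`: continuity of exp at 0 (NormedSpace.exp_continuous).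
-/

set_option autoImplicit false

namespace Pool.Agent.Lib.MP_fee02f_an.RL

open Matrix

lemma A2_basis_fun {n : ℕ} (A : Fin n → Fin n → ℝ) (s : Set (Fin n → Fin n → ℝ)) :
    s ∈ nhds A ↔ ∃ ε > (0 : ℝ), ∀ x : Fin n → Fin n → ℝ, (∀ i j, |x i j - A i j| < ε) → x ∈ s := by
  rw [Metric.mem_nhds_iff]
  constructor
  · rintro ⟨ε, hε, hs⟩
    refine ⟨ε, hε, fun x hx => hs ?_⟩
    rw [Metric.mem_ball, dist_pi_lt_iff hε]
    intro i
    rw [dist_pi_lt_iff hε]
    intro j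
    rw [Real.dist_eq]
    exact hx i j
  · rintro ⟨ε, hε, hs⟩
    refine ⟨ε, hε, fun x hx => hs x ?_⟩
    rw [Metric.mem_ball, dist_pi_lt_iff hε] at hx
    intro i j
    have h1 := hx i
    rw [dist_pi_lt_iff hε] at h1
    have h2 := h1 j
    rw [Real.dist_eq] at h2
    exact h2

/-- the sets of small matrices form a neighbourhood basis (topology of the entries) -/
lemma A2_basis {n : ℕ} (A : Mat n) (s : Set (Mat n)) :
    s ∈ nhds A ↔ ∃ ε > (0 : ℝ), ∀ x : Mat n, Small ε (x - A) → x ∈ s :=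
  A2_basis_fun A s

lemma A2_map (n : ℕ) : Filter.map (NormedSpace.exp : Mat n → Mat n) (nhds 0) = nhds 1 := by
  let _ : NormedRing (Mat n) := Matrix.linftyOpNormedRing
  let _ : NormedAlgebra ℝ (Mat n) := Matrix.linftyOpNormedAlgebra
  have : CompleteSpace (Mat n) := FiniteDimensional.complete ℝ _
  have h1 : HasStrictFDerivAt (NormedSpace.exp : Mat n → Mat n)
      ((ContinuousLinearEquiv.refl ℝ (Mat n) : Mat n ≃L[ℝ] Mat n) : Mat n →L[ℝ] Mat n) 0 :=
    hasStrictFDerivAt_exp_zero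
  have h2 := h1.map_nhds_eq_of_equiv
  rw [NormedSpace.exp_zero] at h2
  exact h2

theorem exists_log (n : ℕ) (δ : ℝ) (hδ : 0 < δ) :
    ∃ ε > (0 : ℝ), ∀ x : Mat n, Small ε (x - 1) → ∃ X : Mat n, Small δ X ∧ NormedSpace.exp X = x := by
  have h0 : {X : Mat n | Small δ X} ∈ nhds (0 : Mat n) := by
    rw [A2_basis]
    exact ⟨δ, hδ, fun x hx => by rwa [sub_zero] at hx⟩
  have h1 : (NormedSpace.exp : Mat n → Mat n) '' {X : Mat n | Small δ X} ∈ nhds (1 : Mat n) := by
    rw [← A2_map]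
    exact Filter.image_mem_map h0
  rw [A2_basis] at h1
  obtain ⟨ε, hε, h2⟩ := h1
  refine ⟨ε, hε, fun x hx => ?_⟩
  obtain ⟨X, hX, hXx⟩ := h2 x hx
  exact ⟨X, hX, hXx⟩

theorem exp_small (n : ℕ) (ε : ℝ) (hε : 0 < ε) :
    ∃ δ > (0 : ℝ), ∀ X : Mat n, Small δ X → Small ε (NormedSpace.exp X - 1) := by
  have h0 : {X : Mat n | Small ε (X - 1)} ∈ nhds (1 : Mat n) := by
    rw [A2_basis]
    exact ⟨ε, hε, fun x hx => hx⟩
  rw [← A2_map, Filter.mem_map, A2_basis] at h0
  obtain ⟨δ, hδ, h1⟩ := h0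
  exact ⟨δ, hδ, fun X hX => h1 X (by rwa [sub_zero])⟩

end Pool.Agent.Lib.MP_fee02f_an.RL
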