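import Mathlib
import Pool.Agent.Lib.MP_fee02f_an.RL.Defs

/-!
B1 (about 45 min). Calculus of the derivations `D X` (any commutative ring `K`) and of the substitution `rt`.
PROOFS. Derivations of a polynomial ring agree if they agree on the variables (MvPolynomial.derivation_ext);
D X (X_(i,j)) = sum_k X k j • X_(i,k) (mkDerivation_X), i.e. the (i,j) entry of y X. The commutator of two derivations is
a derivation (⁅D X, D Y⁆ in Mathlib, Derivation.commutator_apply), on the variables it is the entry of y (X Y - Y X).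
`D_rt`: X * h = h * Z. f ↦ D X (rt h f) and f ↦ rt h (D Z f) are both derivations along the algebra map rt h
(or: induction on f, MvPolynomial.induction_on), on the variables: sum_k h k j • (y X)_(i,k) = (y X h)_(i,j)
and rt h ((y Z)_(i,j)) = (y h Z)_(i,j).
Degrees: D X sends a monomial of degree d to a combination of monomials of degree d (or 0); rt h is a substitution
of linear forms (totalDegree of aeval; induction).
-/

set_option autoImplicit false

namespace Pool.Agent.Lib.MP_fee02f_an.RL

open Matrix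

theorem ev_add {n : ℕ} {K : Type} [CommRing K] (f g : MvPolynomial (Ix n) K)
    (A : Matrix (Fin n) (Fin n) K) : ev (f + g) A = ev f A + ev g A := by
  unfold ev
  rw [map_add]

theorem ev_mul {n : ℕ} {K : Type} [CommRing K] (f g : MvPolynomial (Ix n) K)
    (A : Matrix (Fin n) (Fin n) K) : ev (f * g) A = ev f A * ev g A := by
  unfold ev
  rw [map_mul]

theorem ev_smul {n : ℕ} {K : Type} [CommRing K] (c : K) (f : MvPolynomial (Ix n) K)
    (A : Matrix (Fin n) (Fin n) K) : ev (c • f) A = c * ev f A := by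
  unfold ev
  rw [MvPolynomial.smul_eval]

lemma B1_D_X {n : ℕ} {K : Type} [CommRing K] (X : Matrix (Fin n) (Fin n) K) (p : Ix n) :
    D X (MvPolynomial.X p) = ∑ k, X k p.2 • MvPolynomial.X (p.1, k) := by
  unfold D
  exact MvPolynomial.mkDerivation_X _ _ _

lemma B1_rt_X {n : ℕ} (h : Mat n) (p : Ix n) :
    rt h (MvPolynomial.X p) = ∑ k, h k p.2 • MvPolynomial.X (p.1, k) := by
  unfold rt
  exact MvPolynomial.aeval_X _ _

lemma B1_lin {n : ℕ} {K : Type} [CommRing K] (X : Matrix (Fin n) (Fin n) K) (a : Fin n → K)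
    (i : Fin n) : ∑ k, a k • ∑ l, X l k • (MvPolynomial.X (i, l) : MvPolynomial (Ix n) K) =
      ∑ l, (∑ k, X l k * a k) • MvPolynomial.X (i, l) := by
  simp_rw [Finset.smul_sum, Finset.sum_smul]
  rw [Finset.sum_comm]
  refine Finset.sum_congr rfl fun l _ => Finset.sum_congr rfl fun k _ => ?_
  rw [smul_smul, mul_comm]

lemma B1_D_lin {n : ℕ} {K : Type} [CommRing K] (X : Matrix (Fin n) (Fin n) K) (a : Fin n → K)
    (i : Fin n) : D X (∑ k, a k • (MvPolynomial.X (i, k) : MvPolynomial (Ix n) K)) =
      ∑ l, (∑ k, X l k * a k) • MvPolynomial.X (i, l) := by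
  rw [map_sum, ← B1_lin]
  refine Finset.sum_congr rfl fun k _ => ?_
  rw [Derivation.map_smul, B1_D_X]

lemma B1_rt_lin {n : ℕ} (h : Mat n) (a : Fin n → ℝ) (i : Fin n) :
    rt h (∑ k, a k • (MvPolynomial.X (i, k) : MvPolynomial (Ix n) ℝ)) =
      ∑ l, (∑ k, h l k * a k) • MvPolynomial.X (i, l) := by
  rw [map_sum, ← B1_lin]
  refine Finset.sum_congr rfl fun k _ => ?_
  rw [map_smul, B1_rt_X]

theorem D_add {n : ℕ} {K : Type} [CommRing K] (X Y : Matrix (Fin n) (Fin n) K)
    (f : MvPolynomial (Ix n) K) : D (X + Y) f = D X f + D Y f := by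
  have h : D (X + Y) = D X + D Y := by
    apply MvPolynomial.derivation_ext
    intro p
    rw [Derivation.add_apply, B1_D_X, B1_D_X, B1_D_X, ← Finset.sum_add_distrib]
    refine Finset.sum_congr rfl fun k _ => ?_
    rw [Matrix.add_apply, add_smul]
  rw [h, Derivation.add_apply]

theorem D_smul {n : ℕ} {K : Type} [CommRing K] (c : K) (X : Matrix (Fin n) (Fin n) K)
    (f : MvPolynomial (Ix n) K) : D (c • X) f = c • D X f := by
  have h : D (c • X) = c • D X := by
    apply MvPolynomial.derivation_ext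
    intro p
    rw [Derivation.smul_apply, B1_D_X, B1_D_X, Finset.smul_sum]
    refine Finset.sum_congr rfl fun k _ => ?_
    rw [Matrix.smul_apply, smul_eq_mul, smul_smul]
  rw [h, Derivation.smul_apply]

theorem D_lie {n : ℕ} {K : Type} [CommRing K] (X Y : Matrix (Fin n) (Fin n) K)
    (f : MvPolynomial (Ix n) K) : D X (D Y f) - D Y (D X f) = D (X * Y - Y * X) f := by
  have h : ⁅D X, D Y⁆ = D (X * Y - Y * X) := by
    apply MvPolynomial.derivation_ext
    intro p
    rw [Derivation.commutator_apply, B1_D_X, B1_D_X, B1_D_X, B1_D_lin, B1_D_lin,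
      ← Finset.sum_sub_distrib]
    refine Finset.sum_congr rfl fun l _ => ?_
    rw [← sub_smul, Matrix.sub_apply, Matrix.mul_apply, Matrix.mul_apply]
  rw [← h, Derivation.commutator_apply]

theorem ev_rt {n : ℕ} (h : Mat n) (f : MvPolynomial (Ix n) ℝ) (y : Mat n) :
    ev (rt h f) y = ev f (y * h) := by
  induction f using MvPolynomial.induction_on with
  | C a =>
    unfold ev rt
    rw [MvPolynomial.aeval_C, MvPolynomial.algebraMap_eq, MvPolynomial.eval_C, MvPolynomial.eval_C]
  | add p q hp hq => rw [map_add, ev_add, ev_add, hp, hq]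
  | mul_X p i hp =>
    rw [map_mul, ev_mul, ev_mul, hp, B1_rt_X]
    congr 1
    unfold ev
    rw [map_sum, MvPolynomial.eval_X, Matrix.mul_apply]
    refine Finset.sum_congr rfl fun k _ => ?_
    rw [MvPolynomial.smul_eval, MvPolynomial.eval_X, mul_comm]

theorem D_rt {n : ℕ} (h X Z : Mat n) (hX : X * h = h * Z) (f : MvPolynomial (Ix n) ℝ) :
    D X (rt h f) = rt h (D Z f) := by
  induction f using MvPolynomial.induction_on with
  | C a =>
    have h1 : rt h (MvPolynomial.C a) = MvPolynomial.C a := by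
      unfold rt
      rw [MvPolynomial.aeval_C, MvPolynomial.algebraMap_eq]
    have h2 : ∀ W : Mat n, D W (MvPolynomial.C a) = 0 := fun W => by
      exact MvPolynomial.derivation_C _ _
    rw [h1, h2, h2, map_zero]
  | add p q hp hq => rw [map_add, map_add, map_add, map_add, hp, hq]
  | mul_X p i hp =>
    have h1 : D X (rt h (MvPolynomial.X i)) = rt h (D Z (MvPolynomial.X i)) := by
      rw [B1_rt_X, B1_D_X, B1_D_lin, B1_rt_lin]
      refine Finset.sum_congr rfl fun l _ => ?_
      congr 1
      have h2 := congrFun (congrFun hX l) i.2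
      rw [Matrix.mul_apply, Matrix.mul_apply] at h2
      exact h2
    rw [map_mul, Derivation.leibniz, Derivation.leibniz, hp, h1, map_add, smul_eq_mul, smul_eq_mul,
      smul_eq_mul, smul_eq_mul, map_mul, map_mul]

lemma B1_lin_degree {n : ℕ} {a : Fin n → ℝ} {i : Fin n} :
    (∑ k, a k • (MvPolynomial.X (i, k) : MvPolynomial (Ix n) ℝ)).totalDegree ≤ 1 := by
  refine MvPolynomial.totalDegree_finsetSum_le fun k _ => ?_
  refine (MvPolynomial.totalDegree_smul_le _ _).trans ?_
  rw [MvPolynomial.totalDegree_X]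

theorem D_degree {n : ℕ} (X : Mat n) (f : MvPolynomial (Ix n) ℝ) :
    (D X f).totalDegree ≤ f.totalDegree := by
  have h0 : D X f = ∑ m ∈ f.support, D X (MvPolynomial.monomial m (MvPolynomial.coeff m f)) := by
    conv_lhs => rw [f.as_sum]
    rw [map_sum]
  rw [h0]
  refine MvPolynomial.totalDegree_finsetSum_le fun m hm => ?_
  refine le_trans ?_ (MvPolynomial.le_totalDegree hm)
  unfold D
  rw [MvPolynomial.mkDerivation_monomial]
  refine (MvPolynomial.totalDegree_smul_le _ _).trans ?_
  refine MvPolynomial.totalDegree_finsetSum_le fun i hi => ?_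
  change (MvPolynomial.monomial (m - Finsupp.single i 1) ((m i : ℕ) : ℝ) *
    ∑ k, X k i.2 • (MvPolynomial.X (i.1, k) : MvPolynomial (Ix n) ℝ)).totalDegree ≤ _
  refine (MvPolynomial.totalDegree_mul _ _).trans ?_
  have h1 := MvPolynomial.totalDegree_monomial_le (R := ℝ) (m - Finsupp.single i 1) ((m i : ℕ) : ℝ)
  have h2 : (m - Finsupp.single i 1) + Finsupp.single i 1 = m :=
    Finsupp.sub_add_single_one_cancel (Finsupp.mem_support_iff.1 hi)
  have h3 : (m.sum fun _ e => e) = ((m - Finsupp.single i 1).sum fun _ e => e) + 1 := by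
    conv_lhs => rw [← h2]
    rw [Finsupp.sum_add_index' (fun _ => rfl) (fun _ _ _ => rfl), Finsupp.sum_single_index rfl]
  rw [h3]
  exact add_le_add h1 B1_lin_degree

theorem rt_degree {n : ℕ} (h : Mat n) (f : MvPolynomial (Ix n) ℝ) :
    (rt h f).totalDegree ≤ f.totalDegree := by
  have h0 : rt h f = ∑ m ∈ f.support, rt h (MvPolynomial.monomial m (MvPolynomial.coeff m f)) := by
    conv_lhs => rw [f.as_sum]
    rw [map_sum]
  rw [h0]
  refine MvPolynomial.totalDegree_finsetSum_le fun m hm => ?_
  refine le_trans ?_ (MvPolynomial.le_totalDegree hm)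
  unfold rt
  rw [MvPolynomial.aeval_monomial, MvPolynomial.algebraMap_eq]
  refine (MvPolynomial.totalDegree_mul _ _).trans ?_
  rw [MvPolynomial.totalDegree_C, zero_add]
  refine (MvPolynomial.totalDegree_finsetProd _ _).trans ?_
  refine Finset.sum_le_sum fun i _ => ?_
  refine (MvPolynomial.totalDegree_pow _ _).trans ?_
  calc m i * _ ≤ m i * 1 := Nat.mul_le_mul_left _ B1_lin_degree
    _ = m i := mul_one _

end Pool.Agent.Lib.MP_fee02f_an.RL
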