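import Mathlib
import Pool.Agent.Lib.MP_fee02f_an.RL.Defs
import Pool.Agent.Lib.MP_fee02f_an.RL.B1

/-!
B2 (about 30 min). The derivation is the derivative along the flow.
PROOF. Induction on f (MvPolynomial.induction_on: constants, sums, products with a variable) with ev_add, ev_mul; for a
variable (i,j): the (i,j) entry of y * exp(t X) has derivative the (i,j) entry of y * exp(t X) * X
(hasDerivAt_exp_smul_const with a local norm instance on matrices; exp(tX) commutes with X), which is
ev (D X (X_(i,j))) (y exp(tX)) = sum_k X k j (y exp(tX))_(i,k).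
-/

set_option autoImplicit false

namespace Pool.Agent.Lib.MP_fee02f_an.RL

open Matrix

theorem B2_entry {n : ℕ} (X y : Mat n) (t : ℝ) (i j : Fin n) :
    HasDerivAt (fun s : ℝ => (y * NormedSpace.exp (s • X)) i j)
      ((y * NormedSpace.exp (t • X) * X) i j) t := by
  let _ : NormedRing (Mat n) := Matrix.linftyOpNormedRing
  let _ : NormedAlgebra ℝ (Mat n) := Matrix.linftyOpNormedAlgebra
  have h := hasDerivAt_exp_smul_const (𝕂 := ℝ) X t
  let L : Mat n →ₗ[ℝ] ℝ :=
    { toFun := fun A => (y * A) i j
      map_add' := fun A B => by rw [mul_add, Matrix.add_apply]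
      map_smul' := fun c A => by rw [Matrix.mul_smul, Matrix.smul_apply, RingHom.id_apply] }
  have h1 := (LinearMap.toContinuousLinearMap L).hasFDerivAt.comp_hasDerivAt t h
  have h2 : (LinearMap.toContinuousLinearMap L) (NormedSpace.exp (t • X) * X) =
      (y * NormedSpace.exp (t • X) * X) i j := by
    show (y * (NormedSpace.exp (t • X) * X)) i j = _
    rw [mul_assoc]
  exact h1.congr_deriv h2

theorem B2_var {n : ℕ} (X A : Mat n) (p : Ix n) :
    ev (D X (MvPolynomial.X p)) A = (A * X) p.1 p.2 := by
  unfold D ev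
  rw [MvPolynomial.mkDerivation_X, map_sum, Matrix.mul_apply]
  refine Finset.sum_congr rfl fun k _ => ?_
  rw [MvPolynomial.smul_eval, MvPolynomial.eval_X]
  ring

theorem hasDerivAt_flow {n : ℕ} (f : MvPolynomial (Ix n) ℝ) (X y : Mat n) (t : ℝ) :
    HasDerivAt (fun s : ℝ => ev f (y * NormedSpace.exp (s • X)))
      (ev (D X f) (y * NormedSpace.exp (t • X))) t := by
  induction f using MvPolynomial.induction_on with
  | C a =>
    have h1 : D X (MvPolynomial.C a) = 0 := by
      exact MvPolynomial.derivation_C _ a
    rw [h1]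
    have h2 : ev (0 : MvPolynomial (Ix n) ℝ) (y * NormedSpace.exp (t • X)) = 0 := by
      unfold ev
      exact map_zero _
    rw [h2]
    have h3 : (fun s : ℝ => ev (MvPolynomial.C a) (y * NormedSpace.exp (s • X))) = fun _ => a := by
      funext s
      unfold ev
      exact MvPolynomial.eval_C a
    rw [h3]
    exact hasDerivAt_const t a
  | add f g hf hg =>
    have h1 : (fun s : ℝ => ev (f + g) (y * NormedSpace.exp (s • X))) =
        fun s => ev f (y * NormedSpace.exp (s • X)) + ev g (y * NormedSpace.exp (s • X)) := by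
      funext s
      exact ev_add _ _ _
    rw [h1, map_add, ev_add]
    exact hf.add hg
  | mul_X f p hf =>
    have h1 : (fun s : ℝ => ev (f * MvPolynomial.X p) (y * NormedSpace.exp (s • X))) =
        fun s => ev f (y * NormedSpace.exp (s • X)) * (y * NormedSpace.exp (s • X)) p.1 p.2 := by
      funext s
      rw [ev_mul]
      unfold ev
      rw [MvPolynomial.eval_X]
    rw [h1, Derivation.leibniz, smul_eq_mul, smul_eq_mul, ev_add, ev_mul, ev_mul, B2_var]
    have h2 := hf.mul (B2_entry X y t p.1 p.2)
    have h3 : ev (MvPolynomial.X p : MvPolynomial (Ix n) ℝ) (y * NormedSpace.exp (t • X)) =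
        (y * NormedSpace.exp (t • X)) p.1 p.2 := by
      unfold ev
      exact MvPolynomial.eval_X _
    rw [h3]
    have h4 : ev f (y * NormedSpace.exp (t • X)) * (y * NormedSpace.exp (t • X) * X) p.1 p.2 +
        (y * NormedSpace.exp (t • X)) p.1 p.2 * ev (D X f) (y * NormedSpace.exp (t • X)) =
        ev (D X f) (y * NormedSpace.exp (t • X)) * (y * NormedSpace.exp (t • X)) p.1 p.2 +
        ev f (y * NormedSpace.exp (t • X)) * (y * NormedSpace.exp (t • X) * X) p.1 p.2 := by ring
    rw [h4]
    exact h2

end Pool.Agent.Lib.MP_fee02f_an.RL
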