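import Mathlib
import Pool.Agent.Lib.MP_fee02f_an.RL.Defs
import Pool.Agent.Lib.MP_fee02f_an.RL.B1

/-!
B3 (about 30 min). The derivations on the polynomials of degree <= m as matrices.
PROOF. W = MvPolynomial.restrictTotalDegree (Ix n) ℝ m is finite dimensional (instance Module.Finite in
Mathlib.RingTheory.MvPolynomial.Basic) and mapped into itself by D X (D_degree). Take a basis `bs` of W
(Module.finBasis ℝ W, index Fin N), b i = (bs i : MvPolynomial), c = coordinates, A X i j = coordinate j of D X (b i)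
(as an element of W). A is linear in X by D_add, D_smul.
-/

set_option autoImplicit false

namespace Pool.Agent.Lib.MP_fee02f_an.RL

open Matrix

theorem exists_matrix (n m : ℕ) :
    ∃ (N : ℕ) (b : Fin N → MvPolynomial (Ix n) ℝ) (A : Mat n →ₗ[ℝ] Matrix (Fin N) (Fin N) ℝ),
      (∀ f : MvPolynomial (Ix n) ℝ, f.totalDegree ≤ m → ∃ c : Fin N → ℝ, f = ∑ i, c i • b i) ∧
      ∀ (X : Mat n) (i : Fin N), D X (b i) = ∑ j, A X i j • b j := by
  classical
  have hmem : ∀ f : MvPolynomial (Ix n) ℝ,
      f ∈ MvPolynomial.restrictTotalDegree (Ix n) ℝ m ↔ f.totalDegree ≤ m :=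
    fun f => MvPolynomial.mem_restrictTotalDegree (Ix n) m f
  have hfin : Module.Finite ℝ (MvPolynomial.restrictTotalDegree (Ix n) ℝ m) := inferInstance
  have hfree : Module.Free ℝ (MvPolynomial.restrictTotalDegree (Ix n) ℝ m) := inferInstance
  let bs := Module.finBasis ℝ (MvPolynomial.restrictTotalDegree (Ix n) ℝ m)
  have hD : ∀ (X : Mat n) (w : MvPolynomial.restrictTotalDegree (Ix n) ℝ m),
      D X (w : MvPolynomial (Ix n) ℝ) ∈ MvPolynomial.restrictTotalDegree (Ix n) ℝ m := by
    intro X w
    rw [hmem]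
    exact (D_degree X _).trans ((hmem _).1 w.2)
  let A : Mat n →ₗ[ℝ] Matrix (Fin (Module.finrank ℝ (MvPolynomial.restrictTotalDegree (Ix n) ℝ m)))
      (Fin (Module.finrank ℝ (MvPolynomial.restrictTotalDegree (Ix n) ℝ m))) ℝ :=
    { toFun := fun X i j => bs.repr ⟨D X (bs i), hD X (bs i)⟩ j
      map_add' := by
        intro X Y
        ext i j
        have h : (⟨D (X + Y) (bs i), hD (X + Y) (bs i)⟩ :
            MvPolynomial.restrictTotalDegree (Ix n) ℝ m) =
            ⟨D X (bs i), hD X (bs i)⟩ + ⟨D Y (bs i), hD Y (bs i)⟩ :=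
          Subtype.ext (D_add X Y _)
        simp only [h, map_add, Finsupp.add_apply, Matrix.add_apply]
      map_smul' := by
        intro c X
        ext i j
        have h : (⟨D (c • X) (bs i), hD (c • X) (bs i)⟩ :
            MvPolynomial.restrictTotalDegree (Ix n) ℝ m) =
            c • ⟨D X (bs i), hD X (bs i)⟩ :=
          Subtype.ext (D_smul c X _)
        simp only [h, map_smul, Finsupp.smul_apply, Matrix.smul_apply, RingHom.id_apply] }
  refine ⟨_, fun i => (bs i : MvPolynomial (Ix n) ℝ), A, ?_, ?_⟩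
  · intro f hf
    refine ⟨fun i => bs.repr ⟨f, (hmem f).2 hf⟩ i, ?_⟩
    have h1 := bs.sum_repr ⟨f, (hmem f).2 hf⟩
    have h2 := congrArg (Submodule.subtype (MvPolynomial.restrictTotalDegree (Ix n) ℝ m)) h1
    rw [map_sum] at h2
    simp only [map_smul, Submodule.subtype_apply] at h2
    exact h2.symm
  · intro X i
    have h1 := bs.sum_repr ⟨D X (bs i), hD X (bs i)⟩
    have h2 := congrArg (Submodule.subtype (MvPolynomial.restrictTotalDegree (Ix n) ℝ m)) h1
    rw [map_sum] at h2
    simp only [map_smul, Submodule.subtype_apply] at h2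
    exact h2.symm

end Pool.Agent.Lib.MP_fee02f_an.RL
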