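import Mathlib
import Pool.Agent.Lib.MP_fee02f_an.RL.Defs
import Pool.Agent.Lib.MP_fee02f_an.RL.B1
import Pool.Agent.Lib.MP_fee02f_an.RL.B2

/-!
B4 (about 35 min). The values along the flow.
PROOF. F(t) = the vector of the values ev (b i) (y exp(tX)) satisfies F' = (A X) F by B2 and the relation (ev linear), so
exp(-t A) F(t) has derivative 0 and F(t) = exp(t A) F(0). (is_const_of_deriv_eq_zero; or ODE uniqueness.)
`ev_pow`: with B = A X, induction on k: (D X)^k (b i) = sum_j (B^k) i j • b j; evaluate.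
-/

set_option autoImplicit false

namespace Pool.Agent.Lib.MP_fee02f_an.RL

open Matrix

theorem B4_exp_cancel {N : ℕ} (B : Matrix (Fin N) (Fin N) ℝ) (t : ℝ) :
    NormedSpace.exp (t • B) * NormedSpace.exp (t • (-B)) = 1 := by
  have hc : Commute (t • B) (t • (-B)) := by
    show t • B * (t • (-B)) = t • (-B) * (t • B)
    simp only [smul_neg, mul_neg, neg_mul]
  rw [← Matrix.exp_add_of_commute _ _ hc, smul_neg, add_neg_cancel]
  exact NormedSpace.exp_zero

theorem B4_ev_sum {n N : ℕ} (b : Fin N → MvPolynomial (Ix n) ℝ) (c : Fin N → ℝ) (A : Mat n) :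
    ev (∑ j, c j • b j) A = ∑ j, c j * ev (b j) A := by
  unfold ev
  rw [map_sum]
  refine Finset.sum_congr rfl fun j _ => ?_
  rw [MvPolynomial.smul_eval]

theorem flow_eq {n N : ℕ} (b : Fin N → MvPolynomial (Ix n) ℝ) (X : Mat n) (B : Matrix (Fin N) (Fin N) ℝ)
    (h : ∀ i, D X (b i) = ∑ j, B i j • b j) (y : Mat n) (t : ℝ) :
    (fun i => ev (b i) (y * NormedSpace.exp (t • X))) =
      NormedSpace.exp (t • B) *ᵥ (fun i => ev (b i) y) := by
  have hF : ∀ (s : ℝ) (j : Fin N), HasDerivAt (fun s : ℝ => ev (b j) (y * NormedSpace.exp (s • X)))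
      (∑ l, B j l * ev (b l) (y * NormedSpace.exp (s • X))) s := by
    intro s j
    have h1 := hasDerivAt_flow (b j) X y s
    rw [h j, B4_ev_sum] at h1
    exact h1
  have hE : ∀ (s : ℝ) (i j : Fin N), HasDerivAt (fun s : ℝ => (NormedSpace.exp (s • (-B))) i j)
      (-∑ l, (NormedSpace.exp (s • (-B))) i l * B l j) s := by
    intro s i j
    have h1 := B2_entry (-B) 1 s i j
    simp only [one_mul] at h1
    have h2 : (NormedSpace.exp (s • (-B)) * (-B)) i j =
        -∑ l, (NormedSpace.exp (s • (-B))) i l * B l j := by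
      rw [Matrix.mul_neg, Matrix.neg_apply, Matrix.mul_apply]
    rw [h2] at h1
    exact h1
  have hG : ∀ (i : Fin N) (s : ℝ), HasDerivAt (fun s : ℝ => ∑ j, (NormedSpace.exp (s • (-B))) i j *
      ev (b j) (y * NormedSpace.exp (s • X))) 0 s := by
    intro i s
    have h1 : HasDerivAt (fun s : ℝ => ∑ j, (NormedSpace.exp (s • (-B))) i j *
        ev (b j) (y * NormedSpace.exp (s • X)))
        (∑ j, ((-∑ l, (NormedSpace.exp (s • (-B))) i l * B l j) *
          ev (b j) (y * NormedSpace.exp (s • X)) + (NormedSpace.exp (s • (-B))) i j *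
          ∑ l, B j l * ev (b l) (y * NormedSpace.exp (s • X)))) s :=
      HasDerivAt.fun_sum fun j _ => (hE s i j).mul (hF s j)
    convert h1 using 1
    rw [Finset.sum_add_distrib]
    have h2 : ∑ j, (-∑ l, (NormedSpace.exp (s • (-B))) i l * B l j) *
        ev (b j) (y * NormedSpace.exp (s • X)) =
        -∑ l, ∑ j, (NormedSpace.exp (s • (-B))) i l * B l j *
          ev (b j) (y * NormedSpace.exp (s • X)) := by
      rw [Finset.sum_comm, ← Finset.sum_neg_distrib]
      refine Finset.sum_congr rfl fun j _ => ?_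
      rw [neg_mul, Finset.sum_mul]
    rw [h2, eq_comm, neg_add_eq_zero]
    refine Finset.sum_congr rfl fun l _ => ?_
    rw [Finset.mul_sum]
    refine Finset.sum_congr rfl fun j _ => ?_
    ring
  have hconst : ∀ (i : Fin N), (∑ j, (NormedSpace.exp (t • (-B))) i j *
      ev (b j) (y * NormedSpace.exp (t • X))) = ev (b i) y := by
    intro i
    have h1 := is_const_of_deriv_eq_zero (fun s => (hG i s).differentiableAt)
      (fun s => (hG i s).deriv) t 0
    have e1 : (NormedSpace.exp ((0 : ℝ) • (-B)) : Matrix (Fin N) (Fin N) ℝ) = 1 := by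
      rw [zero_smul]
      exact NormedSpace.exp_zero
    have e2 : (NormedSpace.exp ((0 : ℝ) • X) : Mat n) = 1 := by
      rw [zero_smul]
      exact NormedSpace.exp_zero
    refine h1.trans ?_
    show ∑ j, (NormedSpace.exp ((0 : ℝ) • (-B)) : Matrix (Fin N) (Fin N) ℝ) i j *
      ev (b j) (y * NormedSpace.exp ((0 : ℝ) • X)) = ev (b i) y
    rw [e1, e2, mul_one]
    rw [Finset.sum_eq_single i]
    · rw [Matrix.one_apply_eq, one_mul]
    · intro j _ hj
      rw [Matrix.one_apply_ne (Ne.symm hj), zero_mul]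
    · intro hi
      exact absurd (Finset.mem_univ i) hi
  have hvec : NormedSpace.exp (t • (-B)) *ᵥ (fun i => ev (b i) (y * NormedSpace.exp (t • X))) =
      fun i => ev (b i) y := by
    funext i
    exact hconst i
  rw [← hvec, Matrix.mulVec_mulVec, B4_exp_cancel, Matrix.one_mulVec]

theorem ev_pow {n N : ℕ} (b : Fin N → MvPolynomial (Ix n) ℝ) (X : Mat n) (B : Matrix (Fin N) (Fin N) ℝ)
    (h : ∀ i, D X (b i) = ∑ j, B i j • b j) (k : ℕ) (i : Fin N) :
    ((D X : MvPolynomial (Ix n) ℝ → MvPolynomial (Ix n) ℝ)^[k]) (b i) = ∑ j, (B ^ k) i j • b j := by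
  induction k with
  | zero =>
    rw [Function.iterate_zero, id_eq, pow_zero, Finset.sum_eq_single i]
    · rw [Matrix.one_apply_eq, one_smul]
    · intro j _ hj
      rw [Matrix.one_apply_ne (Ne.symm hj), zero_smul]
    · intro hi
      exact absurd (Finset.mem_univ i) hi
  | succ k ih =>
    rw [Function.iterate_succ_apply', ih, map_sum]
    have h1 : ∀ j, D X ((B ^ k) i j • b j) = ∑ l, ((B ^ k) i j * B j l) • b l := by
      intro j
      rw [Derivation.map_smul, h j, Finset.smul_sum]
      refine Finset.sum_congr rfl fun l _ => ?_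
      rw [smul_smul]
    rw [Finset.sum_congr rfl fun j _ => h1 j, Finset.sum_comm]
    refine Finset.sum_congr rfl fun l _ => ?_
    rw [← Finset.sum_smul, pow_succ, Matrix.mul_apply]

end Pool.Agent.Lib.MP_fee02f_an.RL
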