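import Mathlib
import Pool.Agent.Lib.MP_fee02f_an.RL.Defs
import Pool.Agent.Lib.MP_fee02f_an.RL.B1
import Pool.Agent.Lib.MP_fee02f_an.RL.B2
import Pool.Agent.Lib.MP_fee02f_an.RL.B3
import Pool.Agent.Lib.MP_fee02f_an.RL.B4

/-!
B5 (about 40 min). exp of the Lie algebra lies in the group.
PROOF. Let f be in I G, m = totalDegree f, (b, A) from B3, f = sum c_i b_i. By linearity of the iterates and ev_pow,
sum_i c_i ((B^k) v)_i = ev ((D X)^[k] f) 1 = 0 for all k, where B = A X, v_j = ev (b j) 1 (iterates of f stay in I G by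
InLie and 1 is in G). exp B = sum B^k/k! (NormedSpace.exp_eq_tsum or a HasSum with a local norm), apply the continuous
linear functional Z ↦ sum_i c_i (Z v)_i: sum_i c_i (exp B v)_i = 0, i.e. ev f (exp X) = 0 (flow_eq with t = 1, y = 1).
So every f in I G vanishes at exp X; the set S of ZClosed is contained in I G, so g in G.
-/

set_option autoImplicit false

namespace Pool.Agent.Lib.MP_fee02f_an.RL

open Matrix

theorem B5_ev_sum {n : ℕ} {ι : Type} (s : Finset ι) (f : ι → MvPolynomial (Ix n) ℝ) (y : Mat n) :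
    ev (∑ i ∈ s, f i) y = ∑ i ∈ s, ev (f i) y := by
  unfold ev
  rw [map_sum]

theorem B5_exp_zero {N : ℕ} (B : Matrix (Fin N) (Fin N) ℝ) (c v : Fin N → ℝ)
    (h : ∀ k : ℕ, ∑ i, c i * ((B ^ k) *ᵥ v) i = 0) :
    ∑ i, c i * ((NormedSpace.exp B) *ᵥ v) i = 0 := by
  letI : NormedRing (Matrix (Fin N) (Fin N) ℝ) := Matrix.linftyOpNormedRing
  letI : NormedAlgebra ℝ (Matrix (Fin N) (Fin N) ℝ) := Matrix.linftyOpNormedAlgebra
  haveI : CompleteSpace (Matrix (Fin N) (Fin N) ℝ) := FiniteDimensional.complete ℝ _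
  let φ : Matrix (Fin N) (Fin N) ℝ →ₗ[ℝ] ℝ :=
    { toFun := fun Z => ∑ i, c i * (Z *ᵥ v) i
      map_add' := by
        intro Z W
        rw [← Finset.sum_add_distrib]
        refine Finset.sum_congr rfl fun i _ => ?_
        rw [Matrix.add_mulVec, Pi.add_apply, mul_add]
      map_smul' := by
        intro r Z
        rw [RingHom.id_apply, smul_eq_mul, Finset.mul_sum]
        refine Finset.sum_congr rfl fun i _ => ?_
        rw [Matrix.smul_mulVec, Pi.smul_apply, smul_eq_mul]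
        ring }
  have hφc : Continuous φ := LinearMap.continuous_of_finiteDimensional φ
  have hs := NormedSpace.exp_series_hasSum_exp' (𝕂 := ℝ) B
  have h2 := hs.map (φ : Matrix (Fin N) (Fin N) ℝ →+ ℝ) hφc
  have h3 : ((φ : Matrix (Fin N) (Fin N) ℝ →+ ℝ) : Matrix (Fin N) (Fin N) ℝ → ℝ) ∘
      (fun k : ℕ => ((k.factorial : ℝ)⁻¹) • B ^ k) = fun _ => 0 := by
    funext k
    change φ (((k.factorial : ℝ)⁻¹) • B ^ k) = 0
    rw [map_smul]
    have : φ (B ^ k) = 0 := h k
    rw [this, smul_zero]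
  rw [h3] at h2
  exact h2.unique hasSum_zero

theorem exp_mem {n : ℕ} (G : Subgroup (GL (Fin n) ℝ)) (hG : ZClosed G) (X : Mat n) (hX : InLie G X)
    (g : GL (Fin n) ℝ) (hg : (g : Mat n) = NormedSpace.exp X) : g ∈ G := by
  obtain ⟨S, hS⟩ := hG
  rw [hS]
  intro f hf
  have hfI : f ∈ I G := by
    intro g' hg'
    exact (hS g').1 hg' f hf
  obtain ⟨N, b, A, h1, h2⟩ := exists_matrix n f.totalDegree
  obtain ⟨c, hc⟩ := h1 f le_rfl
  have hb : ∀ i, D X (b i) = ∑ j, A X i j • b j := h2 X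
  have hk : ∀ k : ℕ, ∑ i, c i * (((A X) ^ k) *ᵥ (fun i => ev (b i) (1 : Mat n))) i = 0 := by
    intro k
    have h3 : ((D X : MvPolynomial (Ix n) ℝ → MvPolynomial (Ix n) ℝ)^[k]) f ∈ I G := by
      induction k with
      | zero => simpa using hfI
      | succ k ih =>
        rw [Function.iterate_succ_apply']
        exact hX _ ih
    have h4 := h3 1 G.one_mem
    have h5 : ((D X : MvPolynomial (Ix n) ℝ → MvPolynomial (Ix n) ℝ)^[k]) f =
        ∑ i, c i • ∑ j, ((A X) ^ k) i j • b j := by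
      have e1 : ∀ p : MvPolynomial (Ix n) ℝ,
          ((D X : MvPolynomial (Ix n) ℝ → MvPolynomial (Ix n) ℝ)^[k]) p =
          (((D X : MvPolynomial (Ix n) ℝ →ₗ[ℝ] MvPolynomial (Ix n) ℝ)) ^ k) p := by
        intro p
        rw [Module.End.pow_apply]
        rfl
      rw [e1, hc, map_sum]
      refine Finset.sum_congr rfl fun i _ => ?_
      rw [map_smul, ← e1, ev_pow b X (A X) hb k i]
    rw [h5, Units.val_one, B5_ev_sum] at h4
    rw [← h4]
    refine Finset.sum_congr rfl fun i _ => ?_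
    rw [ev_smul, B5_ev_sum]
    congr 1
    rw [Matrix.mulVec, dotProduct]
    refine Finset.sum_congr rfl fun j _ => ?_
    rw [ev_smul]
  have hz := B5_exp_zero (A X) c _ hk
  have hfl := flow_eq b X (A X) hb 1 1
  rw [one_smul, one_smul, one_mul] at hfl
  rw [← hfl] at hz
  rw [hg, hc, B5_ev_sum, ← hz]
  refine Finset.sum_congr rfl fun i _ => ?_
  rw [ev_smul]

end Pool.Agent.Lib.MP_fee02f_an.RL
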