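import Mathlib
import Pool.Agent.Lib.MP_fee02f_an.RL.Defs
import Pool.Agent.Lib.MP_fee02f_an.RL.B1

/-!
B6 (about 30 min). The Lie algebra is a Lie subalgebra, invariant under conjugation by G.
PROOF. D_add, D_smul, D_lie and the fact that I G is an ideal (a submodule over ℝ too). Conjugation: x in G,
Z = x X x⁻¹. rt x and rt x⁻¹ map I G into itself (ev_rt, G is a group; coercions of inverses in GL). X * x⁻¹ = x⁻¹ * Z, so
D X (rt x⁻¹ f) = rt x⁻¹ (D Z f) (D_rt), so D Z f = rt x (D X (rt x⁻¹ f)) is in I G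
(rt x (rt x⁻¹ f) = f: check on variables, or only evaluate at the points of G with ev_rt).
-/

set_option autoImplicit false

namespace Pool.Agent.Lib.MP_fee02f_an.RL

open Matrix

/-- the Lie algebra of `G` as a subspace of the matrices -/
noncomputable def lieG {n : ℕ} (G : Subgroup (GL (Fin n) ℝ)) : Submodule ℝ (Mat n) where
  carrier := {X | InLie G X}
  add_mem' := by
    intro X Y hX hY f hf
    rw [D_add]
    exact (I G).add_mem (hX f hf) (hY f hf)
  zero_mem' := by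
    intro f _
    have h := D_smul (0 : ℝ) (0 : Mat n) f
    rw [smul_zero, zero_smul] at h
    rw [h]
    exact (I G).zero_mem
  smul_mem' := by
    intro c X hX f hf
    rw [D_smul]
    intro g hg
    rw [ev_smul, hX f hf g hg, mul_zero]

theorem mem_lieG {n : ℕ} (G : Subgroup (GL (Fin n) ℝ)) (X : Mat n) : X ∈ lieG G ↔ InLie G X :=
  Iff.rfl

theorem bracket_mem {n : ℕ} (G : Subgroup (GL (Fin n) ℝ)) (X Y : Mat n) (hX : InLie G X)
    (hY : InLie G Y) : InLie G (X * Y - Y * X) := by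
  intro f hf
  rw [← D_lie]
  exact (I G).sub_mem (hX _ (hY f hf)) (hY _ (hX f hf))

theorem conj_mem {n : ℕ} (G : Subgroup (GL (Fin n) ℝ)) (x : GL (Fin n) ℝ) (hx : x ∈ G) (X : Mat n)
    (hX : InLie G X) : InLie G ((x : Mat n) * X * ((x⁻¹ : GL (Fin n) ℝ) : Mat n)) := by
  intro f hf g hg
  have hxx : ((x⁻¹ : GL (Fin n) ℝ) : Mat n) * (x : Mat n) = 1 := by
    rw [← Units.val_mul, inv_mul_cancel, Units.val_one]
  have hxx' : (x : Mat n) * ((x⁻¹ : GL (Fin n) ℝ) : Mat n) = 1 := by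
    rw [← Units.val_mul, mul_inv_cancel, Units.val_one]
  have hcomm : X * ((x⁻¹ : GL (Fin n) ℝ) : Mat n)
      = ((x⁻¹ : GL (Fin n) ℝ) : Mat n) * ((x : Mat n) * X * ((x⁻¹ : GL (Fin n) ℝ) : Mat n)) := by
    rw [← Matrix.mul_assoc, ← Matrix.mul_assoc, hxx, Matrix.one_mul]
  have hD := D_rt ((x⁻¹ : GL (Fin n) ℝ) : Mat n) X
    ((x : Mat n) * X * ((x⁻¹ : GL (Fin n) ℝ) : Mat n)) hcomm f
  have hf' : rt ((x⁻¹ : GL (Fin n) ℝ) : Mat n) f ∈ I G := by
    intro y hy
    rw [ev_rt]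
    have := hf (y * x⁻¹) (G.mul_mem hy (G.inv_mem hx))
    rwa [Units.val_mul] at this
  have h0 := hX _ hf' (g * x) (G.mul_mem hg hx)
  have hgx : (g : Mat n) * (x : Mat n) * ((x⁻¹ : GL (Fin n) ℝ) : Mat n) = (g : Mat n) := by
    rw [Matrix.mul_assoc (g : Mat n), hxx', Matrix.mul_one]
  rw [hD, ev_rt, Units.val_mul, hgx] at h0
  exact h0

end Pool.Agent.Lib.MP_fee02f_an.RL
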