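import Mathlib
import Pool.Agent.Lib.MP_fee02f_an.RL.Defs
import Pool.Agent.Lib.MP_fee02f_an.RL.B1

/-!
B7 (about 25 min). Finitely many degrees are enough.
PROOF. MvPolynomial over a field in finitely many variables is Noetherian: I G = Ideal.span s with s a finset
(IsNoetherian.noetherian / Ideal.FG). m = sup of the total degrees of s. If D X f in I G for f in s then for
f = sum a_j f_j: D X f = sum (a_j D X f_j + f_j D X a_j) in I G (Submodule.span_induction / Submodule.smul_induction,
Derivation.leibniz).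
-/

set_option autoImplicit false

namespace Pool.Agent.Lib.MP_fee02f_an.RL

open Matrix

theorem exists_degree {n : ℕ} (G : Subgroup (GL (Fin n) ℝ)) :
    ∃ m : ℕ, ∀ X : Mat n, (∀ f ∈ I G, f.totalDegree ≤ m → D X f ∈ I G) → InLie G X := by
  obtain ⟨s, hs⟩ := (inferInstance : IsNoetherianRing (MvPolynomial (Ix n) ℝ)).noetherian (I G)
  refine ⟨s.sup (fun f => f.totalDegree), fun X h f hf => ?_⟩
  have hs' : I G = Ideal.span (s : Set (MvPolynomial (Ix n) ℝ)) := hs.symm
  have hmem : f ∈ Submodule.span (MvPolynomial (Ix n) ℝ) (s : Set (MvPolynomial (Ix n) ℝ)) := by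
    rw [hs]; exact hf
  have key : ∀ g ∈ Submodule.span (MvPolynomial (Ix n) ℝ) (s : Set (MvPolynomial (Ix n) ℝ)),
      g ∈ I G ∧ D X g ∈ I G := by
    intro g hg
    induction hg using Submodule.span_induction with
    | mem x hx =>
      have hxI : x ∈ I G := by
        rw [← hs]; exact Submodule.subset_span hx
      exact ⟨hxI, h x hxI (Finset.le_sup (f := fun f : MvPolynomial (Ix n) ℝ => f.totalDegree) hx)⟩
    | zero => exact ⟨(I G).zero_mem, by rw [map_zero]; exact (I G).zero_mem⟩
    | add x y _ _ hx hy =>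
      exact ⟨(I G).add_mem hx.1 hy.1, by rw [map_add]; exact (I G).add_mem hx.2 hy.2⟩
    | smul a x _ hx =>
      refine ⟨(I G).smul_mem a hx.1, ?_⟩
      rw [smul_eq_mul, Derivation.leibniz]
      refine (I G).add_mem ?_ ?_
      · exact (I G).smul_mem a hx.2
      · rw [smul_eq_mul, mul_comm]
        exact (I G).mul_mem_left _ hx.1
  exact (key f hmem).2

end Pool.Agent.Lib.MP_fee02f_an.RL
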