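import Mathlib
import Pool.Agent.Lib.MP_fee02f_an.RL.Defs
import Pool.Agent.Lib.MP_fee02f_an.RL.A1
import Pool.Agent.Lib.MP_fee02f_an.RL.A2
import Pool.Agent.Lib.MP_fee02f_an.RL.B1
import Pool.Agent.Lib.MP_fee02f_an.RL.B2
import Pool.Agent.Lib.MP_fee02f_an.RL.B3
import Pool.Agent.Lib.MP_fee02f_an.RL.B4
import Pool.Agent.Lib.MP_fee02f_an.RL.B7

/-!
B8 (about 60 min; reserved for helper46). Logarithms of the elements of G which are conjugate in GL_n(ℝ) to something near 1.
PROOF. m from B7, (N, b, A) from B3. Let x' = h x h⁻¹ be near 1, x' = exp X', X' small (A2), so that A X' is small (A is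
linear), X = h⁻¹ X' h, exp X = x. For f in I G of degree <= m and g in G: f1 = rt h f (value f(y h) at y), degree <= m,
f1 = sum c_i b_i, y = g h⁻¹. For all k: sum_i c_i (exp(A X')^k v)_i = f1(g h⁻¹ exp(k X')) = f(g x^k) = 0 with
v_j = ev (b j) y. By A1 (functional Z ↦ c ⬝ (Z v)): sum_i c_i (A X' v)_i = 0 = ev (D X' f1) y = ev (rt h (D X f)) y
= ev (D X f) g (D_rt with X' h = h X). So D X f in I G, and X in the Lie algebra by B7.
Commutation: e x = x e gives (h e h⁻¹) exp(X')^k = exp(X')^k (h e h⁻¹) for all k, so by A1 (functionals = entries of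
E Z - Z E) h e h⁻¹ commutes with X', i.e. e commutes with X.
-/

set_option autoImplicit false

namespace Pool.Agent.Lib.MP_fee02f_an.RL

open Matrix

/-- a linear map between real matrices maps small matrices to small matrices -/
lemma B8_small_linear {n N : ℕ} (A : Mat n →ₗ[ℝ] Matrix (Fin N) (Fin N) ℝ) (δ : ℝ) (hδ : 0 < δ) :
    ∃ δ' > (0 : ℝ), ∀ X : Mat n, Small δ' X → ∀ i j, |A X i j| < δ := by
  set M : ℝ := ∑ i : Fin N, ∑ j : Fin N, ∑ k : Fin n, ∑ l : Fin n,
    |A (Matrix.single k l 1) i j| with hM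
  have hM0 : 0 ≤ M := by
    rw [hM]; positivity
  refine ⟨δ / (M + 1), by positivity, ?_⟩
  intro X hX i j
  have h1 : A X i j = ∑ k : Fin n, ∑ l : Fin n, X k l * A (Matrix.single k l 1) i j := by
    conv_lhs => rw [Matrix.matrix_eq_sum_single X]
    rw [map_sum, Matrix.sum_apply]
    refine Finset.sum_congr rfl (fun k _ => ?_)
    rw [map_sum, Matrix.sum_apply]
    refine Finset.sum_congr rfl (fun l _ => ?_)
    have : Matrix.single k l (X k l) = X k l • (Matrix.single k l (1 : ℝ) : Mat n) := by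
      rw [Matrix.smul_single, smul_eq_mul, mul_one]
    rw [this, map_smul, Matrix.smul_apply, smul_eq_mul]
  have h2 : |A X i j| ≤ (δ / (M + 1)) * M := by
    rw [h1]
    refine (Finset.abs_sum_le_sum_abs _ _).trans ?_
    have h3 : ∑ k : Fin n, |∑ l : Fin n, X k l * A (Matrix.single k l 1) i j| ≤
        ∑ k : Fin n, ∑ l : Fin n, (δ / (M + 1)) * |A (Matrix.single k l 1) i j| := by
      refine Finset.sum_le_sum (fun k _ => ?_)
      refine (Finset.abs_sum_le_sum_abs _ _).trans (Finset.sum_le_sum (fun l _ => ?_))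
      rw [abs_mul]
      exact mul_le_mul_of_nonneg_right (hX k l).le (abs_nonneg _)
    refine h3.trans ?_
    simp_rw [← Finset.mul_sum]
    refine mul_le_mul_of_nonneg_left ?_ (by positivity)
    rw [hM]
    refine le_trans ?_ (Finset.single_le_sum (f := fun i : Fin N => ∑ j : Fin N, ∑ k : Fin n,
      ∑ l : Fin n, |A (Matrix.single k l 1) i j|) (fun _ _ => by positivity) (Finset.mem_univ i))
    exact Finset.single_le_sum (f := fun j : Fin N => ∑ k : Fin n,
      ∑ l : Fin n, |A (Matrix.single k l 1) i j|) (fun _ _ => by positivity) (Finset.mem_univ j)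
  refine lt_of_le_of_lt h2 ?_
  rw [div_mul_eq_mul_div, div_lt_iff₀ (by positivity)]
  nlinarith

theorem log_mem {n : ℕ} (G : Subgroup (GL (Fin n) ℝ)) (δ : ℝ) (hδ : 0 < δ) :
    ∃ ε > (0 : ℝ), ∀ h : GL (Fin n) ℝ, ∀ x ∈ G, Small ε (((h * x * h⁻¹ : GL (Fin n) ℝ) : Mat n) - 1) →
      ∃ X : Mat n, InLie G X ∧ NormedSpace.exp X = (x : Mat n) ∧
        Small δ ((h : Mat n) * X * ((h⁻¹ : GL (Fin n) ℝ) : Mat n)) ∧
        ∀ e : GL (Fin n) ℝ, e * x * e⁻¹ = x → (e : Mat n) * X * ((e⁻¹ : GL (Fin n) ℝ) : Mat n) = X := by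
  obtain ⟨m, hm⟩ := exists_degree G
  obtain ⟨N, b, A, hb, hA⟩ := exists_matrix n m
  obtain ⟨δ1, hδ1, hL1⟩ := log_functional (Fin N)
  obtain ⟨δ2, hδ2, hL2⟩ := log_functional (Fin n)
  obtain ⟨δ3, hδ3, hL3⟩ := B8_small_linear A δ1 hδ1
  obtain ⟨ε, hε, hlog⟩ := exists_log n (min δ (min δ2 δ3)) (lt_min hδ (lt_min hδ2 hδ3))
  refine ⟨ε, hε, ?_⟩
  intro h x hx hs
  obtain ⟨X', hX's, hX'e⟩ := hlog _ hs
  have hhi : ((h⁻¹ : GL (Fin n) ℝ) : Mat n) * (h : Mat n) = 1 := by
    rw [← Units.val_mul]; simp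
  have hhi' : (h : Mat n) * ((h⁻¹ : GL (Fin n) ℝ) : Mat n) = 1 := by
    rw [← Units.val_mul]; simp
  have s0 : Small δ X' := fun i j => lt_of_lt_of_le (hX's i j) (min_le_left _ _)
  have s2 : Small δ2 X' := fun i j => lt_of_lt_of_le (hX's i j)
    ((min_le_right _ _).trans (min_le_left _ _))
  have s3 : Small δ3 X' := fun i j => lt_of_lt_of_le (hX's i j)
    ((min_le_right _ _).trans (min_le_right _ _))
  set X : Mat n := ((h⁻¹ : GL (Fin n) ℝ) : Mat n) * X' * (h : Mat n) with hX
  have hXX' : (h : Mat n) * X * ((h⁻¹ : GL (Fin n) ℝ) : Mat n) = X' := by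
    calc (h : Mat n) * X * ((h⁻¹ : GL (Fin n) ℝ) : Mat n) =
        ((h : Mat n) * ((h⁻¹ : GL (Fin n) ℝ) : Mat n)) * X' *
          ((h : Mat n) * ((h⁻¹ : GL (Fin n) ℝ) : Mat n)) := by
          rw [hX]; simp only [Matrix.mul_assoc]
      _ = X' := by rw [hhi', Matrix.one_mul, Matrix.mul_one]
  have hcomm1 : X' * (h : Mat n) = (h : Mat n) * X := by
    rw [hX, ← Matrix.mul_assoc, ← Matrix.mul_assoc, hhi', Matrix.one_mul]
  -- powers of the exponential
  have hpow : ∀ k : ℕ, (NormedSpace.exp X') ^ k =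
      (h : Mat n) * ((x ^ k : GL (Fin n) ℝ) : Mat n) * ((h⁻¹ : GL (Fin n) ℝ) : Mat n) := by
    intro k
    rw [hX'e, ← Units.val_pow_eq_pow_val, ← Units.val_mul, ← Units.val_mul]
    congr 1
    rw [← conj_pow]
  have hnsmul : ∀ k : ℕ, NormedSpace.exp ((k : ℝ) • X') = (NormedSpace.exp X') ^ k := by
    intro k
    rw [← Matrix.exp_nsmul, Nat.cast_smul_eq_nsmul]
  refine ⟨X, ?_, ?_, ?_, ?_⟩
  · -- the Lie algebra
    refine hm X ?_
    intro f hf hfm g hg
    obtain ⟨c, hc⟩ := hb (rt (h : Mat n) f) ((rt_degree _ _).trans hfm)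
    set y : Mat n := (g : Mat n) * ((h⁻¹ : GL (Fin n) ℝ) : Mat n) with hy
    set v : Fin N → ℝ := fun i => ev (b i) y with hv
    let φ : Matrix (Fin N) (Fin N) ℝ →ₗ[ℝ] ℝ :=
      { toFun := fun Z => ∑ i, c i * (Z *ᵥ v) i
        map_add' := by
          intro Z W
          rw [← Finset.sum_add_distrib]
          refine Finset.sum_congr rfl (fun i _ => ?_)
          rw [Matrix.add_mulVec, Pi.add_apply, mul_add]
        map_smul' := by
          intro t Z
          rw [RingHom.id_apply, smul_eq_mul, Finset.mul_sum]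
          refine Finset.sum_congr rfl (fun i _ => ?_)
          rw [Matrix.smul_mulVec, Pi.smul_apply, smul_eq_mul]
          ring }
    have hev : ∀ z : Mat n, ev (rt (h : Mat n) f) z = ∑ i, c i * ev (b i) z := by
      intro z
      rw [hc]
      simp [ev, map_sum, MvPolynomial.smul_eval]
    have hφk : ∀ k : ℕ, φ ((NormedSpace.exp (A X')) ^ k) = 0 := by
      intro k
      have e1 : (NormedSpace.exp (A X')) ^ k = NormedSpace.exp ((k : ℝ) • A X') := by
        rw [← Matrix.exp_nsmul, Nat.cast_smul_eq_nsmul]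
      have e2 := flow_eq b X' (A X') (hA X') y (k : ℝ)
      have e3 : φ (NormedSpace.exp ((k : ℝ) • A X')) =
          ev (rt (h : Mat n) f) (y * NormedSpace.exp ((k : ℝ) • X')) := by
        rw [hev]
        change ∑ i, c i * ((NormedSpace.exp ((k : ℝ) • A X')) *ᵥ v) i = _
        refine Finset.sum_congr rfl (fun i _ => ?_)
        rw [hv, ← e2]
      rw [e1, e3, ev_rt, hnsmul, hpow]
      have e4 : y * ((h : Mat n) * ((x ^ k : GL (Fin n) ℝ) : Mat n) *
          ((h⁻¹ : GL (Fin n) ℝ) : Mat n)) * (h : Mat n) = ((g * x ^ k : GL (Fin n) ℝ) : Mat n) := by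
        rw [hy, Units.val_mul]
        calc (g : Mat n) * ((h⁻¹ : GL (Fin n) ℝ) : Mat n) *
              ((h : Mat n) * ((x ^ k : GL (Fin n) ℝ) : Mat n) *
                ((h⁻¹ : GL (Fin n) ℝ) : Mat n)) * (h : Mat n) =
            (g : Mat n) * (((h⁻¹ : GL (Fin n) ℝ) : Mat n) * (h : Mat n)) *
              ((x ^ k : GL (Fin n) ℝ) : Mat n) *
                (((h⁻¹ : GL (Fin n) ℝ) : Mat n) * (h : Mat n)) := by
              simp only [Matrix.mul_assoc]
          _ = _ := by rw [hhi, Matrix.mul_one, Matrix.mul_one]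
      rw [e4]
      exact hf _ (G.mul_mem hg (G.pow_mem hx k))
    have hφ : φ (A X') = 0 := hL1 (A X') (hL3 X' s3) φ hφk
    have hD : D X' (rt (h : Mat n) f) = rt (h : Mat n) (D X f) := D_rt (h : Mat n) X' X hcomm1 f
    have e5 : ev (D X' (rt (h : Mat n) f)) y = φ (A X') := by
      rw [hc, map_sum]
      change ev _ y = ∑ i, c i * ((A X') *ᵥ v) i
      have : ∀ i, D X' (c i • b i) = c i • ∑ j, A X' i j • b j := by
        intro i
        rw [Derivation.map_smul, hA]
      simp_rw [this]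
      simp only [ev, map_sum, MvPolynomial.smul_eval, Matrix.mulVec, dotProduct, hv]
    have e6 : ev (rt (h : Mat n) (D X f)) y = ev (D X f) (g : Mat n) := by
      rw [ev_rt, hy, Matrix.mul_assoc, hhi, Matrix.mul_one]
    rw [← e6, ← hD, e5, hφ]
  · rw [hX]
    have := Matrix.exp_units_conj' h X'
    rw [this, hX'e, ← Units.val_mul, ← Units.val_mul]
    congr 1
    group
  · rw [hXX']; exact s0
  · intro e he
    set E : GL (Fin n) ℝ := h * e * h⁻¹ with hE
    have hEx : E * (h * x * h⁻¹) = (h * x * h⁻¹) * E := by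
      have he' : e * x = x * e := by
        calc e * x = (e * x * e⁻¹) * e := by group
          _ = x * e := by rw [he]
      rw [hE]
      calc h * e * h⁻¹ * (h * x * h⁻¹) = h * (e * x) * h⁻¹ := by group
        _ = h * (x * e) * h⁻¹ := by rw [he']
        _ = _ := by group
    have hcommE : Commute (E : Mat n) (NormedSpace.exp X') := by
      rw [hX'e]
      change (E : Mat n) * _ = _ * (E : Mat n)
      rw [← Units.val_mul, ← Units.val_mul, hEx]
    have hcommX : (E : Mat n) * X' = X' * (E : Mat n) := by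
      ext i j
      let φ : Mat n →ₗ[ℝ] ℝ :=
        { toFun := fun Z => ((E : Mat n) * Z) i j - (Z * (E : Mat n)) i j
          map_add' := by
            intro Z W
            rw [Matrix.mul_add, Matrix.add_mul, Matrix.add_apply, Matrix.add_apply]
            ring
          map_smul' := by
            intro t Z
            rw [RingHom.id_apply, Matrix.mul_smul, Matrix.smul_mul, Matrix.smul_apply,
              Matrix.smul_apply, smul_eq_mul, smul_eq_mul, smul_eq_mul]
            ring }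
      have h0 : φ X' = 0 := by
        refine hL2 X' s2 φ ?_
        intro k
        change ((E : Mat n) * (NormedSpace.exp X') ^ k) i j -
          ((NormedSpace.exp X') ^ k * (E : Mat n)) i j = 0
        rw [(hcommE.pow_right k).eq, sub_self]
      exact sub_eq_zero.mp h0
    have hEe : ((h⁻¹ : GL (Fin n) ℝ) : Mat n) * (E : Mat n) * (h : Mat n) = (e : Mat n) := by
      rw [← Units.val_mul, ← Units.val_mul]
      congr 1
      rw [hE]; group
    have hEe' : (E : Mat n) = (h : Mat n) * (e : Mat n) * ((h⁻¹ : GL (Fin n) ℝ) : Mat n) := by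
      rw [hE, Units.val_mul, Units.val_mul]
    have h3 : (e : Mat n) * X = X * (e : Mat n) := by
      have h4 : ((h⁻¹ : GL (Fin n) ℝ) : Mat n) * ((E : Mat n) * X') * (h : Mat n) =
          ((h⁻¹ : GL (Fin n) ℝ) : Mat n) * (X' * (E : Mat n)) * (h : Mat n) := by rw [hcommX]
      have h5 : ((h⁻¹ : GL (Fin n) ℝ) : Mat n) * ((E : Mat n) * X') * (h : Mat n) =
          (e : Mat n) * X := by
        rw [hEe', hX]
        calc ((h⁻¹ : GL (Fin n) ℝ) : Mat n) * ((h : Mat n) * (e : Mat n) *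
                ((h⁻¹ : GL (Fin n) ℝ) : Mat n) * X') * (h : Mat n) =
            (((h⁻¹ : GL (Fin n) ℝ) : Mat n) * (h : Mat n)) * (e : Mat n) *
                (((h⁻¹ : GL (Fin n) ℝ) : Mat n) * X' * (h : Mat n)) := by
              simp only [Matrix.mul_assoc]
          _ = _ := by rw [hhi, Matrix.one_mul]
      have h6 : ((h⁻¹ : GL (Fin n) ℝ) : Mat n) * (X' * (E : Mat n)) * (h : Mat n) =
          X * (e : Mat n) := by
        rw [hEe', hX]
        calc ((h⁻¹ : GL (Fin n) ℝ) : Mat n) * (X' * ((h : Mat n) * (e : Mat n) *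
                ((h⁻¹ : GL (Fin n) ℝ) : Mat n))) * (h : Mat n) =
            ((h⁻¹ : GL (Fin n) ℝ) : Mat n) * X' * (h : Mat n) * (e : Mat n) *
                (((h⁻¹ : GL (Fin n) ℝ) : Mat n) * (h : Mat n)) := by
              simp only [Matrix.mul_assoc]
          _ = _ := by rw [hhi, Matrix.mul_one]
      rw [← h5, ← h6, h4]
    rw [h3, Matrix.mul_assoc, ← Units.val_mul]
    simp

end Pool.Agent.Lib.MP_fee02f_an.RL
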