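import Mathlib
import Pool.Agent.Lib.MP_fee02f_an.RL.Defs

/-!
C1 (about 25 min). Chinese remainder theorem in ℂ[T].
PROOF. The polynomials (T - μ)^k, μ in s, are pairwise coprime (Polynomial.pairwise_coprime_X_sub_C, IsCoprime.pow);
use Ideal.exists_forall_sub_mem_ideal / Ideal.quotientInfRingEquivPiQuotient or induction on s
(q = q1 * u * (T - μ)^k + ... with Bezout).
`aeval_gen`: if (A - μ)^k v = 0 and (T - μ)^k divides q - C c then q(A) v = c v.
-/

set_option autoImplicit false

namespace Pool.Agent.Lib.MP_fee02f_an.RL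

open Matrix

theorem crt (s : Finset ℂ) (k : ℕ) :
    ∃ q : Polynomial ℂ, ∀ μ ∈ s,
      (Polynomial.X - Polynomial.C μ) ^ k ∣ q - Polynomial.C (starRingEnd ℂ μ) := by
  classical
  have h := Ideal.exists_forall_sub_mem_ideal (R := Polynomial ℂ) (ι := s)
    (I := fun μ : s => Ideal.span {(Polynomial.X - Polynomial.C (μ : ℂ)) ^ k}) (by
      intro a b hab
      rw [Function.onFun, Ideal.isCoprime_span_singleton_iff]
      have hne : (a : ℂ) ≠ b := fun h => hab (Subtype.ext h)
      exact (Polynomial.isCoprime_X_sub_C_of_isUnit_sub (sub_ne_zero.2 hne).isUnit).pow)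
    (fun μ => Polynomial.C (starRingEnd ℂ (μ : ℂ)))
  obtain ⟨q, hq⟩ := h
  exact ⟨q, fun μ hμ => Ideal.mem_span_singleton.1 (hq ⟨μ, hμ⟩)⟩

theorem aeval_gen {V : Type} [AddCommGroup V] [Module ℂ V] (A : Module.End ℂ V) (q : Polynomial ℂ)
    (μ c : ℂ) (k : ℕ) (hq : (Polynomial.X - Polynomial.C μ) ^ k ∣ q - Polynomial.C c) (v : V)
    (hv : ((A - μ • (1 : Module.End ℂ V)) ^ k) v = 0) : Polynomial.aeval A q v = c • v := by
  obtain ⟨r, hr⟩ := hq
  have h1 : q = Polynomial.C c + r * (Polynomial.X - Polynomial.C μ) ^ k := by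
    rw [mul_comm, ← hr]
    ring
  have h2 : Polynomial.aeval A ((Polynomial.X - Polynomial.C μ) ^ k) =
      (A - μ • (1 : Module.End ℂ V)) ^ k := by
    rw [map_pow, map_sub, Polynomial.aeval_X, Polynomial.aeval_C, Algebra.algebraMap_eq_smul_one]
  rw [h1, map_add, Polynomial.aeval_C, map_mul, h2, LinearMap.add_apply, Module.End.mul_apply, hv,
    map_zero, add_zero, Algebra.algebraMap_eq_smul_one, LinearMap.smul_apply, Module.End.one_apply]

end Pool.Agent.Lib.MP_fee02f_an.RL
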