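import Mathlib
import Pool.Agent.Lib.MP_fee02f_an.RL.Defs
import Pool.Agent.Lib.MP_fee02f_an.RL.C1

/-!
C2. Existence of the conjugate replica of a complex matrix.
-/

set_option autoImplicit false

namespace Pool.Agent.Lib.MP_fee02f_an.RL

open Matrix

theorem exists_conj {n : ℕ} (A : Matrix (Fin n) (Fin n) ℂ) :
    ∃ B : Matrix (Fin n) (Fin n) ℂ, ConjRel (Matrix.toLin' A) (Matrix.toLin' B) := by
  classical
  have hfin : Set.Finite {μ : ℂ | Module.End.HasEigenvalue (Matrix.toLin' A) μ} :=
    Module.End.finite_hasEigenvalue _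
  obtain ⟨q, hq⟩ := crt hfin.toFinset (Module.finrank ℂ (Fin n → ℂ))
  refine ⟨LinearMap.toMatrix' (Polynomial.aeval (Matrix.toLin' A) q), ?_⟩
  intro μ v hv
  rw [Matrix.toLin'_toMatrix']
  have hv2 := hv
  rw [Module.End.maxGenEigenspace_eq_genEigenspace_finrank, Module.End.mem_genEigenspace_nat] at hv2
  by_cases hμ : Module.End.HasEigenvalue (Matrix.toLin' A) μ
  · exact aeval_gen _ q μ _ _ (hq μ (by simpa using hμ)) v hv2
  · have hbot : Module.End.maxGenEigenspace (Matrix.toLin' A) μ = ⊥ := by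
      by_contra hne
      apply hμ
      rw [Module.End.maxGenEigenspace_eq_genEigenspace_finrank] at hne
      exact Module.End.hasEigenvalue_of_hasGenEigenvalue (k := Module.finrank ℂ (Fin n → ℂ)) hne
    rw [hbot] at hv
    have hv0 : v = 0 := by simpa using hv
    rw [hv0, map_zero, smul_zero]

end Pool.Agent.Lib.MP_fee02f_an.RL
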