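import Mathlib
import Pool.Agent.Lib.MP_fee02f_an.RL.Defs
import Pool.Agent.Lib.MP_fee02f_an.RL.C1

/-!
C3. Subspaces invariant under `A` are invariant under the conjugate replica `B` of `A`.
-/

set_option autoImplicit false

namespace Pool.Agent.Lib.MP_fee02f_an.RL

open Matrix

theorem conjRel_invariant {V : Type} [AddCommGroup V] [Module ℂ V] (A B : Module.End ℂ V)
    (h : ConjRel A B) (htop : ⨆ μ : ℂ, A.maxGenEigenspace μ = ⊤) (p : Submodule ℂ V)
    (hp : ∀ v ∈ p, A v ∈ p) : ∀ v ∈ p, B v ∈ p := by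
  classical
  intro v hv
  have hv' : v ∈ ⨆ μ : ℂ, A.maxGenEigenspace μ := by rw [htop]; trivial
  rw [Submodule.mem_iSup_iff_exists_finsupp] at hv'
  obtain ⟨f, hf, hsum⟩ := hv'
  have hk : ∀ μ, ∃ k : ℕ, ((A - μ • (1 : Module.End ℂ V)) ^ k) (f μ) = 0 := fun μ => by
    have := hf μ
    rwa [Module.End.mem_maxGenEigenspace] at this
  choose k hk using hk
  have hK : ∀ μ ∈ f.support, ((A - μ • (1 : Module.End ℂ V)) ^ (f.support.sup k)) (f μ) = 0 := by
    intro μ hμ
    have hle : k μ ≤ f.support.sup k := Finset.le_sup hμ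
    obtain ⟨m, hm⟩ := Nat.exists_eq_add_of_le hle
    rw [hm, add_comm, pow_add, Module.End.mul_apply, hk, map_zero]
  obtain ⟨q, hq⟩ := crt f.support (f.support.sup k)
  have hqA : Polynomial.aeval A q v = B v := by
    rw [← hsum, Finsupp.sum, map_sum, map_sum]
    refine Finset.sum_congr rfl fun μ hμ => ?_
    rw [aeval_gen A q μ _ _ (hq μ hμ) (f μ) (hK μ hμ), h μ (f μ) (hf μ)]
  rw [← hqA]
  have hpow : ∀ j : ℕ, ∀ w ∈ p, (A ^ j) w ∈ p := by
    intro j
    induction j with
    | zero => intro w hw; simpa using hw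
    | succ j ih =>
      intro w hw
      rw [pow_succ, Module.End.mul_apply]
      exact ih _ (hp _ hw)
  rw [Polynomial.aeval_eq_sum_range, LinearMap.sum_apply]
  refine Submodule.sum_mem _ fun i _ => ?_
  rw [LinearMap.smul_apply]
  exact Submodule.smul_mem _ _ (hpow _ _ hv)

end Pool.Agent.Lib.MP_fee02f_an.RL
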