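import Mathlib
import Pool.Agent.Lib.MP_fee02f_an.RL.Defs

/-!
C4 (about 30 min). Generalised eigenvectors of a derivation multiply.
PROOF. Leibniz: with d1 = d - μ, d2 = d - ν: (d - (μ+ν)) (f g) = (d1 f) g + f (d2 g). By induction on a + b: if
d1^a f = 0 and d2^b g = 0 then (d - (μ+ν))^(a+b) (f g) = 0 (apply the induction hypothesis to the pairs
(d1 f, g) and (f, d2 g)); a = 0 or b = 0 means f = 0 or g = 0.
-/

set_option autoImplicit false

namespace Pool.Agent.Lib.MP_fee02f_an.RL

open Matrix

theorem C4_leibniz {R : Type} [CommRing R] [Algebra ℂ R] (d : Derivation ℂ R R) (μ ν : ℂ)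
    (f g : R) : (d.toLinearMap - (μ + ν) • (1 : Module.End ℂ R)) (f * g) =
      (d.toLinearMap - μ • (1 : Module.End ℂ R)) f * g +
        f * (d.toLinearMap - ν • (1 : Module.End ℂ R)) g := by
  simp only [LinearMap.sub_apply, LinearMap.smul_apply, Module.End.one_apply]
  have h1 : d.toLinearMap (f * g) = f * d.toLinearMap g + g * d.toLinearMap f := d.leibniz f g
  rw [h1, sub_mul, mul_sub, add_smul, smul_mul_assoc, mul_smul_comm, mul_comm g]
  abel

theorem C4_pow {R : Type} [CommRing R] [Algebra ℂ R] (d : Derivation ℂ R R) (μ ν : ℂ) (N : ℕ) :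
    ∀ (a b : ℕ) (f g : R), a + b = N → ((d.toLinearMap - μ • (1 : Module.End ℂ R)) ^ a) f = 0 →
      ((d.toLinearMap - ν • (1 : Module.End ℂ R)) ^ b) g = 0 →
      ((d.toLinearMap - (μ + ν) • (1 : Module.End ℂ R)) ^ N) (f * g) = 0 := by
  induction N with
  | zero =>
    intro a b f g hab hf hg
    have ha : a = 0 := by omega
    subst ha
    rw [pow_zero, Module.End.one_apply] at hf
    rw [hf, zero_mul, map_zero]
  | succ N ih =>
    intro a b f g hab hf hg
    rcases a with _ | a
    · rw [pow_zero, Module.End.one_apply] at hf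
      rw [hf, zero_mul, map_zero]
    · rcases b with _ | b
      · rw [pow_zero, Module.End.one_apply] at hg
        rw [hg, mul_zero, map_zero]
      · rw [pow_succ, Module.End.mul_apply, C4_leibniz, map_add]
        rw [pow_succ, Module.End.mul_apply] at hf
        have hf' := hf
        rw [ih a (b + 1) _ g (by omega) hf hg, zero_add]
        rw [pow_succ, Module.End.mul_apply] at hg
        refine ih (a + 1) b f _ (by omega) ?_ hg
        rw [pow_succ, Module.End.mul_apply]
        exact hf'

theorem gen_mul {R : Type} [CommRing R] [Algebra ℂ R] (d : Derivation ℂ R R) (μ ν : ℂ) (f g : R)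
    (hf : f ∈ Module.End.maxGenEigenspace d.toLinearMap μ)
    (hg : g ∈ Module.End.maxGenEigenspace d.toLinearMap ν) :
    f * g ∈ Module.End.maxGenEigenspace d.toLinearMap (μ + ν) := by
  rw [Module.End.mem_maxGenEigenspace] at hf hg ⊢
  obtain ⟨a, ha⟩ := hf
  obtain ⟨b, hb⟩ := hg
  exact ⟨a + b, C4_pow d μ ν (a + b) a b f g rfl ha hb⟩

end Pool.Agent.Lib.MP_fee02f_an.RL
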