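import Mathlib
import Pool.Agent.Lib.MP_fee02f_an.RL.Defs
import Pool.Agent.Lib.MP_fee02f_an.RL.B1
import Pool.Agent.Lib.MP_fee02f_an.RL.C4

/-!
C5. The derivations `D A`, `D B` on the polynomial ring are again conjugate replicas.
-/

set_option autoImplicit false

namespace Pool.Agent.Lib.MP_fee02f_an.RL

open Matrix

/-- the linear form `∑ j, v j * X (i, j)` -/
noncomputable def lf {n : ℕ} (i : Fin n) : (Fin n → ℂ) →ₗ[ℂ] MvPolynomial (Ix n) ℂ where
  toFun v := ∑ j, v j • MvPolynomial.X (i, j)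
  map_add' := by
    intro v w
    simp only [Pi.add_apply, add_smul, Finset.sum_add_distrib]
  map_smul' := by
    intro c v
    simp only [Pi.smul_apply, smul_eq_mul, mul_smul, Finset.smul_sum, RingHom.id_apply]

lemma lf_apply {n : ℕ} (i : Fin n) (v : Fin n → ℂ) :
    lf i v = ∑ j, v j • (MvPolynomial.X (i, j) : MvPolynomial (Ix n) ℂ) := rfl

lemma lf_single {n : ℕ} (i j : Fin n) :
    lf i (Pi.single j 1) = (MvPolynomial.X (i, j) : MvPolynomial (Ix n) ℂ) := by
  rw [lf_apply, Finset.sum_eq_single j]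
  · simp
  · intro b _ hb
    simp [Pi.single_eq_of_ne hb]
  · intro hj
    exact absurd (Finset.mem_univ j) hj

lemma D_lf {n : ℕ} (A : Matrix (Fin n) (Fin n) ℂ) (i : Fin n) (v : Fin n → ℂ) :
    D A (lf i v) = lf i (Matrix.toLin' A v) := by
  rw [lf_apply, lf_apply, map_sum]
  have h1 : ∀ j : Fin n, D A (v j • (MvPolynomial.X (i, j) : MvPolynomial (Ix n) ℂ)) =
      ∑ k, (v j * A k j) • (MvPolynomial.X (i, k) : MvPolynomial (Ix n) ℂ) := by
    intro j
    rw [Derivation.map_smul, D, MvPolynomial.mkDerivation_X, Finset.smul_sum]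
    refine Finset.sum_congr rfl fun k _ => ?_
    rw [smul_smul]
  rw [Finset.sum_congr rfl (fun j _ => h1 j), Finset.sum_comm]
  refine Finset.sum_congr rfl fun k _ => ?_
  rw [← Finset.sum_smul, Matrix.toLin'_apply, Matrix.mulVec, dotProduct]
  congr 1
  exact Finset.sum_congr rfl fun j _ => mul_comm _ _

lemma gen_lf {n : ℕ} (A : Matrix (Fin n) (Fin n) ℂ) (i : Fin n) (μ : ℂ) (v : Fin n → ℂ)
    (hv : v ∈ Module.End.maxGenEigenspace (Matrix.toLin' A) μ) :
    lf i v ∈ Module.End.maxGenEigenspace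
      ((D A).toLinearMap : Module.End ℂ (MvPolynomial (Ix n) ℂ)) μ := by
  rw [Module.End.mem_maxGenEigenspace] at hv ⊢
  obtain ⟨k, hk⟩ := hv
  refine ⟨k, ?_⟩
  have key : ∀ (k : ℕ) (w : Fin n → ℂ),
      ((((D A).toLinearMap : Module.End ℂ (MvPolynomial (Ix n) ℂ)) -
        μ • (1 : Module.End ℂ (MvPolynomial (Ix n) ℂ))) ^ k) (lf i w) =
      lf i (((Matrix.toLin' A - μ • (1 : Module.End ℂ (Fin n → ℂ))) ^ k) w) := by
    intro k
    induction k with
    | zero => intro w; simp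
    | succ k ih =>
      intro w
      rw [pow_succ, pow_succ, Module.End.mul_apply, Module.End.mul_apply, ← ih]
      congr 1
      rw [LinearMap.sub_apply, LinearMap.sub_apply, map_sub, LinearMap.smul_apply,
        LinearMap.smul_apply, map_smul, Module.End.one_apply, Module.End.one_apply]
      congr 1
      exact D_lf A i w
  rw [key, hk, map_zero]

theorem conjRel_D {n : ℕ} (A B : Matrix (Fin n) (Fin n) ℂ)
    (h : ConjRel (Matrix.toLin' A) (Matrix.toLin' B)) :
    (⨆ μ : ℂ, Module.End.maxGenEigenspace (D A).toLinearMap μ) = ⊤ ∧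
      ConjRel ((D A).toLinearMap : Module.End ℂ (MvPolynomial (Ix n) ℂ))
        ((D B).toLinearMap : Module.End ℂ (MvPolynomial (Ix n) ℂ)) := by
  classical
  let DA : Module.End ℂ (MvPolynomial (Ix n) ℂ) := (D A).toLinearMap
  let Q : ℂ → Submodule ℂ (MvPolynomial (Ix n) ℂ) := fun μ =>
    { carrier := {f | f ∈ DA.maxGenEigenspace μ ∧ D B f = (starRingEnd ℂ μ) • f}
      add_mem' := by
        rintro a b ⟨ha1, ha2⟩ ⟨hb1, hb2⟩
        exact ⟨Submodule.add_mem _ ha1 hb1, by rw [map_add, ha2, hb2, smul_add]⟩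
      zero_mem' := ⟨Submodule.zero_mem _, by rw [map_zero, smul_zero]⟩
      smul_mem' := by
        rintro c a ⟨ha1, ha2⟩
        exact ⟨Submodule.smul_mem _ _ ha1, by rw [Derivation.map_smul, ha2, smul_comm]⟩ }
  have hQle : ∀ μ, Q μ ≤ DA.maxGenEigenspace μ := fun μ f hf => hf.1
  have hQB : ∀ μ, ∀ f ∈ Q μ, D B f = (starRingEnd ℂ μ) • f := fun μ f hf => hf.2
  have hQone : (1 : MvPolynomial (Ix n) ℂ) ∈ Q 0 := by
    refine ⟨?_, ?_⟩
    · rw [Module.End.mem_maxGenEigenspace]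
      refine ⟨1, ?_⟩
      rw [pow_one, zero_smul, sub_zero]
      exact (D A).map_one_eq_zero
    · rw [(D B).map_one_eq_zero, map_zero, zero_smul]
  have hQmul : ∀ μ ν, ∀ f ∈ Q μ, ∀ g ∈ Q ν, f * g ∈ Q (μ + ν) := by
    intro μ ν f hf g hg
    refine ⟨gen_mul (D A) μ ν f g hf.1 hg.1, ?_⟩
    rw [Derivation.leibniz, hf.2, hg.2, map_add, add_smul, smul_eq_mul, smul_eq_mul,
      mul_smul_comm, mul_smul_comm, mul_comm g f, add_comm]
  have hQlf : ∀ μ i, ∀ v ∈ Module.End.maxGenEigenspace (Matrix.toLin' A) μ, lf i v ∈ Q μ := by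
    intro μ i v hv
    refine ⟨gen_lf A i μ v hv, ?_⟩
    rw [D_lf, h μ v hv, map_smul]
  -- the sum of the Q
  let S : Submodule ℂ (MvPolynomial (Ix n) ℂ) := ⨆ μ, Q μ
  have hQS : ∀ μ, Q μ ≤ S := fun μ => le_iSup Q μ
  have hSmul : ∀ f ∈ S, ∀ g ∈ S, f * g ∈ S := by
    intro f hf g hg
    refine Submodule.iSup_induction Q (motive := fun f => f * g ∈ S) hf ?_ ?_ ?_
    · intro μ f hf
      refine Submodule.iSup_induction Q (motive := fun g => f * g ∈ S) hg ?_ ?_ ?_
      · intro ν g hg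
        exact hQS _ (hQmul μ ν f hf g hg)
      · rw [mul_zero]; exact Submodule.zero_mem _
      · intro a b ha hb
        rw [mul_add]; exact Submodule.add_mem _ ha hb
    · rw [zero_mul]; exact Submodule.zero_mem _
    · intro a b ha hb
      rw [add_mul]; exact Submodule.add_mem _ ha hb
  have hSX : ∀ i j, (MvPolynomial.X (i, j) : MvPolynomial (Ix n) ℂ) ∈ S := by
    intro i j
    rw [← lf_single]
    have hall : ∀ v : Fin n → ℂ, lf i v ∈ S := by
      intro v
      have hv : v ∈ ⨆ μ : ℂ, Module.End.maxGenEigenspace (Matrix.toLin' A) μ := by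
        rw [Module.End.iSup_maxGenEigenspace_eq_top]; trivial
      refine Submodule.iSup_induction _ (motive := fun v => lf i v ∈ S) hv ?_ ?_ ?_
      · intro μ w hw
        exact hQS μ (hQlf μ i w hw)
      · rw [map_zero]; exact Submodule.zero_mem _
      · intro a b ha hb
        rw [map_add]; exact Submodule.add_mem _ ha hb
    exact hall _
  have hStop : S = ⊤ := by
    rw [eq_top_iff]
    intro f _
    induction f using MvPolynomial.induction_on with
    | C a =>
      have : (MvPolynomial.C a : MvPolynomial (Ix n) ℂ) = a • 1 := by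
        rw [MvPolynomial.smul_eq_C_mul, mul_one]
      rw [this]
      exact Submodule.smul_mem _ _ (hQS 0 hQone)
    | add p q hp hq => exact Submodule.add_mem _ (hp trivial) (hq trivial)
    | mul_X p i hp => exact hSmul _ (hp trivial) _ (hSX i.1 i.2)
  have hind : iSupIndep DA.maxGenEigenspace := Module.End.independent_maxGenEigenspace DA
  refine ⟨?_, ?_⟩
  · rw [eq_top_iff, ← hStop]
    exact iSup_mono hQle
  · intro μ f hf
    have hfQ : f ∈ Q μ := by
      have h1 : Q μ ⊔ (⨆ ν, ⨆ (_ : ν ≠ μ), Q ν) = ⊤ := by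
        rw [← iSup_split_single Q μ]; exact hStop
      have h2 : (⨆ ν, ⨆ (_ : ν ≠ μ), Q ν) ≤ ⨆ ν, ⨆ (_ : ν ≠ μ), DA.maxGenEigenspace ν :=
        iSup₂_mono fun ν _ => hQle ν
      have h3 : (Q μ ⊔ (⨆ ν, ⨆ (_ : ν ≠ μ), Q ν)) ⊓ DA.maxGenEigenspace μ =
          Q μ ⊔ ((⨆ ν, ⨆ (_ : ν ≠ μ), Q ν) ⊓ DA.maxGenEigenspace μ) :=
        sup_inf_assoc_of_le _ (hQle μ)
      have h4 : (⨆ ν, ⨆ (_ : ν ≠ μ), Q ν) ⊓ DA.maxGenEigenspace μ = ⊥ := by
        rw [eq_bot_iff]
        refine le_trans (inf_le_inf_right _ h2) ?_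
        have := (hind μ).symm
        exact this.le_bot
      rw [h1, h4, sup_bot_eq, top_inf_eq] at h3
      rw [← h3]
      exact hf
    exact hQB μ f hfQ

end Pool.Agent.Lib.MP_fee02f_an.RL
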