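import Mathlib
import Pool.Agent.Lib.MP_fee02f_an.RL.Defs
import Pool.Agent.Lib.MP_fee02f_an.RL.B1
import Pool.Agent.Lib.MP_fee02f_an.RL.C3
import Pool.Agent.Lib.MP_fee02f_an.RL.C5

set_option autoImplicit false

namespace Pool.Agent.Lib.MP_fee02f_an.RL

open Matrix

/-- complexification of a real polynomial -/
noncomputable def C6_cm {n : ℕ} (a : MvPolynomial (Ix n) ℝ) : MvPolynomial (Ix n) ℂ :=
  MvPolynomial.map Complex.ofRealHom a

lemma C6_D {n : ℕ} (X : Mat n) (a : MvPolynomial (Ix n) ℝ) :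
    D (cx X) (C6_cm a) = C6_cm (D X a) := by
  unfold C6_cm
  induction a using MvPolynomial.induction_on with
  | C r =>
    rw [MvPolynomial.map_C, MvPolynomial.derivation_C, MvPolynomial.derivation_C, map_zero]
  | add p q hp hq => rw [map_add, map_add, map_add, map_add, hp, hq]
  | mul_X p i hp =>
    rw [map_mul, MvPolynomial.map_X, Derivation.leibniz, Derivation.leibniz, hp, map_add,
      smul_eq_mul, smul_eq_mul, smul_eq_mul, smul_eq_mul, map_mul, map_mul, MvPolynomial.map_X]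
    congr 2
    unfold D cx
    rw [MvPolynomial.mkDerivation_X, MvPolynomial.mkDerivation_X, map_sum]
    refine Finset.sum_congr rfl (fun k _ => ?_)
    rw [MvPolynomial.smul_eq_C_mul, MvPolynomial.smul_eq_C_mul, map_mul, MvPolynomial.map_C,
      MvPolynomial.map_X]
    rfl

lemma C6_inj {n : ℕ} (a b a' b' : MvPolynomial (Ix n) ℝ)
    (h : C6_cm a + Complex.I • C6_cm b = C6_cm a' + Complex.I • C6_cm b') : a = a' ∧ b = b' := by
  have key : ∀ m, a.coeff m = a'.coeff m ∧ b.coeff m = b'.coeff m := by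
    intro m
    have h1 := congrArg (MvPolynomial.coeff m) h
    unfold C6_cm at h1
    rw [MvPolynomial.coeff_add, MvPolynomial.coeff_add, MvPolynomial.coeff_smul,
      MvPolynomial.coeff_smul, MvPolynomial.coeff_map, MvPolynomial.coeff_map,
      MvPolynomial.coeff_map, MvPolynomial.coeff_map] at h1
    have hre := congrArg Complex.re h1
    have him := congrArg Complex.im h1
    simp at hre him
    exact ⟨hre, him⟩
  exact ⟨MvPolynomial.ext _ _ (fun m => (key m).1), MvPolynomial.ext _ _ (fun m => (key m).2)⟩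

/-- the complex span of the vanishing ideal -/
noncomputable def C6_p {n : ℕ} (G : Subgroup (GL (Fin n) ℝ)) :
    Submodule ℂ (MvPolynomial (Ix n) ℂ) where
  carrier := {f | ∃ a ∈ I G, ∃ b ∈ I G, f = C6_cm a + Complex.I • C6_cm b}
  add_mem' := by
    rintro f g ⟨a, ha, b, hb, rfl⟩ ⟨a', ha', b', hb', rfl⟩
    refine ⟨a + a', (I G).add_mem ha ha', b + b', (I G).add_mem hb hb', ?_⟩
    unfold C6_cm
    rw [map_add, map_add, smul_add]
    abel
  zero_mem' := by
    refine ⟨0, (I G).zero_mem, 0, (I G).zero_mem, ?_⟩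
    unfold C6_cm
    rw [map_zero, smul_zero, add_zero]
  smul_mem' := by
    rintro c f ⟨a, ha, b, hb, rfl⟩
    have hs : ∀ (t : ℝ) (f : MvPolynomial (Ix n) ℝ), f ∈ I G → t • f ∈ I G := by
      intro t f hf
      rw [MvPolynomial.smul_eq_C_mul]
      exact (I G).mul_mem_left _ hf
    refine ⟨c.re • a - c.im • b, (I G).sub_mem (hs _ _ ha) (hs _ _ hb),
      c.im • a + c.re • b, (I G).add_mem (hs _ _ ha) (hs _ _ hb), ?_⟩
    refine MvPolynomial.ext _ _ (fun m => ?_)
    unfold C6_cm
    simp only [MvPolynomial.coeff_smul, MvPolynomial.coeff_add, MvPolynomial.coeff_map,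
      MvPolynomial.coeff_sub, map_sub, map_add, smul_eq_mul, map_mul, Complex.ofRealHom_eq_coe]
    apply Complex.ext
    · simp
    · simp
      ring

theorem re_im_mem {n : ℕ} (G : Subgroup (GL (Fin n) ℝ)) (X : Mat n) (hX : InLie G X)
    (Z : Matrix (Fin n) (Fin n) ℂ) (hZ : ConjRel (Matrix.toLin' (cx X)) (Matrix.toLin' Z)) :
    InLie G (Z.map Complex.re) ∧ InLie G (Z.map Complex.im) := by
  obtain ⟨htop, hrel⟩ := conjRel_D (cx X) Z hZ
  have hp : ∀ v ∈ C6_p G, (D (cx X)).toLinearMap v ∈ C6_p G := by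
    rintro v ⟨a, ha, b, hb, rfl⟩
    refine ⟨D X a, hX a ha, D X b, hX b hb, ?_⟩
    change D (cx X) _ = _
    rw [map_add, Derivation.map_smul, C6_D, C6_D]
  have hinv := conjRel_invariant _ _ hrel htop (C6_p G) hp
  have hdec : Z = cx (Z.map Complex.re) + Complex.I • cx (Z.map Complex.im) := by
    ext i j
    apply Complex.ext <;> simp [cx]
  have key : ∀ f ∈ I G, D (Z.map Complex.re) f ∈ I G ∧ D (Z.map Complex.im) f ∈ I G := by
    intro f hf
    have h1 : C6_cm f ∈ C6_p G := by
      refine ⟨f, hf, 0, (I G).zero_mem, ?_⟩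
      have : C6_cm (0 : MvPolynomial (Ix n) ℝ) = 0 := by unfold C6_cm; rw [map_zero]
      rw [this, smul_zero, add_zero]
    obtain ⟨a', ha', b', hb', h2⟩ := hinv _ h1
    have h3 : D Z (C6_cm f) = C6_cm (D (Z.map Complex.re) f) +
        Complex.I • C6_cm (D (Z.map Complex.im) f) := by
      conv_lhs => rw [hdec]
      rw [D_add, D_smul, C6_D, C6_D]
    have h4 : C6_cm (D (Z.map Complex.re) f) + Complex.I • C6_cm (D (Z.map Complex.im) f) =
        C6_cm a' + Complex.I • C6_cm b' := by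
      rw [← h3]; exact h2
    obtain ⟨h5, h6⟩ := C6_inj _ _ _ _ h4
    rw [h5, h6]
    exact ⟨ha', hb'⟩
  exact ⟨fun f hf => (key f hf).1, fun f hf => (key f hf).2⟩

end Pool.Agent.Lib.MP_fee02f_an.RL
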