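import Mathlib
import Pool.Agent.Lib.MP_fee02f_an.RL.Defs

/-!
C7 (about 40 min). trace(A Z) is the sum of |μ|^2 over the eigenvalues.
PROOF. V = Fin n → ℂ, f = toLin' A, g = toLin' Z, V_μ = maxGenEigenspace f μ: DirectSum.IsInternal (independent,
top). f g maps V_μ into itself and is conj(μ) f there; trace (f g) = sum over the (finitely many) μ with V_μ ≠ 0 of
conj(μ) trace (f | V_μ) (LinearMap.trace_eq_sum_trace_restrict) = conj(μ) μ finrank V_μ, because f - μ is nilpotent on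
V_μ (isNilpotent_restrict_maxGenEigenspace_sub_algebraMap; LinearMap.isNilpotent_trace_of_isNilpotent). All terms
are >= 0 (real), the sum is 0, so V_μ = 0 for μ ≠ 0, so V = V_0 and f is nilpotent (isNilpotent from
maxGenEigenspace f 0 = top, finite dimension).
Alternative: LinearMap.trace and the roots of the characteristic polynomial.
-/

set_option autoImplicit false

namespace Pool.Agent.Lib.MP_fee02f_an.RL

open Matrix

theorem C7_trace {n : ℕ} (f g : Module.End ℂ (Fin n → ℂ)) (h : ConjRel f g)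
    (hfin : {μ | f.maxGenEigenspace μ ≠ ⊥}.Finite) :
    LinearMap.trace ℂ (Fin n → ℂ) (f * g) =
      ∑ μ ∈ hfin.toFinset,
        (((‖μ‖ ^ 2 * (Module.finrank ℂ (f.maxGenEigenspace μ) : ℝ) : ℝ)) : ℂ) := by
  classical
  have hds := DirectSum.isInternal_submodule_of_iSupIndep_of_iSup_eq_top
    f.independent_maxGenEigenspace (Module.End.iSup_maxGenEigenspace_eq_top f)
  have hf : ∀ μ, Set.MapsTo f (f.maxGenEigenspace μ) (f.maxGenEigenspace μ) :=
    fun μ => f.mapsTo_maxGenEigenspace_of_comm (Commute.refl _) μ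
  have hfg : ∀ μ, Set.MapsTo (f * g) (f.maxGenEigenspace μ) (f.maxGenEigenspace μ) := by
    intro μ v hv
    rw [Module.End.mul_apply, h μ v hv, map_smul]
    exact (f.maxGenEigenspace μ).smul_mem _ (hf μ hv)
  rw [LinearMap.trace_eq_sum_trace_restrict' hds hfin hfg]
  refine Finset.sum_congr rfl fun μ _ => ?_
  have h1 : (f * g).restrict (hfg μ) = (starRingEnd ℂ μ) • f.restrict (hf μ) := by
    ext ⟨v, hv⟩ : 2
    rw [LinearMap.restrict_coe_apply, Module.End.mul_apply, h μ v hv, map_smul]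
    rfl
  have h2 : LinearMap.trace ℂ _ (f.restrict (hf μ)) =
      (Module.finrank ℂ (f.maxGenEigenspace μ) : ℂ) * μ := by
    have h3 := f.isNilpotent_restrict_maxGenEigenspace_sub_algebraMap μ
    have h4 : (f - algebraMap ℂ (Module.End ℂ (Fin n → ℂ)) μ).restrict
        (Module.End.mapsTo_maxGenEigenspace_of_comm (Algebra.mul_sub_algebraMap_commutes f μ) μ) =
        f.restrict (hf μ) - μ • (LinearMap.id : (f.maxGenEigenspace μ) →ₗ[ℂ]
          (f.maxGenEigenspace μ)) := by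
      ext ⟨v, hv⟩ : 2
      simp [Algebra.algebraMap_eq_smul_one]
    rw [h4] at h3
    have h5 := (LinearMap.isNilpotent_trace_of_isNilpotent h3).eq_zero
    have h6 := LinearMap.map_sub (LinearMap.trace ℂ (f.maxGenEigenspace μ)) (f.restrict (hf μ))
      (μ • LinearMap.id)
    have h7 := h6.symm.trans h5
    rw [LinearMap.map_smul, LinearMap.trace_id, sub_eq_zero, smul_eq_mul] at h7
    rw [h7, mul_comm]
  rw [h1, map_smul, h2, smul_eq_mul]
  have h6 : (starRingEnd ℂ μ) * μ = ((‖μ‖ ^ 2 : ℝ) : ℂ) := by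
    rw [mul_comm, Complex.mul_conj, Complex.normSq_eq_norm_sq]
  push_cast at h6 ⊢
  rw [← h6]
  ring

theorem C7_nilp {n : ℕ} (f g : Module.End ℂ (Fin n → ℂ)) (h : ConjRel f g)
    (ht : LinearMap.trace ℂ (Fin n → ℂ) (f * g) = 0) : IsNilpotent f := by
  classical
  have hfin : {μ | f.maxGenEigenspace μ ≠ ⊥}.Finite :=
    WellFoundedGT.finite_ne_bot_of_iSupIndep f.independent_maxGenEigenspace
  have h1 := C7_trace f g h hfin
  rw [ht] at h1
  have h3 : ∑ μ ∈ hfin.toFinset,
      (‖μ‖ ^ 2 * (Module.finrank ℂ (f.maxGenEigenspace μ) : ℝ)) = 0 := by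
    have h4 := h1.symm
    rw [← Complex.ofReal_sum] at h4
    exact_mod_cast h4
  have h4 : ∀ μ : ℂ, μ ≠ 0 → f.maxGenEigenspace μ = ⊥ := by
    intro μ hμ
    by_contra hne
    have h5 := (Finset.sum_eq_zero_iff_of_nonneg (fun μ _ => by positivity)).1 h3 μ
      (hfin.mem_toFinset.2 hne)
    have h6 : (Module.finrank ℂ (f.maxGenEigenspace μ) : ℝ) ≠ 0 := by
      have h7 : Module.finrank ℂ (f.maxGenEigenspace μ) ≠ 0 := by
        intro h8
        exact hne (Submodule.finrank_eq_zero.1 h8)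
      exact_mod_cast h7
    have h7 : ‖μ‖ ^ 2 ≠ 0 := pow_ne_zero 2 (norm_ne_zero_iff.2 hμ)
    exact (mul_ne_zero h7 h6) h5
  have h5 : f.maxGenEigenspace 0 = ⊤ := by
    rw [eq_top_iff, ← Module.End.iSup_maxGenEigenspace_eq_top f]
    refine iSup_le fun μ => ?_
    rcases eq_or_ne μ 0 with rfl | hμ
    · exact le_rfl
    · rw [h4 μ hμ]
      exact bot_le
  rw [Module.End.isNilpotent_iff_of_finite]
  intro v
  have h7 : v ∈ f.maxGenEigenspace 0 := by
    rw [h5]
    trivial
  obtain ⟨k, hk⟩ := (Module.End.mem_maxGenEigenspace f 0 v).1 h7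
  refine ⟨k, ?_⟩
  rwa [zero_smul, sub_zero] at hk

theorem nilp_of_trace {n : ℕ} (A Z : Matrix (Fin n) (Fin n) ℂ)
    (h : ConjRel (Matrix.toLin' A) (Matrix.toLin' Z)) (ht : Matrix.trace (A * Z) = 0) :
    IsNilpotent A := by
  rw [← Matrix.isNilpotent_toLin'_iff]
  refine C7_nilp _ _ h ?_
  have h3 : ((Matrix.toLin' A : Module.End ℂ (Fin n → ℂ)) * Matrix.toLin' Z) =
      Matrix.toLin' (A * Z) := by
    rw [Matrix.toLin'_mul]
    rfl
  rw [h3, Matrix.trace_toLin'_eq, ht]

end Pool.Agent.Lib.MP_fee02f_an.RL
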