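import Mathlib
import Pool.Agent.Lib.MP_fee02f_an.RL.Defs
import Pool.Agent.Lib.MP_fee02f_an.RL.C2
import Pool.Agent.Lib.MP_fee02f_an.RL.C6
import Pool.Agent.Lib.MP_fee02f_an.RL.C7

/-!
C8 (about 20 min). The radical of the trace form consists of nilpotent matrices.
PROOF. Z from C2 for cx X; R = Z.map re, J = Z.map im are in the Lie algebra (C6), so trace (X R) = trace (X J) = 0, hence
trace (cx X * Z) = trace(X R) + i trace(X J) = 0 and cx X is nilpotent (C7), so X is nilpotent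
(cx (X^k) = (cx X)^k, injective).
-/

set_option autoImplicit false

namespace Pool.Agent.Lib.MP_fee02f_an.RL

open Matrix

theorem C8_trace {n : ℕ} (X : Mat n) (Z : Matrix (Fin n) (Fin n) ℂ) :
    Matrix.trace (cx X * Z) = ((Matrix.trace (X * Z.map Complex.re) : ℝ) : ℂ) +
      ((Matrix.trace (X * Z.map Complex.im) : ℝ) : ℂ) * Complex.I := by
  simp only [Matrix.trace, Matrix.diag_apply, Matrix.mul_apply, cx, Matrix.map_apply]
  push_cast
  rw [Finset.sum_mul, ← Finset.sum_add_distrib]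
  refine Finset.sum_congr rfl fun i _ => ?_
  rw [Finset.sum_mul, ← Finset.sum_add_distrib]
  refine Finset.sum_congr rfl fun j _ => ?_
  conv_lhs => rw [← Complex.re_add_im (Z j i)]
  ring

theorem C8_pow {n : ℕ} (X : Mat n) (k : ℕ) : cx (X ^ k) = cx X ^ k := by
  have h : ∀ Y : Mat n, cx Y = (Complex.ofRealHom.mapMatrix Y) := fun _ => rfl
  rw [h, h, map_pow]

theorem radical_nilp {n : ℕ} (G : Subgroup (GL (Fin n) ℝ)) (X : Mat n) (hX : InLie G X)
    (h : ∀ Y : Mat n, InLie G Y → Matrix.trace (X * Y) = 0) : IsNilpotent X := by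
  obtain ⟨Z, hZ⟩ := exists_conj (cx X)
  obtain ⟨h1, h2⟩ := re_im_mem G X hX Z hZ
  have h3 : Matrix.trace (cx X * Z) = 0 := by
    rw [C8_trace, h _ h1, h _ h2]
    simp
  obtain ⟨k, hk⟩ := nilp_of_trace (cx X) Z hZ h3
  refine ⟨k, ?_⟩
  rw [← C8_pow] at hk
  ext i j
  have h4 : (cx (X ^ k)) i j = 0 := by rw [hk]; rfl
  have h5 : (((X ^ k) i j : ℝ) : ℂ) = 0 := h4
  exact_mod_cast h5

end Pool.Agent.Lib.MP_fee02f_an.RL
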