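import Mathlib
import Pool.Agent.Lib.MP_fee02f_an.RL.Defs

set_option autoImplicit false

namespace Pool.Agent.Lib.MP_fee02f_an.RL

open Matrix

attribute [local instance 100] LieRing.ofAssociativeRing

theorem engel {n : ℕ} (r : Submodule ℝ (Mat n)) (hbr : ∀ X ∈ r, ∀ Y ∈ r, X * Y - Y * X ∈ r)
    (hr : ∀ X ∈ r, IsNilpotent X) :
    ∃ N : Submodule ℝ (Mat n), (∀ X ∈ N, ∀ Y ∈ N, X * Y ∈ N) ∧ (∀ X ∈ r, X ∈ N) ∧
      ∀ X ∈ N, IsNilpotent X := by
  let L : LieSubalgebra ℝ (Module.End ℝ (Fin n → ℝ)) :=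
    { r.map (Matrix.toLin' (R := ℝ) (m := Fin n) (n := Fin n)).toLinearMap with
      lie_mem' := by
        rintro x y ⟨X, hX, rfl⟩ ⟨Y, hY, rfl⟩
        refine ⟨X * Y - Y * X, hbr X hX Y hY, ?_⟩
        rw [LieRing.of_associative_ring_bracket]
        simp [Matrix.toLin'_mul, Module.End.mul_eq_comp] }
  have hL : ∀ x : L, ∃ X ∈ r, Matrix.toLin' X = (x : Module.End ℝ (Fin n → ℝ)) := by
    rintro ⟨x, X, hX, rfl⟩
    exact ⟨X, hX, rfl⟩
  have hnil : LieModule.IsNilpotent L (Fin n → ℝ) := by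
    rw [LieModule.isNilpotent_iff_forall' (R := ℝ)]
    intro x
    obtain ⟨X, hX, hx⟩ := hL x
    have : LieModule.toEnd ℝ L (Fin n → ℝ) x = Matrix.toLin' X := by
      rw [hx]; rfl
    rw [this]
    obtain ⟨k, hk⟩ := hr X hX
    refine ⟨k, ?_⟩
    rw [← Matrix.toLin'_pow, hk, map_zero]
  obtain ⟨k, hk⟩ := (LieModule.isNilpotent_iff ℝ L (Fin n → ℝ)).mp hnil
  let W : ℕ → Submodule ℝ (Fin n → ℝ) := fun j =>
    (LieModule.lowerCentralSeries ℝ L (Fin n → ℝ) j).toSubmodule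
  have hW0 : ∀ v, v ∈ W 0 := by intro v; exact LieSubmodule.mem_top v
  have hWk : ∀ v ∈ W k, v = 0 := by
    intro v hv
    have hv' : v ∈ LieModule.lowerCentralSeries ℝ L (Fin n → ℝ) k := hv
    rw [hk] at hv'
    exact (LieSubmodule.mem_bot v).mp hv'
  have hWanti : ∀ j, W (j + 1) ≤ W j := by
    intro j
    exact LieModule.antitone_lowerCentralSeries ℝ L (Fin n → ℝ) (Nat.le_succ j)
  have hWr : ∀ X ∈ r, ∀ j, ∀ v ∈ W j, X *ᵥ v ∈ W (j + 1) := by
    intro X hX j v hv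
    have h1 : ⁅(⟨Matrix.toLin' X, ⟨X, hX, rfl⟩⟩ : L), v⁆ ∈
        LieModule.lowerCentralSeries ℝ L (Fin n → ℝ) (j + 1) := by
      rw [LieModule.lowerCentralSeries_succ]
      exact LieSubmodule.lie_mem_lie (LieSubmodule.mem_top _) hv
    exact h1
  refine ⟨{ carrier := {X | ∀ j, ∀ v ∈ W j, X *ᵥ v ∈ W (j + 1)}
            add_mem' := ?_
            zero_mem' := ?_
            smul_mem' := ?_ }, ?_, ?_, ?_⟩
  · intro X Y hX hY j v hv
    rw [Matrix.add_mulVec]
    exact (W (j + 1)).add_mem (hX j v hv) (hY j v hv)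
  · intro j v hv
    rw [Matrix.zero_mulVec]
    exact (W (j + 1)).zero_mem
  · intro c X hX j v hv
    rw [Matrix.smul_mulVec]
    exact (W (j + 1)).smul_mem c (hX j v hv)
  · intro X hX Y hY j v hv
    rw [← Matrix.mulVec_mulVec]
    exact hWanti (j + 1) (hX (j + 1) _ (hY j v hv))
  · intro X hX
    exact hWr X hX
  · intro X hX
    refine ⟨k, ?_⟩
    have h1 : ∀ j, ∀ v, (X ^ j) *ᵥ v ∈ W j := by
      intro j
      induction j with
      | zero => intro v; exact hW0 _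
      | succ j ih =>
        intro v
        rw [pow_succ', ← Matrix.mulVec_mulVec]
        exact hX j _ (ih v)
    ext a b
    have h2 := hWk _ (h1 k (Pi.single b 1))
    have h3 := congrFun h2 a
    rw [Matrix.mulVec_single_one] at h3
    exact h3

end Pool.Agent.Lib.MP_fee02f_an.RL
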