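import Mathlib
import Pool.Agent.Lib.MP_fee02f_an.RL.Defs

/-!
E2 (about 40 min). Exponentials.
PROOF. `exp_sub_one_mem`: exp X - 1 = sum_(k>=1) X^k/k!, partial sums in N, N is closed (finite dimensional,
Submodule.closed_of_finiteDimensional). `unip_closure`: the set {u | u - 1 in N} is closed under products (u v - 1 = (u-1)(v-1)
+ (u-1) + (v-1)), contains the generators and their inverses (exp(-X)) ; Subgroup.closure_induction (inverse of a general
element: use that the generating set is closed under inverses, or (u-1) nilpotent of N: u⁻¹ - 1 = sum (-1)^k (u-1)^k in N).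
`exp_eq_one`: X nilpotent and exp X = 1: exp X - 1 = X (1 + X/2 + ...) = X * (1 + nilpotent) and the second factor is a
unit, so X = 0 (finite sum: NormedSpace.exp for nilpotents = IsNilpotent.exp in Mathlib, or a direct argument with a vector:
let k be the largest with X^k ≠ 0, k >= 1; multiply exp X - 1 = 0 by X^(k-1): X^k = 0).
-/

set_option autoImplicit false

namespace Pool.Agent.Lib.MP_fee02f_an.RL

open Matrix

attribute [local instance] Matrix.linftyOpNormedRing Matrix.linftyOpNormedAlgebra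

theorem E2_hasSum {n : ℕ} (X : Mat n) :
    HasSum (fun k : ℕ => ((k.factorial : ℝ)⁻¹) • X ^ k) (NormedSpace.exp X) :=
  NormedSpace.exp_series_hasSum_exp' (𝕂 := ℝ) X

theorem E2_pow_mem {n : ℕ} (N : Submodule ℝ (Mat n)) (hN : ∀ X ∈ N, ∀ Y ∈ N, X * Y ∈ N)
    (X : Mat n) (hX : X ∈ N) (k : ℕ) : X ^ (k + 1) ∈ N := by
  induction k with
  | zero => simpa using hX
  | succ k ih =>
    rw [pow_succ]
    exact hN _ ih _ hX

theorem exp_sub_one_mem {n : ℕ} (N : Submodule ℝ (Mat n)) (hN : ∀ X ∈ N, ∀ Y ∈ N, X * Y ∈ N)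
    (X : Mat n) (hX : X ∈ N) : NormedSpace.exp X - 1 ∈ N := by
  have h1 := E2_hasSum X
  have h2 := (hasSum_nat_add_iff' (f := fun k : ℕ => ((k.factorial : ℝ)⁻¹) • X ^ k) 1).2 h1
  have h3 : NormedSpace.exp X - ∑ i ∈ Finset.range 1, ((i.factorial : ℝ)⁻¹) • X ^ i
      = NormedSpace.exp X - 1 := by
    simp
  rw [h3] at h2
  have hc : IsClosed (N : Set (Mat n)) := Submodule.closed_of_finiteDimensional N
  refine hc.mem_of_tendsto h2.tendsto_sum_nat (Filter.Eventually.of_forall fun m => ?_)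
  refine N.sum_mem fun k _ => ?_
  exact N.smul_mem _ (E2_pow_mem N hN X hX k)

theorem E2_inv_exp {n : ℕ} (g : GL (Fin n) ℝ) (X : Mat n) (h : (g : Mat n) = NormedSpace.exp X) :
    ((g⁻¹ : GL (Fin n) ℝ) : Mat n) = NormedSpace.exp (-X) := by
  have h1 : ((g⁻¹ : GL (Fin n) ℝ) : Mat n) * (g : Mat n) = 1 := by
    rw [← Units.val_mul, inv_mul_cancel, Units.val_one]
  have h2 : NormedSpace.exp X * NormedSpace.exp (-X) = 1 := by
    have h3 := NormedSpace.exp_add_of_commute (x := X) (y := -X) (Commute.neg_right (Commute.refl X))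
    rw [add_neg_cancel, NormedSpace.exp_zero] at h3
    exact h3.symm
  rw [h] at h1
  calc ((g⁻¹ : GL (Fin n) ℝ) : Mat n)
      = ((g⁻¹ : GL (Fin n) ℝ) : Mat n) * (NormedSpace.exp X * NormedSpace.exp (-X)) := by
        rw [h2, mul_one]
    _ = NormedSpace.exp (-X) := by rw [← mul_assoc, h1, one_mul]

theorem E2_mul_mem {n : ℕ} (N : Submodule ℝ (Mat n)) (hN : ∀ X ∈ N, ∀ Y ∈ N, X * Y ∈ N)
    {u v : Mat n} (hu : u - 1 ∈ N) (hv : v - 1 ∈ N) : u * v - 1 ∈ N := by
  have e : u * v - 1 = (u - 1) * (v - 1) + (u - 1) + (v - 1) := by noncomm_ring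
  rw [e]
  exact N.add_mem (N.add_mem (hN _ hu _ hv) hu) hv

theorem unip_closure {n : ℕ} (N : Submodule ℝ (Mat n)) (hN : ∀ X ∈ N, ∀ Y ∈ N, X * Y ∈ N)
    (hnil : ∀ X ∈ N, IsNilpotent X) (r : Set (Mat n)) (hr : ∀ X ∈ r, X ∈ N) :
    ∀ u ∈ Subgroup.closure {g : GL (Fin n) ℝ | ∃ X ∈ r, (g : Mat n) = NormedSpace.exp X},
      IsNilpotent ((u : Mat n) - 1) := by
  intro u hu
  have key : (u : Mat n) - 1 ∈ N ∧ ((u⁻¹ : GL (Fin n) ℝ) : Mat n) - 1 ∈ N := by
    induction hu using Subgroup.closure_induction with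
    | mem g hg =>
      obtain ⟨X, hX, hgX⟩ := hg
      constructor
      · rw [hgX]
        exact exp_sub_one_mem N hN X (hr X hX)
      · rw [E2_inv_exp g X hgX]
        exact exp_sub_one_mem N hN (-X) (N.neg_mem (hr X hX))
    | one => simp
    | mul x y _ _ hx hy =>
      constructor
      · rw [Units.val_mul]
        exact E2_mul_mem N hN hx.1 hy.1
      · rw [_root_.mul_inv_rev, Units.val_mul]
        exact E2_mul_mem N hN hy.2 hx.2
    | inv x _ hx =>
      exact ⟨hx.2, by rw [inv_inv]; exact hx.1⟩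
  exact hnil _ key.1

theorem exp_eq_one {n : ℕ} (X : Mat n) (hX : IsNilpotent X) (h : NormedSpace.exp X = 1) : X = 0 := by
  classical
  by_contra hne
  -- the least exponent
  obtain ⟨m, hm⟩ := hX
  have hex : ∃ m : ℕ, X ^ m = 0 := ⟨m, hm⟩
  set k := Nat.find hex with hk
  have hk0 : X ^ k = 0 := Nat.find_spec hex
  have hk2 : 2 ≤ k := by
    by_contra hlt
    have hlt' : k < 2 := not_le.1 hlt
    interval_cases hkk : k
    · have h1 : (1 : Mat n) = 0 := by simpa using hk0
      apply hne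
      calc X = X * 1 := (mul_one X).symm
        _ = 0 := by rw [h1, mul_zero]
    · apply hne
      simpa using hk0
  have hkm : X ^ (k - 1) ≠ 0 := Nat.find_min hex (by omega)
  apply hkm
  have h1 := (E2_hasSum X).mul_right (X ^ (k - 2))
  rw [h, one_mul] at h1
  have h2 : HasSum (fun j : ℕ => ((j.factorial : ℝ)⁻¹) • X ^ j * X ^ (k - 2))
      (∑ j ∈ Finset.range 2, ((j.factorial : ℝ)⁻¹) • X ^ j * X ^ (k - 2)) := by
    apply hasSum_sum_of_ne_finset_zero
    intro j hj
    rw [Finset.mem_range, not_lt] at hj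
    have e : X ^ j * X ^ (k - 2) = 0 := by
      rw [← pow_add]
      obtain ⟨q, hq⟩ : ∃ q, j + (k - 2) = k + q := ⟨j - 2, by omega⟩
      rw [hq, pow_add, hk0, zero_mul]
    rw [smul_mul_assoc, e, smul_zero]
  have h3 := h1.unique h2
  have h4 : (∑ j ∈ Finset.range 2, ((j.factorial : ℝ)⁻¹) • X ^ j * X ^ (k - 2))
      = X ^ (k - 2) + X ^ (k - 1) := by
    rw [Finset.sum_range_succ, Finset.sum_range_one]
    have e : X * X ^ (k - 2) = X ^ (k - 1) := by
      rw [← pow_succ']
      congr 1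
      omega
    simp [e]
  rw [h4] at h3
  have h5 : X ^ (k - 2) + 0 = X ^ (k - 2) + X ^ (k - 1) := by rw [add_zero]; exact h3
  exact (add_left_cancel h5).symm

end Pool.Agent.Lib.MP_fee02f_an.RL
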