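import Mathlib
import Pool.Agent.Lib.MP_fee02f_an.RL.Defs
import Pool.Agent.Lib.MP_fee02f_an.RL.B5
import Pool.Agent.Lib.MP_fee02f_an.RL.B6
import Pool.Agent.Lib.MP_fee02f_an.RL.C8
import Pool.Agent.Lib.MP_fee02f_an.RL.E1
import Pool.Agent.Lib.MP_fee02f_an.RL.E2

/-!
E3 (about 45 min). The trace form of the Lie algebra of a reductive group is nondegenerate.
PROOF. r = {X in Lie G | trace (X Y) = 0 for all Y in Lie G}: a Lie subalgebra (invariance of the trace: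
trace([H,X] Y) = trace(X [Y,H])), stable under conjugation by x in G (conj_mem for x and x⁻¹; cyclicity), all members
nilpotent (C8). N from E1. U = Subgroup.closure {g | exists X in r, g = exp X}: contained in G (exp_mem), normal in G
(x exp(X) x⁻¹ = exp(x X x⁻¹), closure), unipotent (E2). So U = bot by NoUnip, exp X = 1 for X in r (exp X is invertible:
Matrix.isUnit_exp), so X = 0 (exp_eq_one).
-/

set_option autoImplicit false

namespace Pool.Agent.Lib.MP_fee02f_an.RL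

open Matrix

set_option backward.isDefEq.respectTransparency false in
attribute [-instance] Matrix.SpecialLinearGroup.hasCoeToGeneralLinearGroup in
theorem E3_conj {n : ℕ} (g : GL (Fin n) ℝ) (X : Mat n) :
    NormedSpace.exp ((g : Mat n) * X * ((g⁻¹ : GL (Fin n) ℝ) : Mat n)) =
      (g : Mat n) * NormedSpace.exp X * ((g⁻¹ : GL (Fin n) ℝ) : Mat n) :=
  Matrix.exp_units_conj g X

/-- the radical of the trace form -/
noncomputable def E3_rad {n : ℕ} (G : Subgroup (GL (Fin n) ℝ)) : Submodule ℝ (Mat n) where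
  carrier := {X | InLie G X ∧ ∀ Y : Mat n, InLie G Y → Matrix.trace (X * Y) = 0}
  add_mem' := by
    rintro a b ⟨ha, ha'⟩ ⟨hb, hb'⟩
    refine ⟨(lieG G).add_mem ha hb, fun Y hY => ?_⟩
    rw [add_mul, Matrix.trace_add, ha' Y hY, hb' Y hY, add_zero]
  zero_mem' := by
    refine ⟨(lieG G).zero_mem, fun Y _ => ?_⟩
    rw [zero_mul, Matrix.trace_zero]
  smul_mem' := by
    rintro c a ⟨ha, ha'⟩
    refine ⟨(lieG G).smul_mem c ha, fun Y hY => ?_⟩
    rw [smul_mul_assoc, Matrix.trace_smul, ha' Y hY, smul_zero]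

theorem E3_bracket {n : ℕ} (G : Subgroup (GL (Fin n) ℝ)) (X Y : Mat n) (hX : X ∈ E3_rad G)
    (hY : Y ∈ E3_rad G) : X * Y - Y * X ∈ E3_rad G := by
  obtain ⟨hX1, hX2⟩ := hX
  obtain ⟨hY1, hY2⟩ := hY
  refine ⟨bracket_mem G X Y hX1 hY1, fun Z hZ => ?_⟩
  have h1 := hX2 _ (bracket_mem G Y Z hY1 hZ)
  rw [← h1]
  have h2 : Matrix.trace (Y * X * Z) = Matrix.trace (X * (Z * Y)) := by
    rw [Matrix.mul_assoc, Matrix.trace_mul_comm, Matrix.mul_assoc]
  rw [sub_mul, mul_sub, Matrix.trace_sub, Matrix.trace_sub, h2, Matrix.mul_assoc]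

theorem E3_conj_mem {n : ℕ} (G : Subgroup (GL (Fin n) ℝ)) (x : GL (Fin n) ℝ) (hx : x ∈ G) (X : Mat n)
    (hX : X ∈ E3_rad G) : (x : Mat n) * X * ((x⁻¹ : GL (Fin n) ℝ) : Mat n) ∈ E3_rad G := by
  obtain ⟨hX1, hX2⟩ := hX
  refine ⟨conj_mem G x hx X hX1, fun Z hZ => ?_⟩
  have h1 := hX2 _ (conj_mem G x⁻¹ (G.inv_mem hx) Z hZ)
  rw [← h1, inv_inv]
  have h2 : Matrix.trace ((x : Mat n) * X * ((x⁻¹ : GL (Fin n) ℝ) : Mat n) * Z) =
      Matrix.trace (X * (((x⁻¹ : GL (Fin n) ℝ) : Mat n) * Z) * (x : Mat n)) := by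
    rw [Matrix.trace_mul_comm (X * (((x⁻¹ : GL (Fin n) ℝ) : Mat n) * Z)) (x : Mat n)]
    simp only [Matrix.mul_assoc]
  rw [h2]
  simp only [Matrix.mul_assoc]

theorem nondeg {n : ℕ} (G : Subgroup (GL (Fin n) ℝ)) (hZ : ZClosed G) (hU : NoUnip G) (X : Mat n)
    (hX : InLie G X) (h : ∀ Y : Mat n, InLie G Y → Matrix.trace (X * Y) = 0) : X = 0 := by
  have hnil : ∀ Z ∈ E3_rad G, IsNilpotent Z := fun Z hZ => radical_nilp G Z hZ.1 hZ.2
  obtain ⟨N, hN1, hN2, hN3⟩ := engel (E3_rad G) (fun X hX Y hY => E3_bracket G X Y hX hY) hnil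
  set U := Subgroup.closure {g : GL (Fin n) ℝ | ∃ X ∈ (E3_rad G : Set (Mat n)),
    (g : Mat n) = NormedSpace.exp X} with hUdef
  have hUG : U ≤ G := by
    rw [hUdef, Subgroup.closure_le]
    rintro g ⟨Z, hZ', hg⟩
    exact exp_mem G hZ Z hZ'.1 g hg
  have hnorm : ∀ g ∈ G, ∀ u ∈ U, g * u * g⁻¹ ∈ U := by
    intro g hg u hu
    induction hu using Subgroup.closure_induction with
    | mem y hy =>
      obtain ⟨Z, hZ', hy'⟩ := hy
      refine Subgroup.subset_closure ⟨_, E3_conj_mem G g hg Z hZ', ?_⟩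
      rw [E3_conj, ← hy', Units.val_mul, Units.val_mul]
    | one => rw [mul_one, mul_inv_cancel]; exact U.one_mem
    | mul a b _ _ ha hb =>
      have : g * (a * b) * g⁻¹ = (g * a * g⁻¹) * (g * b * g⁻¹) := by group
      rw [this]
      exact U.mul_mem ha hb
    | inv a _ ha =>
      have : g * a⁻¹ * g⁻¹ = (g * a * g⁻¹)⁻¹ := by group
      rw [this]
      exact U.inv_mem ha
  have hunip := unip_closure N hN1 hN3 (E3_rad G : Set (Mat n)) hN2
  have hbot : U = ⊥ := hU U hUG hnorm hunip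
  obtain ⟨g, hg⟩ := Matrix.isUnit_exp X
  have hgU : g ∈ U := Subgroup.subset_closure ⟨X, ⟨hX, h⟩, hg⟩
  rw [hbot, Subgroup.mem_bot] at hgU
  refine exp_eq_one X (hnil X ⟨hX, h⟩) ?_
  rw [← hg, hgU, Units.val_one]

end Pool.Agent.Lib.MP_fee02f_an.RL
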