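import Mathlib
import Pool.Agent.Lib.MP_fee02f_an.RL.Defs

/-!
F1 (about 60 min). The minimum of hs over the conjugates of X is attained.
PROOF. Let s = inf over g in G of hs(g X g⁻¹) and g_k in G a minimising sequence, g_k = c_k d_k (C, Γ). Y_k = g_k X g_k⁻¹ is bounded,
so x_k = exp(Y_k) = g_k γ g_k⁻¹ and exp(-Y_k) = its inverse are bounded, so d_k γ d_k⁻¹ = c_k⁻¹ x_k c_k and its inverse stay in a
compact subset of GL_n(ℝ) (C compact, so C and C⁻¹ are bounded). A discrete subgroup has only finitely many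
elements in a compact set (hfin), so for infinitely many k: d_k γ d_k⁻¹ = d γ d⁻¹ with one fixed d = d_(k0). Then e = d⁻¹ d_k
commutes with γ, so e X e⁻¹ = X (hcomm) and Y_k = c_k (d X d⁻¹) c_k⁻¹. Along a subsequence c_k → c in C, and
c d is in G? (c_k = g_k d_k⁻¹ in G; G is closed (hclosed), so c in G.) By continuity hs((c d) X (c d)⁻¹) = s.
It may be easier to avoid sequences: the set T = {d γ d⁻¹ | d in Γ} ∩ (compact) is finite; for each of its members fix d; the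
function (c, member) ↦ hs(c d X d⁻¹ c⁻¹) on (C ∩ G) x finite is continuous on a compact set and its minimum is the infimum.
hfin is the input: for every R finitely many γ in Γ have all entries of γ and γ⁻¹ bounded by R.
-/

set_option autoImplicit false

namespace Pool.Agent.Lib.MP_fee02f_an.RL

open Matrix

set_option backward.isDefEq.respectTransparency false in
theorem F1_cont_exp (n : ℕ) : Continuous (fun X : Mat n => NormedSpace.exp X) :=
  open scoped Matrix.Norms.Operator in NormedSpace.exp_continuous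

set_option backward.isDefEq.respectTransparency false in
attribute [-instance] Matrix.SpecialLinearGroup.hasCoeToGeneralLinearGroup in
theorem F1_conj {n : ℕ} (g : GL (Fin n) ℝ) (X : Mat n) :
    NormedSpace.exp ((g : Mat n) * X * ((g⁻¹ : GL (Fin n) ℝ) : Mat n)) =
      (g : Mat n) * NormedSpace.exp X * ((g⁻¹ : GL (Fin n) ℝ) : Mat n) :=
  Matrix.exp_units_conj g X

theorem F1_exp_neg {n : ℕ} (X : Mat n) : NormedSpace.exp (-X) = (NormedSpace.exp X)⁻¹ :=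
  Matrix.exp_neg X

theorem F1_hs_cont (n : ℕ) : Continuous (fun X : Mat n => hs X) := by
  unfold hs
  refine continuous_finsetSum _ fun i _ => continuous_finsetSum _ fun j _ => ?_
  exact ((continuous_apply j).comp (continuous_apply i)).pow 2

theorem F1_entry {n : ℕ} (X : Mat n) (i j : Fin n) : X i j ^ 2 ≤ hs X := by
  unfold hs
  calc X i j ^ 2 ≤ ∑ j, X i j ^ 2 :=
        Finset.single_le_sum (f := fun j => X i j ^ 2) (fun _ _ => sq_nonneg _) (Finset.mem_univ j)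
    _ ≤ _ := Finset.single_le_sum (f := fun i => ∑ j, X i j ^ 2)
        (fun _ _ => Finset.sum_nonneg fun _ _ => sq_nonneg _) (Finset.mem_univ i)

theorem F1_entry' {n : ℕ} (X : Mat n) (R : ℝ) (h : hs X ≤ R) (i j : Fin n) : |X i j| ≤ R + 1 := by
  have h1 := F1_entry X i j
  have h2 : |X i j| ^ 2 ≤ R := by rw [sq_abs]; linarith
  nlinarith [sq_nonneg (|X i j| - 1), abs_nonneg (X i j)]

theorem F1_compact (n : ℕ) (s : ℝ) : IsCompact {Y : Mat n | hs Y ≤ s} := by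
  have hcl : IsClosed {Y : Mat n | hs Y ≤ s} := isClosed_le (F1_hs_cont n) continuous_const
  have h1 : IsCompact (Set.pi Set.univ fun _ : Fin n => Set.pi Set.univ fun _ : Fin n =>
      Set.Icc (-(s + 1)) (s + 1)) :=
    isCompact_univ_pi fun _ => isCompact_univ_pi fun _ => isCompact_Icc
  refine IsCompact.of_isClosed_subset (s := (Set.pi Set.univ fun _ : Fin n =>
    Set.pi Set.univ fun _ : Fin n => Set.Icc (-(s + 1)) (s + 1) : Set (Fin n → Fin n → ℝ))) h1 hcl ?_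
  intro Y hY i _ j _
  exact abs_le.1 (F1_entry' Y s hY i j)

theorem F1_cont_conj {n : ℕ} (X : Mat n) : Continuous (fun g : GL (Fin n) ℝ =>
    hs ((g : Mat n) * X * ((g⁻¹ : GL (Fin n) ℝ) : Mat n))) := by
  refine (F1_hs_cont n).comp ?_
  exact (Units.continuous_val.mul continuous_const).mul (Units.continuous_val.comp continuous_inv)

theorem F1_bound {n : ℕ} (C : Set (GL (Fin n) ℝ)) (hC : IsCompact C) (s : ℝ) :
    ∃ R : ℝ, ∀ c ∈ C, ∀ Y : Mat n, hs Y ≤ s →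
      hs (((c⁻¹ : GL (Fin n) ℝ) : Mat n) * NormedSpace.exp Y * (c : Mat n)) ≤ R := by
  have h1 : IsCompact (C ×ˢ {Y : Mat n | hs Y ≤ s}) := hC.prod (F1_compact n s)
  have h2 : Continuous (fun p : GL (Fin n) ℝ × Mat n =>
      hs (((p.1⁻¹ : GL (Fin n) ℝ) : Mat n) * NormedSpace.exp p.2 * (p.1 : Mat n))) := by
    refine (F1_hs_cont n).comp ?_
    refine ((Units.continuous_val.comp (continuous_inv.comp continuous_fst)).mul
      ((F1_cont_exp n).comp continuous_snd)).mul (Units.continuous_val.comp continuous_fst)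
  obtain ⟨R, hR⟩ := h1.bddAbove_image h2.continuousOn
  refine ⟨R, fun c hc Y hY => hR ⟨(c, Y), ⟨hc, hY⟩, rfl⟩⟩

theorem F1_hs_neg {n : ℕ} (X : Mat n) : hs (-X) = hs X := by
  unfold hs
  simp

theorem exists_min {n : ℕ} (G Γ : Subgroup (GL (Fin n) ℝ)) (hΓ : Γ ≤ G)
    (hfin : ∀ R : ℝ, {γ : GL (Fin n) ℝ | γ ∈ Γ ∧ (∀ i j, |(γ : Mat n) i j| ≤ R) ∧
      ∀ i j, |((γ⁻¹ : GL (Fin n) ℝ) : Mat n) i j| ≤ R}.Finite)
    (hclosed : IsClosed (G : Set (GL (Fin n) ℝ)))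
    (C : Set (GL (Fin n) ℝ)) (hC : IsCompact C) (hCΓ : ∀ g ∈ G, ∃ c ∈ C, ∃ γ ∈ Γ, g = c * γ)
    (γ : GL (Fin n) ℝ) (hγ : γ ∈ Γ) (X : Mat n) (hX : NormedSpace.exp X = (γ : Mat n))
    (hcomm : ∀ e : GL (Fin n) ℝ, e * γ * e⁻¹ = γ →
      (e : Mat n) * X * ((e⁻¹ : GL (Fin n) ℝ) : Mat n) = X) :
    ∃ g ∈ G, ∀ g' ∈ G, hs ((g : Mat n) * X * ((g⁻¹ : GL (Fin n) ℝ) : Mat n)) ≤
      hs ((g' : Mat n) * X * ((g'⁻¹ : GL (Fin n) ℝ) : Mat n)) := by
  classical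
  obtain ⟨R, hR⟩ := F1_bound C hC (hs X)
  -- the finite set
  set F := {γ : GL (Fin n) ℝ | γ ∈ Γ ∧ (∀ i j, |(γ : Mat n) i j| ≤ R + 1) ∧
      ∀ i j, |((γ⁻¹ : GL (Fin n) ℝ) : Mat n) i j| ≤ R + 1} with hF
  have hFfin : F.Finite := hfin (R + 1)
  -- representatives
  have hrep : ∀ m : GL (Fin n) ℝ, ∃ d ∈ Γ, (∃ d' ∈ Γ, d' * γ * d'⁻¹ = m) → d * γ * d⁻¹ = m := by
    intro m
    by_cases h : ∃ d' ∈ Γ, d' * γ * d'⁻¹ = m
    · obtain ⟨d', hd', h2⟩ := h
      exact ⟨d', hd', fun _ => h2⟩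
    · exact ⟨1, Γ.one_mem, fun h2 => absurd h2 h⟩
  choose r hrΓ hr using hrep
  have hTfin : (r '' F).Finite := hFfin.image r
  have hCG : IsCompact (C ∩ (G : Set (GL (Fin n) ℝ))) := hC.inter_right hclosed
  have hS : IsCompact ((fun p : GL (Fin n) ℝ × GL (Fin n) ℝ => p.1 * p.2) ''
      ((C ∩ (G : Set (GL (Fin n) ℝ))) ×ˢ (r '' F))) :=
    (hCG.prod hTfin.isCompact).image continuous_mul
  set S := ((fun p : GL (Fin n) ℝ × GL (Fin n) ℝ => p.1 * p.2) ''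
      ((C ∩ (G : Set (GL (Fin n) ℝ))) ×ˢ (r '' F))) with hSdef
  -- key: every g in G with small value has the same value as a member of S
  have key : ∀ g ∈ G, hs ((g : Mat n) * X * ((g⁻¹ : GL (Fin n) ℝ) : Mat n)) ≤ hs X →
      ∃ s ∈ S, hs ((g : Mat n) * X * ((g⁻¹ : GL (Fin n) ℝ) : Mat n)) =
        hs ((s : Mat n) * X * ((s⁻¹ : GL (Fin n) ℝ) : Mat n)) := by
    intro g hg hle
    obtain ⟨c, hc, d, hd, rfl⟩ := hCΓ g hg
    have hcG : c ∈ G := by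
      have : c * d * d⁻¹ ∈ G := G.mul_mem hg (G.inv_mem (hΓ hd))
      simpa using this
    have hexp : NormedSpace.exp (((c * d : GL (Fin n) ℝ) : Mat n) * X *
        (((c * d)⁻¹ : GL (Fin n) ℝ) : Mat n)) = ((c * d * γ * (c * d)⁻¹ : GL (Fin n) ℝ) : Mat n) := by
      rw [F1_conj, hX]
      simp only [Units.val_mul]
    have hm1 : ((c⁻¹ : GL (Fin n) ℝ) : Mat n) * NormedSpace.exp (((c * d : GL (Fin n) ℝ) : Mat n) * X *
        (((c * d)⁻¹ : GL (Fin n) ℝ) : Mat n)) * (c : Mat n) =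
        ((d * γ * d⁻¹ : GL (Fin n) ℝ) : Mat n) := by
      rw [hexp]
      rw [← Units.val_mul, ← Units.val_mul]
      congr 1
      group
    have hm2 : ((c⁻¹ : GL (Fin n) ℝ) : Mat n) * NormedSpace.exp (-(((c * d : GL (Fin n) ℝ) : Mat n) * X *
        (((c * d)⁻¹ : GL (Fin n) ℝ) : Mat n))) * (c : Mat n) =
        (((d * γ * d⁻¹)⁻¹ : GL (Fin n) ℝ) : Mat n) := by
      rw [F1_exp_neg, hexp, ← Matrix.coe_units_inv]
      rw [← Units.val_mul, ← Units.val_mul]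
      congr 1
      group
    have hmF : d * γ * d⁻¹ ∈ F := by
      refine ⟨Γ.mul_mem (Γ.mul_mem hd hγ) (Γ.inv_mem hd), ?_, ?_⟩
      · intro i j
        rw [← hm1]
        exact F1_entry' _ _ (hR c hc _ hle) i j
      · intro i j
        rw [← hm2]
        refine F1_entry' _ _ (hR c hc _ ?_) i j
        rw [F1_hs_neg]
        exact hle
    have hrm := hr (d * γ * d⁻¹) ⟨d, hd, rfl⟩
    set d0 := r (d * γ * d⁻¹) with hd0
    refine ⟨c * d0, ⟨(c, d0), ⟨⟨hc, hcG⟩, ⟨_, hmF, rfl⟩⟩, rfl⟩, ?_⟩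
    have he : (d0⁻¹ * d) * γ * (d0⁻¹ * d)⁻¹ = γ := by
      have : (d0⁻¹ * d) * γ * (d0⁻¹ * d)⁻¹ = d0⁻¹ * (d * γ * d⁻¹) * d0 := by group
      rw [this, ← hrm]
      group
    have h5 := hcomm _ he
    have h6 : ((c * d : GL (Fin n) ℝ) : Mat n) * X * (((c * d)⁻¹ : GL (Fin n) ℝ) : Mat n) =
        ((c * d0 : GL (Fin n) ℝ) : Mat n) * X * (((c * d0)⁻¹ : GL (Fin n) ℝ) : Mat n) := by
      have h7 : c * d = (c * d0) * (d0⁻¹ * d) := by group
      have h8 : (c * d)⁻¹ = (d0⁻¹ * d)⁻¹ * (c * d0)⁻¹ := by group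
      calc ((c * d : GL (Fin n) ℝ) : Mat n) * X * (((c * d)⁻¹ : GL (Fin n) ℝ) : Mat n)
          = (((c * d0) * (d0⁻¹ * d) : GL (Fin n) ℝ) : Mat n) * X *
            (((d0⁻¹ * d)⁻¹ * (c * d0)⁻¹ : GL (Fin n) ℝ) : Mat n) := by rw [← h7, ← h8]
        _ = ((c * d0 : GL (Fin n) ℝ) : Mat n) * (((d0⁻¹ * d : GL (Fin n) ℝ) : Mat n) * X *
            (((d0⁻¹ * d)⁻¹ : GL (Fin n) ℝ) : Mat n)) * (((c * d0)⁻¹ : GL (Fin n) ℝ) : Mat n) := by
          rw [Units.val_mul (c * d0) (d0⁻¹ * d), Units.val_mul (d0⁻¹ * d)⁻¹ (c * d0)⁻¹]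
          simp only [Matrix.mul_assoc]
        _ = _ := by rw [h5]
    rw [h6]
  have h1 : hs (((1 : GL (Fin n) ℝ) : Mat n) * X * (((1 : GL (Fin n) ℝ)⁻¹ : GL (Fin n) ℝ) : Mat n)) =
      hs X := by simp
  obtain ⟨s1, hs1, hs1'⟩ := key 1 G.one_mem h1.le
  obtain ⟨g0, hg0, hmin⟩ := hS.exists_isMinOn ⟨s1, hs1⟩ (F1_cont_conj X).continuousOn
  refine ⟨g0, ?_, ?_⟩
  · obtain ⟨⟨c, d⟩, ⟨⟨_, hc⟩, ⟨m, _, hm⟩⟩, rfl⟩ := hg0
    refine G.mul_mem hc ?_
    change d ∈ G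
    have : r m = d := hm
    rw [← this]
    exact hΓ (hrΓ m)
  · intro g' hg'
    by_cases hle : hs ((g' : Mat n) * X * ((g'⁻¹ : GL (Fin n) ℝ) : Mat n)) ≤ hs X
    · obtain ⟨s, hs', hs2⟩ := key g' hg' hle
      rw [hs2]
      exact hmin hs'
    · have h2 : hs ((g0 : Mat n) * X * ((g0⁻¹ : GL (Fin n) ℝ) : Mat n)) ≤ _ := hmin hs1
      have h3 := hs1'.symm.trans h1
      push Not at hle
      have h4 : hs ((g0 : Mat n) * X * ((g0⁻¹ : GL (Fin n) ℝ) : Mat n)) ≤ hs X := by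
        rw [← h3]; exact h2
      linarith

end Pool.Agent.Lib.MP_fee02f_an.RL
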