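import Mathlib
import Pool.Agent.Lib.MP_fee02f_an.RL.Defs

/-!
F2 (about 35 min). The derivative at the minimum.
PROOF. For t real E_t = exp(t H) as an element of GL (hG says it is in G). phi(t) = hs(E_t Y E_t⁻¹) >= phi(0) = hs Y for all t, phi is
differentiable at 0 with derivative 2 ip (H Y - Y H) Y (exp(tH) Y exp(-tH), hasDerivAt_exp_smul_const), so it is 0
(IsLocalMin.hasDerivAt_eq_zero).
-/

set_option autoImplicit false

namespace Pool.Agent.Lib.MP_fee02f_an.RL

open Matrix

attribute [local instance] Matrix.linftyOpNormedRing Matrix.linftyOpNormedAlgebra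

theorem F2_deriv {n : ℕ} (Y H : Mat n) :
    HasDerivAt (fun t : ℝ => NormedSpace.exp (t • H) * Y * NormedSpace.exp (-(t • H)))
      (H * Y - Y * H) 0 := by
  have h1 : HasDerivAt (fun t : ℝ => NormedSpace.exp (t • H)) (NormedSpace.exp ((0 : ℝ) • H) * H) 0 :=
    hasDerivAt_exp_smul_const H (0 : ℝ)
  have h2 : HasDerivAt (fun t : ℝ => NormedSpace.exp (t • (-H)))
      (NormedSpace.exp ((0 : ℝ) • (-H)) * (-H)) 0 := hasDerivAt_exp_smul_const (-H) (0 : ℝ)
  have h3 := (h1.mul_const Y).mul h2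
  simp only [zero_smul, NormedSpace.exp_zero, one_mul, mul_one] at h3
  have e1 : (fun t : ℝ => NormedSpace.exp (t • H) * Y * NormedSpace.exp (-(t • H)))
      = fun t : ℝ => NormedSpace.exp (t • H) * Y * NormedSpace.exp (t • (-H)) := by
    funext t
    rw [smul_neg]
  rw [e1]
  have e2 : H * Y + Y * -H = H * Y - Y * H := by rw [mul_neg, sub_eq_add_neg]
  exact h3.congr_deriv e2

theorem F2_entry {n : ℕ} (Y H : Mat n) (i j : Fin n) :
    HasDerivAt (fun t : ℝ => (NormedSpace.exp (t • H) * Y * NormedSpace.exp (-(t • H))) i j)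
      ((H * Y - Y * H) i j) 0 := by
  have h1 := F2_deriv Y H
  have h2 := (LinearMap.toContinuousLinearMap (Matrix.entryLinearMap ℝ ℝ i j)).hasFDerivAt
    (x := NormedSpace.exp ((0 : ℝ) • H) * Y * NormedSpace.exp (-((0 : ℝ) • H)))
  exact h2.comp_hasDerivAt (0 : ℝ) h1

theorem min_deriv {n : ℕ} (Y H : Mat n)
    (hmin : ∀ t : ℝ, hs Y ≤ hs (NormedSpace.exp (t • H) * Y * NormedSpace.exp (-(t • H)))) :
    ip (H * Y - Y * H) Y = 0 := by
  have h1 : HasDerivAt
      (fun t : ℝ => hs (NormedSpace.exp (t • H) * Y * NormedSpace.exp (-(t • H))))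
      (∑ i, ∑ j, 2 * (Y i j * (H * Y - Y * H) i j)) 0 := by
    unfold hs
    apply HasDerivAt.fun_sum
    intro i _
    apply HasDerivAt.fun_sum
    intro j _
    have h2 := (F2_entry Y H i j).pow 2
    simp only [zero_smul, neg_zero, NormedSpace.exp_zero, one_mul, mul_one] at h2
    refine h2.congr_deriv ?_
    norm_num
    ring
  have h3 : IsLocalMin
      (fun t : ℝ => hs (NormedSpace.exp (t • H) * Y * NormedSpace.exp (-(t • H)))) 0 := by
    apply Filter.Eventually.of_forall
    intro t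
    simp only [zero_smul, neg_zero, NormedSpace.exp_zero, one_mul, mul_one]
    exact hmin t
  have h4 := h3.hasDerivAt_eq_zero h1
  have h5 : ∑ i, ∑ j, 2 * (Y i j * (H * Y - Y * H) i j) = 2 * ip (H * Y - Y * H) Y := by
    unfold ip
    rw [Finset.mul_sum]
    apply Finset.sum_congr rfl
    intro i _
    rw [Finset.mul_sum]
    apply Finset.sum_congr rfl
    intro j _
    ring
  rw [h5] at h4
  linarith

end Pool.Agent.Lib.MP_fee02f_an.RL
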