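import Mathlib
import Pool.Agent.Lib.MP_fee02f_an.RL.Defs

/-!
F3 (about 40 min). Topology: a discrete subgroup has finitely many elements in bounded sets, G is closed, C is bounded.
PROOF. `finite_bounded`: K = {g in GL | entries of g and g⁻¹ bounded by R} is compact (closed embedding g ↦ (g, g⁻¹) of the units into
pairs: Units.isEmbedding_embedProduct, closed image {(a,b) | ab = ba = 1}); if Γ ∩ K were infinite it would have an accumulation
point, so two different members γ1, γ2 with γ1⁻¹ γ2 - 1 small (entries of γ1⁻¹ bounded by R, γ1⁻¹ γ2 - 1 = γ1⁻¹ (γ2 - γ1)), contradiction to hdisc. Direct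
proof: cover the cube [-R,R]^(n^2) by finitely many small cubes of side eps/(n R + 1), each contains at most one γ.
`zclosed_closed`: polynomials are continuous. `bounded_of_compact`: the entries of c and c⁻¹ are continuous on GL.
-/

set_option autoImplicit false

namespace Pool.Agent.Lib.MP_fee02f_an.RL

open Matrix

theorem finite_bounded {n : ℕ} (Γ : Subgroup (GL (Fin n) ℝ))
    (hdisc : ∃ ε > (0 : ℝ), ∀ γ ∈ Γ, Small ε ((γ : Mat n) - 1) → γ = 1) (R : ℝ) :
    {γ : GL (Fin n) ℝ | γ ∈ Γ ∧ (∀ i j, |(γ : Mat n) i j| ≤ R) ∧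
      ∀ i j, |((γ⁻¹ : GL (Fin n) ℝ) : Mat n) i j| ≤ R}.Finite := by
  classical
  obtain ⟨ε, hε, hsm⟩ := hdisc
  set S : Set (GL (Fin n) ℝ) := {γ : GL (Fin n) ℝ | γ ∈ Γ ∧ (∀ i j, |(γ : Mat n) i j| ≤ R) ∧
      ∀ i j, |((γ⁻¹ : GL (Fin n) ℝ) : Mat n) i j| ≤ R} with hS
  set Q : ℝ := |R| + 1 with hQ
  have hQ0 : 0 < Q := by positivity
  set d : ℝ := ε / (n * Q + 1) with hd
  have hnQ : 0 < (n : ℝ) * Q + 1 := by positivity
  have hd0 : 0 < d := by positivity
  -- the map to integer matrices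
  set F : GL (Fin n) ℝ → (Fin n → Fin n → ℤ) := fun γ i j => ⌊(γ : Mat n) i j / d⌋ with hF
  have hfin : (F '' S).Finite := by
    apply Set.Finite.subset (s := Set.univ.pi fun _ : Fin n => Set.univ.pi fun _ : Fin n =>
      Set.Icc (-(⌈Q / d⌉ + 1)) (⌈Q / d⌉ + 1))
    · exact Set.Finite.pi fun _ => Set.Finite.pi fun _ => Set.finite_Icc _ _
    · rintro _ ⟨γ, hγ, rfl⟩
      intro i _ j _
      have h1 := hγ.2.1 i j
      have h2 : |(γ : Mat n) i j / d| ≤ Q / d := by
        rw [abs_div, abs_of_pos hd0]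
        apply div_le_div_of_nonneg_right _ hd0.le
        have := le_abs_self R
        linarith
      have h3 := abs_le.1 h2
      have h4 : Q / d ≤ (⌈Q / d⌉ : ℝ) := Int.le_ceil _
      constructor
      · change -(⌈Q / d⌉ + 1) ≤ ⌊(γ : Mat n) i j / d⌋
        rw [Int.le_floor]
        push_cast
        linarith [h3.1]
      · change ⌊(γ : Mat n) i j / d⌋ ≤ ⌈Q / d⌉ + 1
        have h5 : (⌊(γ : Mat n) i j / d⌋ : ℝ) ≤ (γ : Mat n) i j / d := Int.floor_le _
        have h6 : (⌊(γ : Mat n) i j / d⌋ : ℝ) ≤ ((⌈Q / d⌉ + 1 : ℤ) : ℝ) := by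
          push_cast
          linarith [h3.2]
        exact_mod_cast h6
  refine Set.Finite.of_finite_image hfin ?_
  intro γ1 h1 γ2 h2 h12
  have hclose : ∀ i j, |(γ2 : Mat n) i j - (γ1 : Mat n) i j| < d := by
    intro i j
    have e : ⌊(γ1 : Mat n) i j / d⌋ = ⌊(γ2 : Mat n) i j / d⌋ := congrFun (congrFun h12 i) j
    have h3 := Int.abs_sub_lt_one_of_floor_eq_floor e.symm
    have h4 : (γ2 : Mat n) i j / d - (γ1 : Mat n) i j / d
        = ((γ2 : Mat n) i j - (γ1 : Mat n) i j) / d := by ring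
    rw [h4, abs_div, abs_of_pos hd0, div_lt_one hd0] at h3
    exact h3
  have hmem : γ1⁻¹ * γ2 ∈ Γ := Γ.mul_mem (Γ.inv_mem h1.1) h2.1
  have hone : γ1⁻¹ * γ2 = 1 := by
    apply hsm _ hmem
    intro i j
    have e1 : ((γ1⁻¹ * γ2 : GL (Fin n) ℝ) : Mat n) - 1
        = ((γ1⁻¹ : GL (Fin n) ℝ) : Mat n) * ((γ2 : Mat n) - (γ1 : Mat n)) := by
      rw [mul_sub, Units.val_mul]
      congr 1
      rw [← Units.val_mul, inv_mul_cancel, Units.val_one]
    rw [e1, Matrix.mul_apply]
    calc |∑ k, ((γ1⁻¹ : GL (Fin n) ℝ) : Mat n) i k * ((γ2 : Mat n) - (γ1 : Mat n)) k j|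
        ≤ ∑ k, |((γ1⁻¹ : GL (Fin n) ℝ) : Mat n) i k * ((γ2 : Mat n) - (γ1 : Mat n)) k j| :=
          Finset.abs_sum_le_sum_abs _ _
      _ ≤ ∑ _k : Fin n, Q * d := by
          apply Finset.sum_le_sum
          intro k _
          rw [abs_mul]
          apply mul_le_mul _ (hclose k j).le (abs_nonneg _) hQ0.le
          have := h1.2.2 i k
          have := le_abs_self R
          linarith
      _ = n * Q * d := by
          rw [Finset.sum_const, Finset.card_univ, Fintype.card_fin, nsmul_eq_mul]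
          ring
      _ < (n * Q + 1) * d := by nlinarith
      _ = ε := by
          rw [hd]
          field_simp
  exact (inv_mul_eq_one.1 hone)

theorem zclosed_closed {n : ℕ} (G : Subgroup (GL (Fin n) ℝ)) (hG : ZClosed G) :
    IsClosed (G : Set (GL (Fin n) ℝ)) := by
  obtain ⟨S, hS⟩ := hG
  have e : (G : Set (GL (Fin n) ℝ)) = ⋂ f ∈ S, {g : GL (Fin n) ℝ | ev f (g : Mat n) = 0} := by
    ext g
    simp only [SetLike.mem_coe, Set.mem_iInter, Set.mem_ofPred_eq]
    exact hS g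
  rw [e]
  apply isClosed_biInter
  intro f _
  apply isClosed_eq _ continuous_const
  unfold ev
  have h1 : Continuous fun x : Ix n → ℝ => MvPolynomial.eval x f := MvPolynomial.continuous_eval f
  apply h1.comp
  apply continuous_pi
  intro p
  exact (Units.continuous_val (M := Mat n)).matrix_elem p.1 p.2

theorem bounded_of_compact {n : ℕ} (C : Set (GL (Fin n) ℝ)) (hC : IsCompact C) :
    ∃ R : ℝ, 0 < R ∧ ∀ c ∈ C, (∀ i j, |(c : Mat n) i j| ≤ R) ∧
      ∀ i j, |((c⁻¹ : GL (Fin n) ℝ) : Mat n) i j| ≤ R := by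
  have hc1 : ∀ i j, Continuous fun c : GL (Fin n) ℝ => |(c : Mat n) i j| := fun i j =>
    ((Units.continuous_val (M := Mat n)).matrix_elem i j).abs
  have hc2 : ∀ i j, Continuous fun c : GL (Fin n) ℝ => |((c⁻¹ : GL (Fin n) ℝ) : Mat n) i j| :=
    fun i j => (((Units.continuous_val (M := Mat n)).comp continuous_inv).matrix_elem i j).abs
  have hc : Continuous fun c : GL (Fin n) ℝ => ∑ i, ∑ j, (|(c : Mat n) i j|
      + |((c⁻¹ : GL (Fin n) ℝ) : Mat n) i j|) := by
    apply continuous_finsetSum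
    intro i _
    apply continuous_finsetSum
    intro j _
    exact (hc1 i j).add (hc2 i j)
  obtain ⟨B, hB⟩ := hC.exists_bound_of_continuousOn hc.continuousOn
  have hterm : ∀ c : GL (Fin n) ℝ, ∀ i j, |(c : Mat n) i j|
      + |((c⁻¹ : GL (Fin n) ℝ) : Mat n) i j| ≤ ∑ i, ∑ j, (|(c : Mat n) i j|
      + |((c⁻¹ : GL (Fin n) ℝ) : Mat n) i j|) := by
    intro c i j
    calc |(c : Mat n) i j| + |((c⁻¹ : GL (Fin n) ℝ) : Mat n) i j|
        ≤ ∑ j, (|(c : Mat n) i j| + |((c⁻¹ : GL (Fin n) ℝ) : Mat n) i j|) :=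
          Finset.single_le_sum (f := fun j => |(c : Mat n) i j|
            + |((c⁻¹ : GL (Fin n) ℝ) : Mat n) i j|) (fun j _ => by positivity) (Finset.mem_univ j)
      _ ≤ _ := Finset.single_le_sum (f := fun i => ∑ j, (|(c : Mat n) i j|
            + |((c⁻¹ : GL (Fin n) ℝ) : Mat n) i j|))
            (fun i _ => Finset.sum_nonneg fun j _ => by positivity) (Finset.mem_univ i)
  refine ⟨max B 1, by positivity, fun c hcC => ?_⟩
  have h1 := hB c hcC
  rw [Real.norm_eq_abs] at h1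
  have h2 := (le_abs_self _).trans h1
  constructor
  · intro i j
    have h3 := hterm c i j
    have h4 := abs_nonneg (((c⁻¹ : GL (Fin n) ℝ) : Mat n) i j)
    have h5 := le_max_left B 1
    linarith
  · intro i j
    have h3 := hterm c i j
    have h4 := abs_nonneg ((c : Mat n) i j)
    have h5 := le_max_left B 1
    linarith

end Pool.Agent.Lib.MP_fee02f_an.RL
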