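import Mathlib
import Pool.Agent.Lib.MP_fee02f_an.RL.Defs

/-!
N1. A nilpotent `N` in `g` lies in `[g, N]`, if the trace form of `g` is nondegenerate.
-/

set_option autoImplicit false

namespace Pool.Agent.Lib.MP_fee02f_an.RL

open Matrix

theorem nilp_mem_bracket {n : ℕ} (g : Submodule ℝ (Mat n))
    (hbr : ∀ X ∈ g, ∀ Y ∈ g, X * Y - Y * X ∈ g)
    (hnd : ∀ X ∈ g, (∀ Y ∈ g, Matrix.trace (X * Y) = 0) → X = 0) (N : Mat n) (hN : N ∈ g)
    (hnil : IsNilpotent N) : ∃ H ∈ g, H * N - N * H = N := by
  classical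
  let T : g →ₗ[ℝ] g :=
    { toFun := fun H => ⟨H.1 * N - N * H.1, hbr _ H.2 _ hN⟩
      map_add' := by
        intro a b
        apply Subtype.ext
        simp only [Submodule.coe_add, add_mul, mul_add]
        abel
      map_smul' := by
        intro c a
        apply Subtype.ext
        simp only [Submodule.coe_smul, smul_mul_assoc, mul_smul_comm, smul_sub, RingHom.id_apply] }
  by_contra hcon
  push Not at hcon
  have hnot : (⟨N, hN⟩ : g) ∉ LinearMap.range T := by
    rintro ⟨H, hH⟩
    exact hcon H.1 H.2 (congrArg Subtype.val hH)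
  obtain ⟨φ, hφ1, hφ2⟩ := Submodule.exists_le_ker_of_notMem hnot
  let B : g →ₗ[ℝ] Module.Dual ℝ g :=
    LinearMap.mk₂ ℝ (fun X Y : g => Matrix.trace (X.1 * Y.1))
      (by intro a b c; simp only [Submodule.coe_add, add_mul, Matrix.trace_add])
      (by intro c a b; simp only [Submodule.coe_smul, smul_mul_assoc, Matrix.trace_smul])
      (by intro a b c; simp only [Submodule.coe_add, mul_add, Matrix.trace_add])
      (by intro c a b; simp only [Submodule.coe_smul, mul_smul_comm, Matrix.trace_smul])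
  have hBinj : Function.Injective B := by
    rw [injective_iff_map_eq_zero]
    intro X hX
    apply Subtype.ext
    refine hnd X.1 X.2 fun Y hY => ?_
    have := congrArg (fun (ψ : Module.Dual ℝ g) => ψ ⟨Y, hY⟩) hX
    simpa [B] using this
  have hBsurj : Function.Surjective B := by
    rw [← LinearMap.injective_iff_surjective_of_finrank_eq_finrank]
    · exact hBinj
    · exact (Subspace.dual_finrank_eq).symm
  obtain ⟨Z, hZ⟩ := hBsurj φ
  have hcomm : N * Z.1 - Z.1 * N = 0 := by
    refine hnd _ (hbr _ hN _ Z.2) fun H hH => ?_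
    have h1 : φ (T ⟨H, hH⟩) = 0 := hφ2 (LinearMap.mem_range_self T _)
    rw [← hZ] at h1
    have h2 : Matrix.trace (Z.1 * (H * N - N * H)) = 0 := h1
    rw [mul_sub, Matrix.trace_sub] at h2
    rw [sub_mul, Matrix.trace_sub]
    have e1 : Matrix.trace (N * Z.1 * H) = Matrix.trace (Z.1 * (H * N)) := by
      rw [mul_assoc, Matrix.trace_mul_comm, mul_assoc]
    have e2 : Matrix.trace (Z.1 * N * H) = Matrix.trace (Z.1 * (N * H)) := by
      rw [mul_assoc]
    rw [e1, e2]
    exact h2
  have hc : Commute Z.1 N := (sub_eq_zero.mp hcomm).symm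
  have hnilp : IsNilpotent (Z.1 * N) := hc.isNilpotent_mul_left hnil
  have htr : Matrix.trace (Z.1 * N) = 0 :=
    (Matrix.isNilpotent_trace_of_isNilpotent hnilp).eq_zero
  apply hφ1
  rw [← hZ]
  exact htr

end Pool.Agent.Lib.MP_fee02f_an.RL
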