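import Mathlib
import Pool.Agent.Lib.MP_fee02f_an.RL.Defs

set_option autoImplicit false

namespace Pool.Agent.Lib.MP_fee02f_an.RL

open Matrix

/-- sum of the absolute values of the lower coefficients of the characteristic polynomial -/
noncomputable def N2_F {n : ℕ} (Y : Mat n) : ℝ := ∑ i ∈ Finset.range n, |Y.charpoly.coeff i|

lemma N2_coeff {n : ℕ} (Y : Mat n) (i : ℕ) :
    Y.charpoly.coeff i =
      MvPolynomial.eval (fun p : Fin n × Fin n => Y p.1 p.2) ((Matrix.charpoly.univ ℝ (Fin n)).coeff i) := by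
  have h := Matrix.charpoly.univ_coeff_eval₂Hom (Fin n) (RingHom.id ℝ)
    (fun p : Fin n × Fin n => Y p.1 p.2) i
  have e : Matrix.of (Function.curry (fun p : Fin n × Fin n => Y p.1 p.2)) = Y := by
    ext a b; rfl
  rw [e] at h
  rw [← h]
  rfl

lemma N2_F_continuous {n : ℕ} : Continuous (fun Y : Mat n => N2_F Y) := by
  unfold N2_F
  refine continuous_finsetSum _ (fun i _ => ?_)
  refine Continuous.abs ?_
  simp_rw [N2_coeff]
  have h1 : Continuous (fun Y : Mat n => (fun p : Fin n × Fin n => Y p.1 p.2)) := by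
    refine continuous_pi (fun p => ?_)
    exact (continuous_apply_apply p.1 p.2 : Continuous (fun Y : Fin n → Fin n → ℝ => Y p.1 p.2))
  exact (MvPolynomial.continuous_eval _).comp h1

lemma N2_F_zero {n : ℕ} : N2_F (0 : Mat n) = 0 := by
  unfold N2_F
  refine Finset.sum_eq_zero (fun i hi => ?_)
  rw [Matrix.charpoly_zero, Polynomial.coeff_X_pow, Fintype.card_fin,
    if_neg (Finset.mem_range.mp hi).ne, abs_zero]

lemma N2_F_conj {n : ℕ} (h : GL (Fin n) ℝ) (Y : Mat n) :
    N2_F ((h : Mat n) * Y * ((h⁻¹ : GL (Fin n) ℝ) : Mat n)) = N2_F Y := by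
  unfold N2_F
  have : ((h : Mat n) * Y * ((h⁻¹ : GL (Fin n) ℝ) : Mat n)).charpoly = Y.charpoly := by
    have := Matrix.charpoly_units_conj h Y
    rwa [← Matrix.coe_units_inv] at this
  rw [this]

lemma N2_F_nonneg {n : ℕ} (Y : Mat n) : 0 ≤ N2_F Y :=
  Finset.sum_nonneg (fun _ _ => abs_nonneg _)

lemma N2_nilp {n : ℕ} (Y : Mat n) (h : N2_F Y = 0) : IsNilpotent Y := by
  unfold N2_F at h
  rw [Finset.sum_eq_zero_iff_of_nonneg (fun _ _ => abs_nonneg _)] at h
  have hdeg : Y.charpoly.natDegree = n := by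
    rw [Matrix.charpoly_natDegree_eq_dim, Fintype.card_fin]
  have hmon := Matrix.charpoly_monic Y
  have hX : Y.charpoly = Polynomial.X ^ n := by
    ext i
    rw [Polynomial.coeff_X_pow]
    rcases lt_trichotomy i n with hi | hi | hi
    · rw [if_neg hi.ne]
      exact abs_eq_zero.mp (h i (Finset.mem_range.mpr hi))
    · rw [if_pos hi, hi]
      have := hmon.coeff_natDegree
      rwa [hdeg] at this
    · rw [if_neg hi.ne']
      exact Polynomial.coeff_eq_zero_of_natDegree_lt (by rw [hdeg]; exact hi)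
  refine ⟨n, ?_⟩
  have := Matrix.aeval_self_charpoly Y
  rw [hX, map_pow, Polynomial.aeval_X] at this
  exact this

lemma N2_hs_continuous {n : ℕ} : Continuous (fun Y : Mat n => hs Y) := by
  unfold hs
  refine continuous_finsetSum _ (fun i _ => continuous_finsetSum _ (fun j _ => ?_))
  exact ((continuous_apply_apply i j : Continuous (fun Y : Fin n → Fin n → ℝ => Y i j))).pow 2

lemma N2_ip_continuous {n : ℕ} (H : Mat n) : Continuous (fun Y : Mat n => ip (H * Y - Y * H) Y) := by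
  unfold ip
  have h0 : Continuous (fun Y : Mat n => H * Y - Y * H) :=
    (continuous_const.matrix_mul continuous_id).sub (continuous_id.matrix_mul continuous_const)
  refine continuous_finsetSum _ (fun i _ => continuous_finsetSum _ (fun j _ => ?_))
  exact ((continuous_apply_apply i j : Continuous (fun Y : Fin n → Fin n → ℝ => Y i j)).comp h0).mul
    (continuous_apply_apply i j : Continuous (fun Y : Fin n → Fin n → ℝ => Y i j))

lemma N2_sq_le_hs {n : ℕ} (Y : Mat n) (i j : Fin n) : Y i j ^ 2 ≤ hs Y := by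
  unfold hs
  refine le_trans ?_ (Finset.single_le_sum (f := fun i : Fin n => ∑ j : Fin n, Y i j ^ 2)
    (fun _ _ => Finset.sum_nonneg (fun _ _ => sq_nonneg _)) (Finset.mem_univ i))
  exact Finset.single_le_sum (f := fun j : Fin n => Y i j ^ 2) (fun _ _ => sq_nonneg _)
    (Finset.mem_univ j)

lemma N2_ip_self {n : ℕ} (Y : Mat n) : ip Y Y = hs Y := by
  unfold ip hs
  refine Finset.sum_congr rfl (fun i _ => Finset.sum_congr rfl (fun j _ => ?_))
  ring

lemma N2_hs_smul {n : ℕ} (c : ℝ) (Y : Mat n) : hs (c • Y) = c ^ 2 * hs Y := by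
  unfold hs
  rw [Finset.mul_sum]
  refine Finset.sum_congr rfl (fun i _ => ?_)
  rw [Finset.mul_sum]
  refine Finset.sum_congr rfl (fun j _ => ?_)
  rw [Matrix.smul_apply, smul_eq_mul]
  ring

lemma N2_ip_smul {n : ℕ} (c : ℝ) (H Y : Mat n) :
    ip (H * (c • Y) - (c • Y) * H) (c • Y) = c ^ 2 * ip (H * Y - Y * H) Y := by
  have e : H * (c • Y) - (c • Y) * H = c • (H * Y - Y * H) := by
    rw [Matrix.mul_smul, Matrix.smul_mul, smul_sub]
  rw [e]
  unfold ip
  rw [Finset.mul_sum]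
  refine Finset.sum_congr rfl (fun i _ => ?_)
  rw [Finset.mul_sum]
  refine Finset.sum_congr rfl (fun j _ => ?_)
  rw [Matrix.smul_apply, Matrix.smul_apply, smul_eq_mul, smul_eq_mul]
  ring

theorem compactness {n : ℕ} (g : Submodule ℝ (Mat n))
    (hN : ∀ N ∈ g, IsNilpotent N → ∃ H ∈ g, H * N - N * H = N) (δ : ℝ) (hδ : 0 < δ) :
    ∃ ε > (0 : ℝ), ∀ Y ∈ g, (∀ H ∈ g, ip (H * Y - Y * H) Y = 0) → ∀ h : GL (Fin n) ℝ,
      Small ε ((h : Mat n) * Y * ((h⁻¹ : GL (Fin n) ℝ) : Mat n)) → Small δ Y := by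
  set K : Set (Mat n) := {Y | Y ∈ g ∧ hs Y = δ ^ 2 ∧ ∀ H ∈ g, ip (H * Y - Y * H) Y = 0} with hK
  have hKpos : ∀ Y ∈ K, 0 < N2_F Y := by
    intro Y hY
    refine lt_of_le_of_ne (N2_F_nonneg Y) ?_
    intro h0
    obtain ⟨H, hH, hHY⟩ := hN Y hY.1 (N2_nilp Y h0.symm)
    have h1 := hY.2.2 H hH
    rw [hHY, N2_ip_self, hY.2.1] at h1
    have : 0 < δ ^ 2 := by positivity
    linarith
  have hKclosed : IsClosed K := by
    have h1 : IsClosed (g : Set (Mat n)) := Submodule.closed_of_finiteDimensional g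
    have h2 : IsClosed {Y : Mat n | hs Y = δ ^ 2} := isClosed_eq N2_hs_continuous continuous_const
    have h3 : IsClosed {Y : Mat n | ∀ H ∈ g, ip (H * Y - Y * H) Y = 0} := by
      have : {Y : Mat n | ∀ H ∈ g, ip (H * Y - Y * H) Y = 0} =
          ⋂ H ∈ g, {Y : Mat n | ip (H * Y - Y * H) Y = 0} := by
        ext Y; simp
      rw [this]
      exact isClosed_biInter (fun H _ => isClosed_eq (N2_ip_continuous H) continuous_const)
    have : K = (g : Set (Mat n)) ∩ ({Y : Mat n | hs Y = δ ^ 2} ∩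
        {Y : Mat n | ∀ H ∈ g, ip (H * Y - Y * H) Y = 0}) := by
      ext Y; rfl
    rw [this]
    exact h1.inter (h2.inter h3)
  have hKcompact : IsCompact K := by
    have hbox : IsCompact (Set.pi Set.univ (fun _ : Fin n =>
        Set.pi Set.univ (fun _ : Fin n => Set.Icc (-δ) δ)) : Set (Fin n → Fin n → ℝ)) :=
      isCompact_univ_pi (fun _ => isCompact_univ_pi (fun _ => isCompact_Icc))
    refine IsCompact.of_isClosed_subset hbox hKclosed ?_
    intro Y hY i _ j _
    have h1 := N2_sq_le_hs Y i j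
    rw [hY.2.1] at h1
    exact abs_le.mp (abs_le_of_sq_le_sq h1 hδ.le)
  obtain ⟨c0, hc0, hcK⟩ : ∃ c0 > (0 : ℝ), ∀ Y ∈ K, c0 ≤ N2_F Y := by
    rcases K.eq_empty_or_nonempty with hE | hE
    · exact ⟨1, one_pos, fun Y hY => by rw [hE] at hY; exact absurd hY (Set.notMem_empty Y)⟩
    · obtain ⟨Y0, hY0, hmin⟩ := hKcompact.exists_isMinOn hE N2_F_continuous.continuousOn
      exact ⟨N2_F Y0, hKpos Y0 hY0, fun Y hY => hmin hY⟩
  -- continuity of F at zero
  obtain ⟨ε, hε, hεF⟩ : ∃ ε > (0 : ℝ), ∀ Z : Mat n, Small ε Z → N2_F Z < c0 := by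
    have hopen : IsOpen {Z : Mat n | N2_F Z < c0} := isOpen_lt N2_F_continuous continuous_const
    have h0 : (0 : Mat n) ∈ {Z : Mat n | N2_F Z < c0} := by
      change N2_F (0 : Mat n) < c0
      rw [N2_F_zero]; exact hc0
    let _ : NormedAddCommGroup (Mat n) := Matrix.normedAddCommGroup
    obtain ⟨ε, hε, hball⟩ := Metric.isOpen_iff.mp hopen 0 h0
    refine ⟨ε, hε, fun Z hZ => hball ?_⟩
    rw [Metric.mem_ball, dist_zero_right]
    exact (Matrix.norm_lt_iff hε).mpr (fun i j => hZ i j)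
  refine ⟨ε, hε, ?_⟩
  intro Y hYg hYmin h hs' 
  by_contra hnot
  have hbig : δ ^ 2 ≤ hs Y := by
    unfold Small at hnot
    push Not at hnot
    obtain ⟨i, j, hij⟩ := hnot
    refine le_trans ?_ (N2_sq_le_hs Y i j)
    rw [← sq_abs (Y i j)]
    gcongr
  have hspos : 0 < hs Y := lt_of_lt_of_le (by positivity) hbig
  set s : ℝ := Real.sqrt (hs Y) with hsdef
  have hs0 : 0 < s := Real.sqrt_pos.mpr hspos
  have hs2 : s ^ 2 = hs Y := Real.sq_sqrt hspos.le
  have hδs : δ ≤ s := by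
    rw [hsdef]
    exact Real.le_sqrt_of_sq_le hbig
  set c : ℝ := δ / s with hc
  have hc0' : 0 < c := by positivity
  have hc1 : c ≤ 1 := by rw [hc, div_le_one hs0]; exact hδs
  have hmem : c • Y ∈ K := by
    refine ⟨g.smul_mem c hYg, ?_, ?_⟩
    · rw [N2_hs_smul, ← hs2, hc]
      field_simp
    · intro H hH
      rw [N2_ip_smul, hYmin H hH, mul_zero]
  have h1 := hcK _ hmem
  have h2 : N2_F ((h : Mat n) * (c • Y) * ((h⁻¹ : GL (Fin n) ℝ) : Mat n)) < c0 := by
    refine hεF _ ?_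
    intro i j
    rw [Matrix.mul_smul, Matrix.smul_mul, Matrix.smul_apply, smul_eq_mul, abs_mul,
      abs_of_pos hc0']
    calc c * |((h : Mat n) * Y * ((h⁻¹ : GL (Fin n) ℝ) : Mat n)) i j| ≤
        1 * |((h : Mat n) * Y * ((h⁻¹ : GL (Fin n) ℝ) : Mat n)) i j| := by gcongr
      _ < ε := by rw [one_mul]; exact hs' i j
  rw [N2_F_conj] at h2
  linarith

end Pool.Agent.Lib.MP_fee02f_an.RL
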