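import Mathlib
import Pool.Agent.Lib.MP_fee02f_an.RL.Defs

/-!
T1 (about 45 min). From the topological hypotheses (discrete, compact quotient) to the explicit ones.
PROOF. `disc_of_discrete`: {1} is open in Γ, so there is an open set of GL_n(ℝ) meeting Γ only in 1; the topology of GL_n(ℝ) is
induced from the matrices (Units.isOpenEmbedding_val with a local norm instance on matrices, whose topology is the usual
one definitionally; or the entries of g and g⁻¹, the latter continuous by Matrix.inv / adjugate), so it contains all x with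
Small ε (x - 1). `cocompact`: G is locally compact (closed in GL_n(ℝ), which is locally compact: open embedding into a finite
dimensional space). Every g in G has a compact neighbourhood K_g in G; the images of the interiors in G ⧸ Γ are open (QuotientGroup.isOpenMap_coe)
and cover; finitely many suffice; C = image in GL_n(ℝ) of the union of these K_g.
-/

set_option autoImplicit false

namespace Pool.Agent.Lib.MP_fee02f_an.RL

open Matrix

set_option backward.isDefEq.respectTransparency false in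
theorem T1_emb (n : ℕ) : Topology.IsOpenEmbedding (fun g : GL (Fin n) ℝ => (g : Mat n)) :=
  open scoped Matrix.Norms.Operator in Units.isOpenEmbedding_val

theorem T1_small {n : ℕ} (V : Set (Mat n)) (hV : IsOpen V) (h1 : (1 : Mat n) ∈ V) :
    ∃ ε > (0 : ℝ), ∀ A : Mat n, Small ε (A - 1) → A ∈ V := by
  have h2 := hV.mem_nhds h1
  obtain ⟨ε, hε, hb⟩ := (Metric.mem_nhds_iff (α := Fin n → Fin n → ℝ)).1 h2
  refine ⟨ε, hε, fun A hA => hb ?_⟩
  have h4 : ∀ B C : Fin n → Fin n → ℝ, (∀ i j, |B i j - C i j| < ε) → B ∈ Metric.ball C ε := by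
    intro B C h
    exact (dist_pi_lt_iff hε).2 fun i => (dist_pi_lt_iff hε).2 fun j => h i j
  exact h4 _ _ fun i j => hA i j

theorem disc_of_discrete {n : ℕ} (G : Subgroup (GL (Fin n) ℝ)) (Γ : Subgroup G)
    (hd : DiscreteTopology Γ) :
    ∃ ε > (0 : ℝ), ∀ γ ∈ Γ.map G.subtype, Small ε ((γ : Mat n) - 1) → γ = 1 := by
  have h1 : IsOpen ({1} : Set Γ) := isOpen_discrete _
  have hemb : Topology.IsInducing (fun g : Γ => ((g : G) : GL (Fin n) ℝ)) :=
    Topology.IsInducing.subtypeVal.comp Topology.IsInducing.subtypeVal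
  obtain ⟨V, hV, hV1⟩ := hemb.isOpen_iff.1 h1
  have h2 : IsOpen ((fun g : GL (Fin n) ℝ => (g : Mat n)) '' V) := (T1_emb n).isOpenMap V hV
  have h1V : (1 : GL (Fin n) ℝ) ∈ V := by
    have : (1 : Γ) ∈ (fun g : Γ => ((g : G) : GL (Fin n) ℝ)) ⁻¹' V := by
      rw [hV1]; rfl
    simpa using this
  obtain ⟨ε, hε, h3⟩ := T1_small _ h2 ⟨1, h1V, rfl⟩
  refine ⟨ε, hε, ?_⟩
  rintro γ ⟨g, hg, rfl⟩ hs
  obtain ⟨v, hv, hv2⟩ := h3 _ hs
  have hv3 : v = (g : GL (Fin n) ℝ) := Units.ext hv2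
  have : (⟨g, hg⟩ : Γ) ∈ ({1} : Set Γ) := by
    rw [← hV1]
    change ((g : G) : GL (Fin n) ℝ) ∈ V
    rw [← hv3]; exact hv
  have h4 : (⟨g, hg⟩ : Γ) = 1 := this
  have h5 : g = 1 := by
    have := congrArg Subtype.val h4
    exact this
  rw [h5]
  rfl

theorem cocompact {n : ℕ} (G : Subgroup (GL (Fin n) ℝ)) (hG : IsClosed (G : Set (GL (Fin n) ℝ)))
    (Γ : Subgroup G) (hc : CompactSpace (G ⧸ Γ)) :
    ∃ C : Set (GL (Fin n) ℝ), IsCompact C ∧ ∀ g ∈ G, ∃ c ∈ C, ∃ γ ∈ Γ.map G.subtype, g = c * γ := by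
  have : LocallyCompactSpace (Fin n → Fin n → ℝ) := inferInstance
  have h0 : LocallyCompactSpace (Mat n) := this
  have h1 : LocallyCompactSpace (GL (Fin n) ℝ) := (T1_emb n).locallyCompactSpace
  have h2 : LocallyCompactSpace G := hG.isClosedEmbedding_subtypeVal.locallyCompactSpace
  choose K hK using fun g : G => exists_compact_mem_nhds g
  let U : G → Set (G ⧸ Γ) := fun g => (QuotientGroup.mk : G → G ⧸ Γ) '' interior (K g)
  have hU : ∀ g, IsOpen (U g) := fun g => QuotientGroup.isOpenMap_coe _ isOpen_interior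
  have hcov : (Set.univ : Set (G ⧸ Γ)) ⊆ ⋃ g, U g := by
    intro x _
    obtain ⟨g, rfl⟩ := QuotientGroup.mk_surjective x
    exact Set.mem_iUnion.2 ⟨g, ⟨g, mem_interior_iff_mem_nhds.2 (hK g).2, rfl⟩⟩
  obtain ⟨t, ht⟩ := isCompact_univ.elim_finite_subcover U hU hcov
  refine ⟨(Subtype.val : G → GL (Fin n) ℝ) '' (⋃ g ∈ t, K g), ?_, ?_⟩
  · exact (t.isCompact_biUnion (fun g _ => (hK g).1)).image continuous_subtype_val
  · intro g hg
    have h3 : (QuotientGroup.mk (⟨g, hg⟩ : G) : G ⧸ Γ) ∈ ⋃ g ∈ t, U g := ht (Set.mem_univ _)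
    simp only [Set.mem_iUnion] at h3
    obtain ⟨c0, hc0, c, hc, hcg⟩ := h3
    have h4 : c⁻¹ * ⟨g, hg⟩ ∈ Γ := QuotientGroup.eq.1 hcg
    refine ⟨(c : GL (Fin n) ℝ), ⟨c, Set.mem_biUnion hc0 (interior_subset hc), rfl⟩, 
      ((c⁻¹ * ⟨g, hg⟩ : G) : GL (Fin n) ℝ), ⟨_, h4, rfl⟩, ?_⟩
    simp

end Pool.Agent.Lib.MP_fee02f_an.RL
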