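import Mathlib
import Pool.Agent.Lib.MP_fee02f_an.RL.Defs
import Pool.Agent.Lib.MP_fee02f_an.RL.A2
import Pool.Agent.Lib.MP_fee02f_an.RL.B5
import Pool.Agent.Lib.MP_fee02f_an.RL.B6
import Pool.Agent.Lib.MP_fee02f_an.RL.B8
import Pool.Agent.Lib.MP_fee02f_an.RL.E3
import Pool.Agent.Lib.MP_fee02f_an.RL.N1
import Pool.Agent.Lib.MP_fee02f_an.RL.N2
import Pool.Agent.Lib.MP_fee02f_an.RL.F1
import Pool.Agent.Lib.MP_fee02f_an.RL.F2
import Pool.Agent.Lib.MP_fee02f_an.RL.F3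
import Pool.Agent.Lib.MP_fee02f_an.RL.T1

/-!
Assembly: cocompact lattices of real reductive groups (textbook definition) are uniformly discrete.
-/

set_option autoImplicit false

namespace Pool.Agent.Lib.MP_fee02f_an.RL

open Matrix

/-- entries of `a * A * b` -/
lemma Fin_small_mul {n : ℕ} (R ε : ℝ) (hR : 0 < R) (hε : 0 < ε) (a b A : Mat n)
    (ha : ∀ i j, |a i j| ≤ R) (hb : ∀ i j, |b i j| ≤ R)
    (hA : Small (ε / ((n : ℝ) ^ 2 * R ^ 2 + 1)) A) : Small ε (a * A * b) := by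
  intro i j
  have hpos : (0 : ℝ) < (n : ℝ) ^ 2 * R ^ 2 + 1 := by positivity
  have h1 : (a * A * b) i j = ∑ k, ∑ l, a i l * A l k * b k j := by
    rw [Matrix.mul_apply]
    refine Finset.sum_congr rfl (fun k _ => ?_)
    rw [Matrix.mul_apply, Finset.sum_mul]
  rw [h1]
  have h2 : |∑ k, ∑ l, a i l * A l k * b k j| ≤ ∑ _k : Fin n, ∑ _l : Fin n,
      R * (ε / ((n : ℝ) ^ 2 * R ^ 2 + 1)) * R := by
    refine (Finset.abs_sum_le_sum_abs _ _).trans (Finset.sum_le_sum (fun k _ => ?_))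
    refine (Finset.abs_sum_le_sum_abs _ _).trans (Finset.sum_le_sum (fun l _ => ?_))
    rw [abs_mul, abs_mul]
    have := (hA l k).le
    gcongr
    · exact ha i l
    · exact hb k j
  refine lt_of_le_of_lt h2 ?_
  rw [Finset.sum_const, Finset.sum_const, Finset.card_univ, Fintype.card_fin, nsmul_eq_mul,
    nsmul_eq_mul]
  have h3 : (n : ℝ) * ((n : ℝ) * (R * (ε / ((n : ℝ) ^ 2 * R ^ 2 + 1)) * R)) =
      ε * (((n : ℝ) ^ 2 * R ^ 2) / ((n : ℝ) ^ 2 * R ^ 2 + 1)) := by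
    field_simp
  rw [h3]
  have h4 : ((n : ℝ) ^ 2 * R ^ 2) / ((n : ℝ) ^ 2 * R ^ 2 + 1) < 1 := by
    rw [div_lt_one hpos]; linarith
  nlinarith

theorem real_ud {n : ℕ} (G Γ : Subgroup (GL (Fin n) ℝ)) (hZ : ZClosed G) (hU : NoUnip G) (hΓ : Γ ≤ G)
    (hdisc : ∃ ε > (0 : ℝ), ∀ γ ∈ Γ, Small ε ((γ : Mat n) - 1) → γ = 1)
    (C : Set (GL (Fin n) ℝ)) (hC : IsCompact C) (hCΓ : ∀ g ∈ G, ∃ c ∈ C, ∃ γ ∈ Γ, g = c * γ) :
    ∃ ε > (0 : ℝ), ∀ h : GL (Fin n) ℝ, ∀ γ ∈ Γ,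
      Small ε (((h * γ * h⁻¹ : GL (Fin n) ℝ) : Mat n) - 1) → γ = 1 := by
  have hclosed := zclosed_closed G hZ
  have hfin := finite_bounded Γ hdisc
  obtain ⟨R, hR, hCR⟩ := bounded_of_compact C hC
  obtain ⟨ε0, hε0, hd0⟩ := hdisc
  obtain ⟨δ2, hδ2, h2⟩ := exp_small n (ε0 / ((n : ℝ) ^ 2 * R ^ 2 + 1)) (by positivity)
  have hnd : ∀ X ∈ lieG G, (∀ Y ∈ lieG G, Matrix.trace (X * Y) = 0) → X = 0 := by
    intro X hX h
    exact nondeg G hZ hU X hX h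
  have hbr : ∀ X ∈ lieG G, ∀ Y ∈ lieG G, X * Y - Y * X ∈ lieG G := by
    intro X hX Y hY
    exact bracket_mem G X Y hX hY
  obtain ⟨δ1, hδ1, h1⟩ := compactness (lieG G)
    (fun N hN hnil => nilp_mem_bracket (lieG G) hbr hnd N hN hnil) δ2 hδ2
  obtain ⟨ε, hε, hlog⟩ := log_mem G δ1 hδ1
  refine ⟨ε, hε, ?_⟩
  intro h γ hγ hsm
  obtain ⟨X, hXL, hXe, hXs, hXc⟩ := hlog h γ (hΓ hγ) hsm
  obtain ⟨g, hgG, hmin⟩ := exists_min G Γ hΓ hfin hclosed C hC hCΓ γ hγ X hXe hXc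
  set Y : Mat n := (g : Mat n) * X * ((g⁻¹ : GL (Fin n) ℝ) : Mat n) with hY
  have hYL : InLie G Y := conj_mem G g hgG X hXL
  have hgg : ((g⁻¹ : GL (Fin n) ℝ) : Mat n) * (g : Mat n) = 1 := by
    rw [← Units.val_mul]; simp
  have hgg' : (g : Mat n) * ((g⁻¹ : GL (Fin n) ℝ) : Mat n) = 1 := by
    rw [← Units.val_mul]; simp
  -- Y is a minimal vector
  have hYmin : ∀ H ∈ lieG G, ip (H * Y - Y * H) Y = 0 := by
    intro H hH
    refine min_deriv Y H ?_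
    intro t
    obtain ⟨E, hE⟩ : ∃ E : GL (Fin n) ℝ, (E : Mat n) = NormedSpace.exp (t • H) ∧
        ((E⁻¹ : GL (Fin n) ℝ) : Mat n) = NormedSpace.exp (-(t • H)) := by
      have c1 : Commute (t • H) (-(t • H)) := Commute.neg_right (Commute.refl (t • H))
      have c2 : Commute (-(t • H)) (t • H) := Commute.neg_left (Commute.refl (t • H))
      refine ⟨⟨NormedSpace.exp (t • H), NormedSpace.exp (-(t • H)), ?_, ?_⟩, rfl, rfl⟩
      · rw [← Matrix.exp_add_of_commute _ _ c1, add_neg_cancel, NormedSpace.exp_zero]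
      · rw [← Matrix.exp_add_of_commute _ _ c2, neg_add_cancel, NormedSpace.exp_zero]
    have hEG : E ∈ G := exp_mem G hZ (t • H) ((lieG G).smul_mem t hH) E hE.1
    have := hmin (E * g) (G.mul_mem hEG hgG)
    rw [← hE.1, ← hE.2]
    refine this.trans (le_of_eq ?_)
    rw [_root_.mul_inv_rev, Units.val_mul, Units.val_mul, hY]
    simp only [Matrix.mul_assoc]
  -- Y is small
  have hYs : Small δ2 Y := by
    refine h1 Y hYL hYmin (h * g⁻¹) ?_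
    have e : (((h * g⁻¹ : GL (Fin n) ℝ)) : Mat n) * Y * (((h * g⁻¹)⁻¹ : GL (Fin n) ℝ) : Mat n) =
        (h : Mat n) * X * ((h⁻¹ : GL (Fin n) ℝ) : Mat n) := by
      rw [_root_.mul_inv_rev, inv_inv, Units.val_mul, Units.val_mul, hY]
      calc ((h : Mat n) * ((g⁻¹ : GL (Fin n) ℝ) : Mat n)) *
            ((g : Mat n) * X * ((g⁻¹ : GL (Fin n) ℝ) : Mat n)) *
            ((g : Mat n) * ((h⁻¹ : GL (Fin n) ℝ) : Mat n)) =
          (h : Mat n) * (((g⁻¹ : GL (Fin n) ℝ) : Mat n) * (g : Mat n)) * X *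
            (((g⁻¹ : GL (Fin n) ℝ) : Mat n) * (g : Mat n)) * ((h⁻¹ : GL (Fin n) ℝ) : Mat n) := by
            simp only [Matrix.mul_assoc]
        _ = _ := by rw [hgg, Matrix.mul_one, Matrix.mul_one]
    rw [e]
    exact hXs
  have hexp := h2 Y hYs
  have hexpY : NormedSpace.exp Y = (g : Mat n) * (γ : Mat n) * ((g⁻¹ : GL (Fin n) ℝ) : Mat n) := by
    rw [hY, ← hXe]
    exact Matrix.exp_units_conj g X
  obtain ⟨c, hc, d, hd, hgcd⟩ := hCΓ g hgG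
  have hdγ : d * γ * d⁻¹ ∈ Γ := Γ.mul_mem (Γ.mul_mem hd hγ) (Γ.inv_mem hd)
  have hone : d * γ * d⁻¹ = 1 := by
    refine hd0 _ hdγ ?_
    have e : ((d * γ * d⁻¹ : GL (Fin n) ℝ) : Mat n) - 1 =
        ((c⁻¹ : GL (Fin n) ℝ) : Mat n) * (NormedSpace.exp Y - 1) * (c : Mat n) := by
      have e1 : d * γ * d⁻¹ = c⁻¹ * (g * γ * g⁻¹) * c := by
        rw [hgcd]; group
      rw [e1, Units.val_mul, Units.val_mul, Units.val_mul, Units.val_mul, ← hexpY,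
        Matrix.mul_sub, Matrix.sub_mul, Matrix.mul_one]
      congr 1
      rw [← Units.val_mul]; simp
    rw [e]
    exact Fin_small_mul R ε0 hR hε0 _ _ _ (hCR c hc).2 (hCR c hc).1 hexp
  have : d * γ = d := by
    have := congrArg (· * d) hone
    simpa [mul_assoc] using this
  simpa using this

theorem real_reductive_ud {n : ℕ} (G : Subgroup (GL (Fin n) ℝ))
    (hZ : ∃ S : Set (MvPolynomial (Fin n × Fin n) ℝ), ∀ g, g ∈ G ↔
      ∀ p ∈ S, MvPolynomial.eval (fun q => g.1 q.1 q.2) p = 0)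
    (hU : ∀ N : Subgroup G, N.Normal →
      (∀ g ∈ N, IsNilpotent ((g : GL (Fin n) ℝ).1 - 1)) → N = ⊥)
    (Γ : Subgroup G) (hd : DiscreteTopology Γ) (hc : CompactSpace (G ⧸ Γ)) :
    ∃ ε > 0, ∀ (h : GL (Fin n) ℝ) (γ : Γ),
      (∀ i j, |(h.1 * γ.1.1.1 * h⁻¹.1 - 1) i j| < ε) → γ = 1 := by
  have hZ' : ZClosed G := hZ
  have hU' : NoUnip G := by
    intro U hUG hn hnil
    have h1 := hU (U.subgroupOf G) ⟨?_⟩ ?_
    · rw [Subgroup.subgroupOf_eq_bot] at h1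
      rw [eq_bot_iff]
      intro u hu
      have := h1.le_bot ⟨hu, hUG hu⟩
      exact this
    · intro u hu g
      rw [Subgroup.mem_subgroupOf] at hu ⊢
      exact hn g.1 g.2 u.1 hu
    · intro g hg
      exact hnil g.1 (Subgroup.mem_subgroupOf.mp hg)
  obtain ⟨C, hC, hCΓ⟩ := cocompact G (zclosed_closed G hZ') Γ hc
  obtain ⟨ε, hε, h1⟩ := real_ud G (Γ.map G.subtype) hZ' hU' (Subgroup.map_subtype_le Γ)
    (disc_of_discrete G Γ hd) C hC hCΓ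
  refine ⟨ε, hε, ?_⟩
  intro h γ hs
  have h2 := h1 h (γ.1 : GL (Fin n) ℝ) (Subgroup.mem_map.mpr ⟨γ.1, γ.2, rfl⟩) ?_
  · exact Subtype.ext (Subtype.ext h2)
  · intro i j
    have := hs i j
    rw [Units.val_mul, Units.val_mul]
    exact this

end Pool.Agent.Lib.MP_fee02f_an.RL
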